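import Pool.Agent.H96.RX.LineStep

/-!
ROW Dag (sum over the lines; about 70 lines).  PROOF.  `q = qa α`, `n = finrank V`, `E k = {x | ∃ i < k, x ∈ D i}`, `a = (1 - (1/2)^α)^m`,
`b = (1/2)^(d α)`.  Claim: for `k ≤ N`, `Om (E k) ≤ k * ((a + b) * (1+q)^n)`.  `k = 0`: `E 0 = ∅`, `Om_empty`.  Step: `E (k+1) = E k ∪ D k`.
First alternative (`finrank (W k) + m ≤ n`): `Om (E ∪ D) ≤ Om E + Om D` (`Om_submod`, `Om_nonneg`), `Om D ≤ (1+q)^(finrank W)` (`Om_affine`)
`≤ (1+q)^(n-m) = a (1+q)^n` (`one_add_qa`: `(1+q)^m a = 1`).  Second: `line_step` with `E = E k`, `b (1+q)^(finrank W) ≤ b (1+q)^n`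
(`Submodule.finrank_le`); the set `{w // ∀ j < k, x + w ∉ D j}` is `{w // x + w ∉ E k}`.
`E N = univ` as `D i = univ`, `i < N`; `Om univ = (1+q)^n` (`Om_univ`); divide by `(1+q)^n > 0`.
-/

set_option autoImplicit false
open scoped Classical

namespace H96RX

variable {V : Type} [AddCommGroup V] [Module (ZMod 2) V] [Finite V]

theorem dag {α d m N : ℕ} (hα : 2 ≤ α) (D : ℕ → Set V) (W : ℕ → Submodule (ZMod 2) V) (x0 : ℕ → V)
    (hD : ∀ i < N, ∀ x ∈ D i, x - x0 i ∈ W i)
    (h : ∀ i < N, Module.finrank (ZMod 2) (W i) + m ≤ Module.finrank (ZMod 2) V ∨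
      ∃ Wb : Submodule (ZMod 2) V, Wb ≤ W i ∧ (∀ x ∈ D i, ∀ w ∈ Wb, x + w ∈ D i) ∧
        ∀ x ∈ D i, 2 ^ d * Nat.card {w : Wb // ∀ j < i, x + (w : V) ∉ D j} ≤ Nat.card Wb)
    (hlast : ∃ i < N, D i = Set.univ) :
    1 ≤ (N : ℝ) * ((1 - (1 / 2 : ℝ) ^ α) ^ m + (1 / 2 : ℝ) ^ (d * α)) := by
  obtain ⟨hq0, hq1⟩ := qa_bounds hα
  obtain ⟨n, hn⟩ : ∃ n, n = Module.finrank (ZMod 2) V := ⟨_, rfl⟩
  obtain ⟨a, haE⟩ : ∃ a : ℝ, a = (1 - (1 / 2 : ℝ) ^ α) ^ m := ⟨_, rfl⟩
  obtain ⟨b, hbE⟩ : ∃ b : ℝ, b = (1 / 2 : ℝ) ^ (d * α) := ⟨_, rfl⟩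
  have ha : 0 ≤ a := by
    have h1 : (1 / 2 : ℝ) ^ α ≤ 1 := pow_le_one₀ (by norm_num) (by norm_num)
    rw [haE]
    exact pow_nonneg (by linarith) m
  have hb : 0 ≤ b := by rw [hbE]; positivity
  have h1q : (1 : ℝ) ≤ 1 + qa α := by linarith
  have hn0 : 0 < (1 + qa α) ^ n := by positivity
  have key : ∀ k ≤ N, Om V (qa α) {x | ∃ i < k, x ∈ D i} ≤ k * ((a + b) * (1 + qa α) ^ n) := by
    intro k
    induction k with
    | zero =>
      intro _
      have h0 : {x | ∃ i < 0, x ∈ D i} = (∅ : Set V) := by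
        ext x
        simp
      rw [h0, Om_empty]
      simp
    | succ k ih =>
      intro hk
      have hk' : k < N := hk
      have ih' := ih (by omega)
      obtain ⟨E, hE⟩ : ∃ E : Set V, E = {x | ∃ i < k, x ∈ D i} := ⟨_, rfl⟩
      rw [← hE] at ih'
      have hE' : {x | ∃ i < k + 1, x ∈ D i} = E ∪ D k := by
        rw [hE]
        ext x
        constructor
        · rintro ⟨i, hi, hx⟩
          rcases Nat.lt_succ_iff_lt_or_eq.mp hi with h' | h'
          · exact Or.inl ⟨i, h', hx⟩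
          · subst h'
            exact Or.inr hx
        · rintro (⟨i, hi, hx⟩ | hx)
          · exact ⟨i, by omega, hx⟩
          · exact ⟨k, by omega, hx⟩
      rw [hE']
      have e8 : 0 ≤ a * (1 + qa α) ^ n := mul_nonneg ha hn0.le
      have e9 : 0 ≤ b * (1 + qa α) ^ n := mul_nonneg hb hn0.le
      rcases h k hk' with h1 | ⟨Wb, hWb, hst, hcard⟩
      · have e1 := Om_submod (V := V) hq0.le hq1 E (D k)
        have e2 := Om_nonneg (V := V) hq0.le hq1 (E ∩ D k)
        have e3 := Om_affine hα (W k) (x0 k) (D k) (hD k hk')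
        have e4 : (1 + qa α) ^ Module.finrank (ZMod 2) (W k) ≤ a * (1 + qa α) ^ n := by
          have e5 : (1 + qa α) ^ (Module.finrank (ZMod 2) (W k) + m) ≤ (1 + qa α) ^ n := by
            rw [hn]
            exact pow_le_pow_right₀ h1q h1
          have e6 : (1 + qa α) ^ (Module.finrank (ZMod 2) (W k)) =
              a * (1 + qa α) ^ (Module.finrank (ZMod 2) (W k) + m) := by
            have e7 : (1 + qa α) ^ m * a = 1 := by
              rw [haE, ← mul_pow, one_add_qa (by omega), one_pow]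
            rw [pow_add]
            calc (1 + qa α) ^ (Module.finrank (ZMod 2) (W k))
                = (1 + qa α) ^ (Module.finrank (ZMod 2) (W k)) * ((1 + qa α) ^ m * a) := by
                  rw [e7, mul_one]
              _ = _ := by ring
          rw [e6]
          exact mul_le_mul_of_nonneg_left e5 ha
        push_cast
        linarith [e1, e2, e3, e4, e8, e9, ih']
      · have e1 := line_step hα (W k) Wb hWb (x0 k) (D k) E (hD k hk') hst (by
          intro x hx
          have h3 := hcard x hx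
          have h4 : Nat.card {w : Wb // x + (w : V) ∉ E} =
              Nat.card {w : Wb // ∀ j < k, x + (w : V) ∉ D j} := by
            refine Nat.card_congr (Equiv.subtypeEquivRight fun w => ?_)
            rw [hE]
            constructor
            · intro h5 j hj h6
              exact h5 ⟨j, hj, h6⟩
            · rintro h5 ⟨j, hj, h6⟩
              exact h5 j hj h6
          rw [h4]
          exact h3)
        have e2 : (1 + qa α) ^ (Module.finrank (ZMod 2) (W k)) ≤ (1 + qa α) ^ n := by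
          rw [hn]
          exact pow_le_pow_right₀ h1q (Submodule.finrank_le (W k))
        rw [← hbE] at e1
        have e3 := mul_le_mul_of_nonneg_left e2 hb
        push_cast
        linarith [e1, e3, e8, e9, ih']
  have hN := key N le_rfl
  have hu : {x | ∃ i < N, x ∈ D i} = (Set.univ : Set V) := by
    obtain ⟨i, hi, hDi⟩ := hlast
    refine Set.eq_univ_of_forall fun x => ⟨i, hi, ?_⟩
    rw [hDi]
    exact Set.mem_univ x
  rw [hu, Om_univ hq0.le hq1, ← hn] at hN
  rw [← haE, ← hbE]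
  by_contra hc
  have hc' := not_le.mp hc
  have h9 : (N : ℝ) * (a + b) * (1 + qa α) ^ n < 1 * (1 + qa α) ^ n :=
    mul_lt_mul_of_pos_right hc' hn0
  linarith

end H96RX
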