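import Pool.Agent.H96.RX.Defs

/-!
ROW Prod (functions of degree `≤ D` on `V × F`; about 110 lines).  Put `phi (a, b) (x, t) = a x + t * b x`.  PROOF.
`one_mem_RM`: `Submodule.one_le` : `1 ≤ Aff V` because constants are affine (`φ = 0`), so `1 = 1 ^ D ∈ (Aff V) ^ D`
(`Submodule.one_le_pow..`, or induction with `pow_succ`, `Submodule.mul_mem_mul`).
`RM_succ_le`: `RM V D ≤ RM V (D + 1)`: `f = f * 1`, `pow_succ`, `Submodule.mul_mem_mul`.
`RM_prod_le` (every `f ∈ RM (V × F) (D+1)` is `phi a b`, `a ∈ RM V (D+1)`, `b ∈ RM V D`): induction on `D`, together with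
`RM (V × F) 0 = 1` (constants: `a` constant, `b = 0`; `Submodule.mem_one`, `a ∈ RM V 0`).
An affine function on `V × F` is `(x,t) ↦ φ (x,t) + c = (φ (x,0) + c) + t * φ (0,1)` (`φ (x,t) = φ (x,0) + φ (0,t)`,
`φ (0,t) = t φ (0,1)`), i.e. `phi l e` with `l ∈ Aff V` and `e` constant.  Step `RM (D+2) = RM (D+1) * Aff`
(`pow_succ`, `Submodule.mul_le`, or `Submodule.mul_induction_on`; the set of `phi a b` is closed under addition):
`(a + t b) (l + t e) = a l + t (b l + e a + e b)` as `t * t = t` in `ZMod 2`; `a l ∈ RM (D+2)`, `b l ∈ RM (D+1)`, `e a ∈ RM (D+1)`,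
`e b ∈ RM D ≤ RM (D+1)`.  Case `D = 0`: `f = const * affine`, direct.
`phi_mem`: `x ↦ a x.1 ∈ RM (V × F) (D+1)`: the algebra hom `g ↦ g ∘ Prod.fst` maps `Aff V` into `Aff (V × F)`, so
`(Aff V)^D` into `(Aff (V × F))^D` (`Submodule.map_pow`, `Submodule.pow_le_pow_left`; or induction with
`Submodule.pow_induction_on_left`); `(x,t) ↦ t ∈ Aff (V × F)` and `RM D * Aff = RM (D+1)`.
`RM_prod_zero`: members of `RM (V × F) 0` are constants (`Submodule.mem_one`).
-/

set_option autoImplicit false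
open scoped Classical

namespace H96RX

/-- the linear bijection `(V → F) × (V → F) → (V × F → F)` -/
def phi (V : Type) : ((V → ZMod 2) × (V → ZMod 2)) →ₗ[ZMod 2] (V × ZMod 2 → ZMod 2) where
  toFun p := fun x => p.1 x.1 + x.2 * p.2 x.1
  map_add' := by
    intro p r
    funext x
    simp only [Prod.fst_add, Prod.snd_add, Pi.add_apply]
    ring
  map_smul' := by
    intro c p
    funext x
    simp only [Prod.smul_fst, Prod.smul_snd, Pi.smul_apply, smul_eq_mul, RingHom.id_apply]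
    ring

theorem phi_inj (V : Type) : Function.Injective (phi V) := by
  rintro ⟨a, b⟩ ⟨a', b'⟩ h
  have h0 : ∀ x, a x = a' x := by
    intro x
    have h1 := congrFun h (x, 0)
    change a x + 0 * b x = a' x + 0 * b' x at h1
    simpa using h1
  have h2 : ∀ x, b x = b' x := by
    intro x
    have h1 := congrFun h (x, 1)
    change a x + 1 * b x = a' x + 1 * b' x at h1
    rw [h0 x, one_mul, one_mul] at h1
    exact add_left_cancel h1
  rw [Prod.mk.injEq]
  exact ⟨funext h0, funext h2⟩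

variable {V : Type} [AddCommGroup V] [Module (ZMod 2) V]

private theorem RXProd_one : (1 : V → ZMod 2) ∈ Aff V := by
  refine ⟨0, 1, fun x => ?_⟩
  simp

private theorem RXProd_succ (D : ℕ) : RM V (D + 1) = RM V D * Aff V := by
  unfold RM
  exact pow_succ _ _

private theorem RXProd_RM1 : RM V 1 = Aff V := by
  unfold RM
  exact pow_one _

private theorem RXProd_mul (D : ℕ) {f g : V → ZMod 2} (hf : f ∈ RM V D) (hg : g ∈ Aff V) :
    f * g ∈ RM V (D + 1) := by
  rw [RXProd_succ]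
  exact Submodule.mul_mem_mul hf hg

theorem one_mem_RM (D : ℕ) : (1 : V → ZMod 2) ∈ RM V D := by
  induction D with
  | zero =>
    unfold RM
    rw [pow_zero]
    exact Submodule.mem_one.2 ⟨1, map_one _⟩
  | succ D ih =>
    have h := RXProd_mul D ih RXProd_one
    rwa [mul_one] at h

theorem RM_succ_le (D : ℕ) : RM V D ≤ RM V (D + 1) := by
  intro f hf
  have h := RXProd_mul D hf RXProd_one
  rwa [mul_one] at h

theorem mem_RM_zero (f : V → ZMod 2) : f ∈ RM V 0 ↔ ∃ c, ∀ x, f x = c := by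
  unfold RM
  rw [pow_zero, Submodule.mem_one]
  constructor
  · rintro ⟨c, rfl⟩
    exact ⟨c, fun x => rfl⟩
  · rintro ⟨c, h⟩
    exact ⟨c, funext fun x => (h x).symm⟩

/-- composition with the first projection -/
private def RXProd_fst (V : Type) : (V → ZMod 2) →ₐ[ZMod 2] (V × ZMod 2 → ZMod 2) where
  toFun g := fun x => g x.1
  map_one' := rfl
  map_mul' _ _ := rfl
  map_zero' := rfl
  map_add' _ _ := rfl
  commutes' _ := rfl

private theorem RXProd_fst_aff {l : V → ZMod 2} (hl : l ∈ Aff V) :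
    (fun x : V × ZMod 2 => l x.1) ∈ Aff (V × ZMod 2) := by
  obtain ⟨φ, c, hf⟩ := hl
  exact ⟨φ.comp (LinearMap.fst (ZMod 2) V (ZMod 2)), c, fun x => hf x.1⟩

private theorem RXProd_fst_map (D : ℕ) :
    (RM V D).map (RXProd_fst V).toLinearMap ≤ RM (V × ZMod 2) D := by
  induction D with
  | zero =>
    rintro _ ⟨f, hf, rfl⟩
    obtain ⟨c, hc⟩ := (mem_RM_zero f).1 hf
    exact (mem_RM_zero _).2 ⟨c, fun x => hc x.1⟩
  | succ D ih =>
    rw [RXProd_succ, Submodule.map_mul, Submodule.mul_le]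
    rintro m hm n ⟨l, hl, rfl⟩
    exact RXProd_mul D (ih hm) (RXProd_fst_aff hl)

private theorem RXProd_fst_mem (D : ℕ) {a : V → ZMod 2} (ha : a ∈ RM V D) :
    (fun x : V × ZMod 2 => a x.1) ∈ RM (V × ZMod 2) D :=
  RXProd_fst_map D ⟨a, ha, rfl⟩

private theorem RXProd_snd : (fun x : V × ZMod 2 => x.2) ∈ Aff (V × ZMod 2) :=
  ⟨LinearMap.snd (ZMod 2) V (ZMod 2), 0, fun _ => (add_zero _).symm⟩

/-- every affine function on the product -/
private theorem RXProd_aff {f : V × ZMod 2 → ZMod 2} (hf : f ∈ Aff (V × ZMod 2)) :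
    ∃ (l : V → ZMod 2) (e : ZMod 2), l ∈ Aff V ∧ ∀ x : V × ZMod 2, f x = l x.1 + x.2 * e := by
  obtain ⟨φ, c, hf⟩ := hf
  refine ⟨fun x => φ (x, 0) + c, φ (0, 1), ⟨φ.comp (LinearMap.inl (ZMod 2) V (ZMod 2)), c, fun x => rfl⟩, ?_⟩
  rintro ⟨x, t⟩
  rw [hf]
  have h1 : (x, t) = (x, (0 : ZMod 2)) + t • ((0 : V), (1 : ZMod 2)) := by
    rw [Prod.smul_mk, Prod.mk_add_mk, smul_zero, add_zero, zero_add, smul_eq_mul, mul_one]
  rw [h1, map_add, map_smul, smul_eq_mul, ← h1]
  ring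

private theorem RXProd_const_mul (D : ℕ) (e : ZMod 2) {a : V → ZMod 2} (ha : a ∈ RM V D) :
    (fun x => e * a x) ∈ RM V D := (RM V D).smul_mem e ha

private theorem RXProd_add (D : ℕ) {a b : V → ZMod 2} (ha : a ∈ RM V D) (hb : b ∈ RM V D) :
    (fun x => a x + b x) ∈ RM V D := (RM V D).add_mem ha hb

private theorem RXProd_sq (t : ZMod 2) : t * t = t := by
  revert t
  decide

private theorem RXProd_le (D : ℕ) :
    RM (V × ZMod 2) (D + 1) ≤ ((RM V (D + 1)).prod (RM V D)).map (phi V) := by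
  induction D with
  | zero =>
    intro f hf
    rw [zero_add, RXProd_RM1] at hf
    obtain ⟨l, e, hl, h⟩ := RXProd_aff hf
    refine ⟨(l, fun _ => e), ⟨?_, (mem_RM_zero _).2 ⟨e, fun _ => rfl⟩⟩, ?_⟩
    · rw [zero_add, RXProd_RM1]
      exact hl
    · funext x
      exact (h x).symm
  | succ D ih =>
    rw [RXProd_succ (V := V × ZMod 2) (D + 1), Submodule.mul_le]
    intro m hm n hn
    obtain ⟨⟨a, b⟩, ⟨ha, hb⟩, rfl⟩ := ih hm
    obtain ⟨l, e, hl, h⟩ := RXProd_aff hn
    refine ⟨(fun x => a x * l x, fun x => b x * l x + (e * a x + e * b x)), ⟨?_, ?_⟩, ?_⟩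
    · exact RXProd_mul (D + 1) ha hl
    · exact RXProd_add (D + 1) (RXProd_mul D hb hl)
        (RXProd_add (D + 1) (RXProd_const_mul (D + 1) e ha)
          (RXProd_const_mul (D + 1) e (RM_succ_le D hb)))
    · funext x
      rw [Pi.mul_apply, h x]
      change a x.1 * l x.1 + x.2 * (b x.1 * l x.1 + (e * a x.1 + e * b x.1)) =
        (a x.1 + x.2 * b x.1) * (l x.1 + x.2 * e)
      have h2 := RXProd_sq x.2
      linear_combination (- (b x.1 * e)) * h2

theorem RM_prod (D : ℕ) :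
    RM (V × ZMod 2) (D + 1) = ((RM V (D + 1)).prod (RM V D)).map (phi V) := by
  refine le_antisymm (RXProd_le D) ?_
  rintro _ ⟨⟨a, b⟩, ⟨ha, hb⟩, rfl⟩
  have h1 := RXProd_fst_mem (D + 1) ha
  have h2 := RXProd_mul D (RXProd_fst_mem D hb) RXProd_snd
  have h3 : phi V (a, b) = (fun x : V × ZMod 2 => a x.1) +
      (fun x : V × ZMod 2 => b x.1) * (fun x : V × ZMod 2 => x.2) := by
    funext x
    change a x.1 + x.2 * b x.1 = a x.1 + b x.1 * x.2
    ring
  rw [h3]
  exact (RM (V × ZMod 2) (D + 1)).add_mem h1 h2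

end H96RX
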