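import Mathlib

/-! The numerical corollary: from `1 ≤ N ((1 - 2^(-α))^r + 2^(-dα))` to `N ≥ 2^(c l^2)`, `c < 1/8`. -/

set_option autoImplicit false

namespace H96RX

/-- the choice of `α` and the conclusion `N ≥ 2^(d α - 1)` -/
theorem num_main {N r d α : ℕ} (h : 2 ^ α * (d * α) ≤ r)
    (hN : 1 ≤ (N : ℝ) * ((1 - (1 / 2 : ℝ) ^ α) ^ r + (1 / 2 : ℝ) ^ (d * α))) : 2 ^ (d * α) ≤ 2 * (N : ℝ) := by
  have h0 : (0 : ℝ) ≤ 1 - (1 / 2 : ℝ) ^ α := sub_nonneg.2 (pow_le_one₀ (by norm_num) (by norm_num))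
  have h1 : (1 - (1 / 2 : ℝ) ^ α) ^ (2 ^ α) ≤ 1 / 2 := by
    have hx : (1 - (1 / 2 : ℝ) ^ α) ≤ Real.exp (-((1 / 2 : ℝ) ^ α)) := by
      have := Real.add_one_le_exp (-((1 / 2 : ℝ) ^ α))
      linarith
    have h2 : (1 - (1 / 2 : ℝ) ^ α) ^ (2 ^ α) ≤ Real.exp (-((1 / 2 : ℝ) ^ α)) ^ (2 ^ α) := pow_le_pow_left₀ h0 hx _
    have h3 : Real.exp (-((1 / 2 : ℝ) ^ α)) ^ (2 ^ α) = Real.exp (-1) := by
      rw [← Real.exp_nat_mul]
      congr 1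
      push_cast
      rw [mul_neg, ← mul_pow]
      norm_num
    have h4 : Real.exp (-1) ≤ 1 / 2 := by
      rw [Real.exp_neg, one_div]
      exact inv_anti₀ (by norm_num) (by have := Real.add_one_le_exp 1; linarith)
    linarith
  have h2 : (1 - (1 / 2 : ℝ) ^ α) ^ r ≤ (1 / 2 : ℝ) ^ (d * α) := by
    calc (1 - (1 / 2 : ℝ) ^ α) ^ r ≤ (1 - (1 / 2 : ℝ) ^ α) ^ (2 ^ α * (d * α)) :=
          pow_le_pow_of_le_one h0 (by linarith [pow_pos (show (0:ℝ) < 1 / 2 by norm_num) α]) h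
      _ = ((1 - (1 / 2 : ℝ) ^ α) ^ (2 ^ α)) ^ (d * α) := pow_mul _ _ _
      _ ≤ (1 / 2 : ℝ) ^ (d * α) := pow_le_pow_left₀ (pow_nonneg h0 _) h1 _
  have h3 : 1 ≤ (N : ℝ) * (2 * (1 / 2 : ℝ) ^ (d * α)) := by
    refine hN.trans (mul_le_mul_of_nonneg_left (by linarith) (Nat.cast_nonneg _))
  have h4 : (0 : ℝ) < 2 ^ (d * α) := by positivity
  have h5 : (1 / 2 : ℝ) ^ (d * α) * 2 ^ (d * α) = 1 := by
    rw [← mul_pow]
    norm_num
  nlinarith [mul_le_mul_of_nonneg_right h3 h4.le]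

/-- the parameters -/
theorem params {c : ℝ} (hc0 : 0 ≤ c) (hc : c < 1 / 8) : ∃ ε : ℝ, 0 < ε ∧ ∃ l₀ : ℕ, ∀ l ≥ l₀, ∀ f t : ℕ,
    (f : ℝ) ≤ 2 ^ (ε * l) → (t : ℝ) ≤ 2 ^ (ε * l) →
    ∃ r d α : ℕ, 2 ≤ α ∧ 1 ≤ r ∧ f * (r + t) ^ 2 * 2 ^ d ≤ 2 ^ l ∧ 2 ^ α * (d * α) ≤ r ∧
      c * l ^ 2 + 1 ≤ ((d * α : ℕ) : ℝ) := by
  obtain ⟨ε, hε⟩ : ∃ ε : ℝ, ε = (1 / 8 - c) / 2 := ⟨_, rfl⟩
  have hε0 : 0 < ε := by rw [hε]; linarith
  have hε1 : ε ≤ 1 / 16 := by rw [hε]; linarith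
  have hceq : c = 1 / 8 - 2 * ε := by rw [hε]; ring
  -- `l ^ 2 ≤ 2 ^ (ε l)` eventually
  have hev : ∀ᶠ l : ℕ in Filter.atTop, (l : ℝ) ^ 2 ≤ 2 ^ (ε * l) := by
    have h1 : (1 : ℝ) < 2 ^ ε := Real.one_lt_rpow (by norm_num) hε0
    have h2 := tendsto_pow_const_div_const_pow_of_one_lt 2 h1
    have h3 := h2.eventually (gt_mem_nhds (show (0 : ℝ) < 1 by norm_num))
    filter_upwards [h3] with l hl
    have h4 : (0 : ℝ) < (2 ^ ε) ^ l := by positivity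
    rw [div_lt_one h4] at hl
    rw [Real.rpow_mul (by norm_num), Real.rpow_natCast]
    exact hl.le
  obtain ⟨l1, hl1⟩ := Filter.eventually_atTop.1 hev
  refine ⟨ε, hε0, max l1 (max (Nat.ceil (10 / ε)) 64), fun l hl f t hf ht => ?_⟩
  have hl1' : l1 ≤ l := le_trans (le_max_left _ _) hl
  have hl2 : Nat.ceil (10 / ε) ≤ l := le_trans (le_trans (le_max_left _ _) (le_max_right _ _)) hl
  have hl3 : 64 ≤ l := le_trans (le_trans (le_max_right _ _) (le_max_right _ _)) hl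
  have hsq := hl1 l hl1'
  have hlε : 10 ≤ ε * l := by
    have h1 : 10 / ε ≤ l := le_trans (Nat.le_ceil _) (by exact_mod_cast hl2)
    rw [div_le_iff₀ hε0] at h1
    linarith
  have hlR : (64 : ℝ) ≤ l := by exact_mod_cast hl3
  obtain ⟨e, he⟩ : ∃ e : ℕ, e = Nat.ceil (ε * l) := ⟨_, rfl⟩
  obtain ⟨u, hu⟩ : ∃ u : ℕ, u = l / 4 := ⟨_, rfl⟩
  have he1 : ε * l ≤ e := by rw [he]; exact Nat.le_ceil _
  have he2 : (e : ℝ) < ε * l + 1 := by rw [he]; exact Nat.ceil_lt_add_one (by positivity)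
  have hu1 : 4 * u ≤ l := by omega
  have hu2 : l ≤ 4 * u + 3 := by omega
  have hu1R : 4 * (u : ℝ) ≤ l := by exact_mod_cast hu1
  have hu2R : (l : ℝ) ≤ 4 * u + 3 := by exact_mod_cast hu2
  have hpow : (2 : ℝ) ^ (ε * l) ≤ 2 ^ e := by
    rw [← Real.rpow_natCast 2 e]
    exact Real.rpow_le_rpow_of_exponent_le (by norm_num) he1
  have hf' : f ≤ 2 ^ e := by exact_mod_cast hf.trans hpow
  have ht' : t ≤ 2 ^ e := by exact_mod_cast ht.trans hpow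
  have hl' : l ^ 2 ≤ 2 ^ e := by exact_mod_cast hsq.trans hpow
  -- `e + 4 ≤ u`
  have heu : e + 4 ≤ u := by
    have h1 : (e : ℝ) + 4 < u + 1 := by
      have : ε * l ≤ 1 / 16 * l := mul_le_mul_of_nonneg_right hε1 (Nat.cast_nonneg _)
      nlinarith
    have h2 : e + 4 < u + 1 := by exact_mod_cast h1
    omega
  have h2e : 2 ^ (e + 1) ≤ 2 ^ u := Nat.pow_le_pow_right (by norm_num) (by omega)
  have hpe : 2 ^ (e + 1) = 2 * 2 ^ e := by rw [pow_succ]; ring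
  have hpu : 2 ^ u = 2 * 2 ^ (u - 1) := by
    rw [← pow_succ']
    congr 1
    omega
  refine ⟨2 ^ u - t, l - 2 * u - e, u - 1 - e, by omega, ?_, ?_, ?_, ?_⟩
  · have : 1 ≤ 2 ^ e := Nat.one_le_two_pow
    omega
  · have h1 : 2 ^ u - t + t = 2 ^ u := Nat.sub_add_cancel (by omega)
    rw [h1]
    calc f * (2 ^ u) ^ 2 * 2 ^ (l - 2 * u - e) ≤ 2 ^ e * (2 ^ u) ^ 2 * 2 ^ (l - 2 * u - e) := by gcongr
      _ = 2 ^ (e + u * 2 + (l - 2 * u - e)) := by rw [pow_add, pow_add, pow_mul]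
      _ = 2 ^ l := by congr 1; omega
  · have h1 : (l - 2 * u - e) * (u - 1 - e) ≤ l ^ 2 := by
      rw [pow_two]
      exact Nat.mul_le_mul (by omega) (by omega)
    have h2 : 2 ^ (u - 1 - e) * ((l - 2 * u - e) * (u - 1 - e)) ≤ 2 ^ (u - 1) := by
      calc 2 ^ (u - 1 - e) * ((l - 2 * u - e) * (u - 1 - e)) ≤ 2 ^ (u - 1 - e) * 2 ^ e :=
            Nat.mul_le_mul_left _ (h1.trans hl')
        _ = 2 ^ (u - 1) := by rw [← pow_add]; congr 1; omega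
    omega
  · have h1 : ((l - 2 * u - e : ℕ) : ℝ) = l - 2 * u - e := by
      rw [Nat.cast_sub (by omega), Nat.cast_sub (by omega)]
      push_cast
      ring
    have h2 : ((u - 1 - e : ℕ) : ℝ) = u - 1 - e := by
      rw [Nat.cast_sub (by omega), Nat.cast_sub (by omega)]
      push_cast
      ring
    push_cast
    rw [h1, h2]
    have h3 : (l : ℝ) / 2 - ε * l - 1 ≤ l - 2 * u - e := by linarith
    have h4 : (l : ℝ) / 4 - ε * l - 3 ≤ u - 1 - e := by linarith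
    have h5 : (0 : ℝ) ≤ (l : ℝ) / 4 - ε * l - 3 := by
      have : ε * l ≤ 1 / 16 * l := mul_le_mul_of_nonneg_right hε1 (Nat.cast_nonneg _)
      linarith
    have h6 : (0 : ℝ) ≤ (l : ℝ) / 2 - ε * l - 1 := by linarith
    have h7 : ((l : ℝ) / 2 - ε * l - 1) * ((l : ℝ) / 4 - ε * l - 3) ≤ (l - 2 * u - e) * (u - 1 - e) :=
      mul_le_mul h3 h4 h5 (h6.trans h3)
    refine le_trans ?_ h7
    rw [hceq]
    have h8 : (0 : ℝ) ≤ ε * l - 10 := by linarith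
    nlinarith [mul_nonneg h8 (show (0 : ℝ) ≤ l by positivity), sq_nonneg (ε * l)]

end H96RX
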