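import Pool.Agent.H96.RX.Stmt

/-!
ROW Dich (false sets of lines; about 110 lines).  `toB x i = decide (x i = 1)`.  PROOF.
`par_toB`: `par S (toB x) = decide (∑ i ∈ S, x i = 1)`: in `ZMod 2`, `x i = if x i = 1 then 1 else 0`, so `∑ i ∈ S, x i = ((S.filter (x · = 1)).card : ZMod 2)`
(`Finset.sum_boole`), and `(c : ZMod 2) = 1 ↔ Odd c` (`ZMod.natCast_eq_one_iff_odd` / `ZMod.natCast_self_eq_zero`…).
`par_add`: hence if `∑ i ∈ S, w i = 0` then `par S (toB (x + w)) = par S (toB x)`.
`dichotomy`: `W1 = {w | ∀ e ∈ L.eqs, ∑ i ∈ e.1, w i = 0}`.  If no `x` has `¬ L.Holds (toB x)`: second alternative with `W = ⊤` (finrank = card κ, `m ≥ 1`).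
Otherwise fix such an `x0`.  For a false `x` and `e ∈ L.eqs`: `par e.1 (toB x) ≠ e.2` and the same for `x0`, so the two parities are equal Booleans and
`∑_(e.1) x = ∑_(e.1) x0` (elements of `ZMod 2` are 0 or 1), i.e. `x - x0 ∈ W1`.  If `finrank W1 + m ≤ card κ`: first alternative.
Otherwise `card κ < finrank W1 + m`; `W = W1 ⊓ ker P`, `P : (κ → F) →ₗ (Fin s → F)`, `P w j = ∑ i ∈ T j, w i`.  `finrank W + s ≥ finrank W1`:
rank-nullity for `P.domRestrict W1` (`LinearMap.finrank_range_add_finrank_ker`, range of finrank `≤ s`).  If `x` is false and `w ∈ W`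
then all parities of `e ∈ eqs` and of the `T j` are the same at `x + w` (`par_add`), so `x + w` is false.
`toB_surj`: every `v : κ → Bool` is `toB (fun i => if v i then 1 else 0)`.
-/

set_option autoImplicit false
open scoped Classical

namespace H96RX

open ParityResolution

/-- the 0/1 point of a vector over `ZMod 2` -/
noncomputable def toB {κ : Type} (x : κ → ZMod 2) : κ → Bool := fun i => decide (x i = 1)

theorem toB_surj {κ : Type} (v : κ → Bool) : ∃ x : κ → ZMod 2, toB x = v := by
  refine ⟨fun i => if v i then 1 else 0, ?_⟩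
  funext i
  unfold toB
  by_cases h : v i = true
  · simp [h]
  · simp [h]

theorem RXDich_zmod (a : ZMod 2) : a = 0 ∨ a = 1 := by
  revert a
  decide

theorem par_toB {κ : Type} (S : Finset κ) (x : κ → ZMod 2) : par S (toB x) = decide (∑ i ∈ S, x i = 1) := by
  unfold par
  have h1 : S.filter (fun i => toB x i = true) = S.filter (fun i => x i = 1) := by
    apply Finset.filter_congr
    intro i _
    simp [toB]
  have h2 : ∀ i ∈ S, x i = if x i = 1 then (1 : ZMod 2) else 0 := by
    intro i _
    by_cases h : x i = 1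
    · simp [h]
    · have h3 := RXDich_zmod (x i)
      rw [if_neg h]
      rcases h3 with h3 | h3
      · exact h3
      · exact absurd h3 h
  have h3 : ∑ i ∈ S, x i = ((S.filter (fun i => x i = 1)).card : ZMod 2) := by
    rw [Finset.sum_congr rfl h2, Finset.sum_boole]
  rw [h1, h3]
  apply decide_eq_decide.2
  exact ZMod.natCast_eq_one_iff_odd.symm

theorem RXDich_par_add {κ : Type} (S : Finset κ) (x w : κ → ZMod 2) (h : ∑ i ∈ S, w i = 0) :
    par S (toB (x + w)) = par S (toB x) := by
  rw [par_toB, par_toB]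
  have : ∑ i ∈ S, (x + w) i = ∑ i ∈ S, x i := by
    simp only [Pi.add_apply, Finset.sum_add_distrib]
    rw [h, add_zero]
  rw [this]

/-- the common kernel of the linear forms -/
def RXDichW1 {κ : Type} (E : Set (Finset κ × Bool)) : Submodule (ZMod 2) (κ → ZMod 2) where
  carrier := {w | ∀ e ∈ E, ∑ i ∈ e.1, w i = 0}
  add_mem' := by
    intro a b ha hb e he
    simp only [Pi.add_apply, Finset.sum_add_distrib]
    rw [ha e he, hb e he, add_zero]
  zero_mem' := by
    intro e _
    simp
  smul_mem' := by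
    intro c a ha e he
    simp only [Pi.smul_apply, smul_eq_mul, ← Finset.mul_sum]
    rw [ha e he, mul_zero]

/-- the map of the parities -/
def RXDichP {κ : Type} {s : ℕ} (T : Fin s → Finset κ) : (κ → ZMod 2) →ₗ[ZMod 2] (Fin s → ZMod 2) :=
  LinearMap.pi fun j => ∑ i ∈ T j, LinearMap.proj i

theorem RXDichP_apply {κ : Type} {s : ℕ} (T : Fin s → Finset κ) (w : κ → ZMod 2) (j : Fin s) :
    RXDichP T w j = ∑ i ∈ T j, w i := by
  simp [RXDichP]

theorem RXDich_rank {κ : Type} [Fintype κ] {s : ℕ} (W1 : Submodule (ZMod 2) (κ → ZMod 2))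
    (P : (κ → ZMod 2) →ₗ[ZMod 2] (Fin s → ZMod 2)) :
    Module.finrank (ZMod 2) W1 ≤
      Module.finrank (ZMod 2) (W1 ⊓ LinearMap.ker P : Submodule (ZMod 2) (κ → ZMod 2)) + s := by
  have h1 := LinearMap.finrank_range_add_finrank_ker (P.domRestrict W1)
  have h2 : Module.finrank (ZMod 2) (LinearMap.range (P.domRestrict W1)) ≤ s := by
    have h3 := Submodule.finrank_le (LinearMap.range (P.domRestrict W1))
    rw [Module.finrank_fintype_fun_eq_card, Fintype.card_fin] at h3
    exact h3
  have h4 : Submodule.comap W1.subtype (W1 ⊓ LinearMap.ker P) = LinearMap.ker (P.domRestrict W1) := by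
    ext x
    simp [LinearMap.domRestrict_apply]
  have h5 := (Submodule.comapSubtypeEquivOfLe
    (inf_le_left : W1 ⊓ LinearMap.ker P ≤ W1)).finrank_eq
  rw [h4] at h5
  omega

theorem dichotomy {κ : Type} [Fintype κ] {s m : ℕ} (hm : 1 ≤ m) (L : Line κ s) :
    (∃ (W : Submodule (ZMod 2) (κ → ZMod 2)) (x0 : κ → ZMod 2),
      (∀ x, ¬ L.Holds (toB x) → x - x0 ∈ W) ∧ Module.finrank (ZMod 2) W + m ≤ Fintype.card κ) ∨
    (∃ W : Submodule (ZMod 2) (κ → ZMod 2),
      (∀ x, ¬ L.Holds (toB x) → ∀ w ∈ W, ¬ L.Holds (toB (x + w))) ∧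
        Fintype.card κ < Module.finrank (ZMod 2) W + (m + s)) := by
  have e1 : ∀ (S : Finset κ) (x w : κ → ZMod 2), ∑ i ∈ S, w i = 0 →
      par S (toB (x + w)) = par S (toB x) := RXDich_par_add
  by_cases hall : ∃ x0, ¬ L.Holds (toB x0)
  · obtain ⟨x0, hx0⟩ := hall
    have hdiff : ∀ x, ¬ L.Holds (toB x) → x - x0 ∈ RXDichW1 L.eqs := by
      intro x hx e he
      have h1 : par e.1 (toB x) ≠ e.2 := fun h => hx (Or.inl ⟨e, he, h⟩)
      have h2 : par e.1 (toB x0) ≠ e.2 := fun h => hx0 (Or.inl ⟨e, he, h⟩)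
      have h3 : par e.1 (toB x) = par e.1 (toB x0) := by
        cases h4 : par e.1 (toB x) <;> cases h5 : par e.1 (toB x0) <;> cases h6 : e.2 <;>
          simp_all
      rw [par_toB, par_toB] at h3
      have h4 := decide_eq_decide.1 h3
      have h5 : ∑ i ∈ e.1, x i = ∑ i ∈ e.1, x0 i := by
        rcases RXDich_zmod (∑ i ∈ e.1, x i) with h | h <;>
          rcases RXDich_zmod (∑ i ∈ e.1, x0 i) with h' | h'
        · rw [h, h']
        · have := h4.2 h'
          rw [this] at h
          exact absurd h (by decide)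
        · have := h4.1 h
          rw [this] at h'
          exact absurd h' (by decide)
        · rw [h, h']
      simp only [Pi.sub_apply, Finset.sum_sub_distrib]
      rw [h5, sub_self]
    by_cases hr : Module.finrank (ZMod 2) (RXDichW1 L.eqs) + m ≤ Fintype.card κ
    · exact Or.inl ⟨RXDichW1 L.eqs, x0, hdiff, hr⟩
    · right
      refine ⟨RXDichW1 L.eqs ⊓ LinearMap.ker (RXDichP L.T), ?_, ?_⟩
      · intro x hx w hw hh
        have hw1 := (Submodule.mem_inf.1 hw).1
        have hw2 := (Submodule.mem_inf.1 hw).2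
        have hw3 : ∀ j, ∑ i ∈ L.T j, w i = 0 := by
          intro j
          have := congrFun (LinearMap.mem_ker.1 hw2) j
          rw [RXDichP_apply] at this
          exact this
        apply hx
        rcases hh with ⟨e, he, h⟩ | h
        · left
          refine ⟨e, he, ?_⟩
          rw [← e1 e.1 x w (hw1 e he)]
          exact h
        · right
          have h2 : (fun j => par (L.T j) (toB (x + w))) = fun j => par (L.T j) (toB x) := by
            funext j
            exact e1 (L.T j) x w (hw3 j)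
          rw [← h2]
          exact h
      · have h1 := RXDich_rank (RXDichW1 L.eqs) (RXDichP L.T)
        omega
  · right
    refine ⟨⊤, ?_, ?_⟩
    · intro x hx
      exact absurd ⟨x, hx⟩ hall
    · rw [finrank_top, Module.finrank_fintype_fun_eq_card]
      omega

end H96RX
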