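import Pool.Agent.H96.RX.Stmt

/-!
Every unsatisfiable set of clauses has a refutation by a full decision tree whose lines are clauses; the binary
pigeonhole principle is unsatisfiable (helper62).
-/

set_option autoImplicit false
open scoped Classical

namespace ParityResolution

theorem bphp_unsat {m l : ℕ} (h : 2 ^ l < m) (v : Fin m × Fin l → Bool) : ∃ C ∈ BPHP m l, ¬ C.Holds v := by
  obtain ⟨i, j, hij, hx⟩ := Fintype.exists_ne_map_eq_of_card_lt (fun (i : Fin m) (t : Fin l) => v (i, t)) (by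
    rw [Fintype.card_fun, Fintype.card_bool, Fintype.card_fin, Fintype.card_fin]
    exact h)
  refine ⟨_, ⟨i, j, fun t => v (j, t), hij, rfl⟩, ?_⟩
  rintro ⟨⟨⟨p, t⟩, b⟩, ⟨hp, hb⟩, hv⟩
  simp only at hp hb hv
  rcases hp with rfl | rfl
  · have h1 := congrFun hx t
    change v (p, t) = v (j, t) at h1
    rw [h1, hb] at hv
    simp at hv
  · rw [hb] at hv
    simp at hv

theorem par_singleton {X : Type} (x : X) (v : X → Bool) : par {x} v = v x := by
  unfold par
  cases hx : v x
  · have : ({x} : Finset X).filter (fun y => v y = true) = ∅ := by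
      rw [Finset.filter_singleton, if_neg (by rw [hx]; decide)]
    rw [this]
    simp
  · have : ({x} : Finset X).filter (fun y => v y = true) = {x} := by
      rw [Finset.filter_singleton, if_pos hx]
    rw [this]
    simp

/-- the nodes of the decision tree -/
abbrev EasyNode (n : ℕ) := Σ k : Fin (n + 1), (Fin (k : ℕ) → Bool)

/-- the clause of a node -/
def easyLine {X : Type} {n : ℕ} (e : Fin n ≃ X) (s : EasyNode n) : Line X 0 where
  eqs := {p | ∃ j : Fin (s.1 : ℕ), p = ({e (Fin.castLE (Nat.lt_succ_iff.1 s.1.2) j)}, !(s.2 j))}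
  T := Fin.elim0
  g := ∅

theorem easyLine_false {X : Type} {n : ℕ} (e : Fin n ≃ X) (s : EasyNode n) (v : X → Bool) :
    ¬ (easyLine e s).Holds v ↔ ∀ j : Fin (s.1 : ℕ), v (e (Fin.castLE (Nat.lt_succ_iff.1 s.1.2) j)) = s.2 j := by
  unfold Line.Holds easyLine
  constructor
  · intro h j
    by_contra hc
    refine h (Or.inl ⟨_, ⟨j, rfl⟩, ?_⟩)
    rw [par_singleton]
    revert hc
    cases v (e (Fin.castLE (Nat.lt_succ_iff.1 s.1.2) j)) <;> cases s.2 j <;> simp
  · rintro h (⟨p, ⟨j, rfl⟩, h1⟩ | h1)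
    · rw [par_singleton, h j] at h1
      revert h1
      cases s.2 j <;> simp
    · exact h1

theorem complete {X : Type} [Fintype X] (𝒞 : Set (Clause X)) (h : ∀ v, ∃ C ∈ 𝒞, ¬ C.Holds v) :
    ∃ N : ℕ, N ≤ 2 ^ (Fintype.card X + 1) ∧ Refutes 0 2 𝒞 N := by
  obtain ⟨n, hn⟩ : ∃ n, n = Fintype.card X := ⟨_, rfl⟩
  rw [← hn]
  have v0 : Fin n ≃ X := by
    rw [hn]
    exact (Fintype.equivFin X).symm
  have hcard : Fintype.card (EasyNode n) = 2 ^ (n + 1) - 1 := by
    rw [Fintype.card_sigma]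
    simp only [Fintype.card_fun, Fintype.card_bool, Fintype.card_fin]
    rw [Fin.sum_univ_eq_sum_range (fun k => 2 ^ k), Nat.geomSum_eq (le_refl 2)]
    simp
  have hpos : 0 < Fintype.card (EasyNode n) := Fintype.card_pos_iff.2 ⟨⟨⟨0, Nat.succ_pos _⟩, Fin.elim0⟩⟩
  refine ⟨Fintype.card (EasyNode n), by rw [hcard]; exact Nat.sub_le _ _, ?_⟩
  let e0 : Fin (Fintype.card (EasyNode n)) ≃ EasyNode n := (Fintype.equivFin (EasyNode n)).symm
  let ρ : Fin (Fintype.card (EasyNode n)) → ℕ := fun i => n - (e0 i).1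
  let e : Fin (Fintype.card (EasyNode n)) ≃ EasyNode n := (Tuple.sort ρ).trans e0
  have hmono : Monotone (fun i => n - ((e i).1 : ℕ)) := Tuple.monotone_sort ρ
  have hlt : ∀ (s : EasyNode n) (i), (e i).1 < s.1 → e.symm s < i := by
    intro s i hs
    by_contra hc
    have h1 := hmono (not_lt.1 hc)
    simp only [Equiv.apply_symm_apply] at h1
    have h2 := s.1.2
    have h3 : ((e i).1 : ℕ) < s.1 := hs
    omega
  let l : ℕ → Line X 0 := fun i => if hi : i < Fintype.card (EasyNode n) then easyLine v0 (e ⟨i, hi⟩) else ⟨∅, Fin.elim0, ∅⟩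
  have hl : ∀ i (hi : i < Fintype.card (EasyNode n)), l i = easyLine v0 (e ⟨i, hi⟩) := fun i hi => dif_pos hi
  refine ⟨l, hpos, ?_, ?_⟩
  · intro v
    rw [hl _ (Nat.sub_lt hpos Nat.one_pos), easyLine_false]
    have h1 : (e ⟨Fintype.card (EasyNode n) - 1, Nat.sub_lt hpos Nat.one_pos⟩).1.1 = 0 := by
      have h2 := hmono (show e.symm ⟨⟨0, Nat.succ_pos _⟩, Fin.elim0⟩ ≤
        ⟨Fintype.card (EasyNode n) - 1, Nat.sub_lt hpos Nat.one_pos⟩ from Nat.le_sub_one_of_lt (Fin.is_lt _))
      simp only [Equiv.apply_symm_apply] at h2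
      have h3 := (e ⟨Fintype.card (EasyNode n) - 1, Nat.sub_lt hpos Nat.one_pos⟩).1.2
      omega
    intro j
    have h2 := j.2
    omega
  · intro i hi
    rw [hl i hi]
    obtain ⟨s, hs⟩ : ∃ s, s = e ⟨i, hi⟩ := ⟨_, rfl⟩
    rw [← hs]
    rcases Nat.lt_or_ge (s.1 : ℕ) n with hk | hk
    · right
      let c : Bool → EasyNode n := fun z => ⟨⟨s.1 + 1, by omega⟩, Fin.snoc s.2 z⟩
      refine ⟨{((e.symm (c true) : Fin _) : ℕ), ((e.symm (c false) : Fin _) : ℕ)}, Finset.card_le_two, ?_, ?_⟩
      · intro j hj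
        have : ∃ z, j = ((e.symm (c z) : Fin _) : ℕ) := by
          rw [Finset.mem_insert, Finset.mem_singleton] at hj
          rcases hj with hj | hj
          · exact ⟨_, hj⟩
          · exact ⟨_, hj⟩
        obtain ⟨z, rfl⟩ := this
        have h1 : e.symm (c z) < ⟨i, hi⟩ := by
          apply hlt
          rw [← hs, Fin.lt_def]
          exact Nat.lt_succ_self _
        exact h1
      · intro v hv
        by_contra hc
        rw [easyLine_false] at hc
        obtain ⟨z, hz⟩ : ∃ z, z = v (v0 (Fin.castLE (by omega : (s.1 : ℕ) + 1 ≤ n) (Fin.last _))) := ⟨_, rfl⟩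
        have h1 := hv ((e.symm (c z) : Fin _) : ℕ) (by cases z <;> simp)
        rw [hl _ (Fin.is_lt _)] at h1
        have h2 : e ⟨((e.symm (c z) : Fin _) : ℕ), Fin.is_lt _⟩ = c z := Equiv.apply_symm_apply e (c z)
        rw [h2] at h1
        refine absurd h1 ((easyLine_false v0 (c z) v).2 ?_)
        intro j
        refine Fin.lastCases ?_ (fun j => ?_) j
        · change _ = (Fin.snoc s.2 z : Fin ((s.1 : ℕ) + 1) → Bool) (Fin.last _)
          rw [Fin.snoc_last, hz]
        · change _ = (Fin.snoc s.2 z : Fin ((s.1 : ℕ) + 1) → Bool) (Fin.castSucc j)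
          rw [Fin.snoc_castSucc]
          exact hc j
    · left
      have hk' : (s.1 : ℕ) = n := le_antisymm (Nat.lt_succ_iff.1 s.1.2) hk
      let a : X → Bool := fun x => s.2 (Fin.cast hk'.symm (v0.symm x))
      obtain ⟨C, hC, hCa⟩ := h a
      refine ⟨C, hC, fun v hv => ?_⟩
      by_contra hc
      rw [easyLine_false] at hc
      have : v = a := by
        funext x
        have h1 := hc (Fin.cast hk'.symm (v0.symm x))
        have h2 : v0 (Fin.castLE (Nat.lt_succ_iff.1 s.1.2) (Fin.cast hk'.symm (v0.symm x))) = x := by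
          have : Fin.castLE (Nat.lt_succ_iff.1 s.1.2) (Fin.cast hk'.symm (v0.symm x)) = v0.symm x := by
            ext
            rfl
          rw [this, Equiv.apply_symm_apply]
        rw [h2] at h1
        exact h1
      rw [this] at hv
      exact hCa hv

end ParityResolution
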