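import Pool.Agent.H96.RX.Stmt

/-!
Definitions used in the hand-in statement (helper96): refutations of families of constraints; the binary pigeonhole
principle.
-/

set_option autoImplicit false
open scoped Classical

namespace ParityResolution

/-- The family `𝒜` of constraints (sets of 0/1 points) has a refutation with `N` lines: every line is implied by one
constraint or by at most `f` earlier lines (any sound inference), and the last line is false everywhere. -/
def RefutesAll {X : Type} (s f : ℕ) (𝒜 : Set (Set (X → Bool))) (N : ℕ) : Prop :=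
  ∃ l : ℕ → Line X s, 1 ≤ N ∧ (∀ v, ¬ (l (N - 1)).Holds v) ∧
    ∀ i < N, (∃ C ∈ 𝒜, ∀ v ∈ C, (l i).Holds v) ∨
      ∃ J : Finset ℕ, J.card ≤ f ∧ (∀ j ∈ J, j < i) ∧ ∀ v, (∀ j ∈ J, (l j).Holds v) → (l i).Holds v

/-- `v (i, t)` is bit `t` of the hole of pigeon `i`. The constraints: pigeons `i ≠ j` are in different holes. -/
def Different (m l : ℕ) : Set (Set (Fin m × Fin l → Bool)) :=
  {C | ∃ i j : Fin m, i ≠ j ∧ C = {v | ∃ t, v (i, t) ≠ v (j, t)}}

/-- The clauses of the binary pigeonhole principle: pigeons `i ≠ j` are not both in the hole `h`. -/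
def Clauses (m l : ℕ) : Set (Set (Fin m × Fin l → Bool)) :=
  {C | ∃ (i j : Fin m) (h : Fin l → Bool), i ≠ j ∧ C = {v | ∃ t, v (i, t) ≠ h t ∨ v (j, t) ≠ h t}}

end ParityResolution
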