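import Pool.Agent.H96.RX.Omega

/-!
ROW OmUniv (about 60 lines).  PROOF.
`Om_univ`: `Om V q univ = (1 + q)^(finrank V)`.  First for `V = Fin e → ZMod 2` by induction on `e`: `e = 0`: `univ = {0}`, `Om_singleton`.
`e + 1`: `(Fin e → F) × F ≃ₗ (Fin (e+1) → F)` (`Fin.consEquiv`-like / build it by `Fin.cons`/`Fin.tail`; any linear equivalence from equal
finrank will do: `LinearEquiv.ofFinrankEq`); `Om_image` with `b = 0`, `S = univ`; `≤`: `Om_prod` with `T = univ`, `≥`: `Om_section` with
`E = univ` (`univ ∪ univ = univ ∩ univ = univ`).  General `V`: `LinearEquiv.ofFinrankEq (Fin (finrank V) → F) V`, `Om_image`.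
-/

set_option autoImplicit false
open scoped Classical

namespace H96RX

variable {V : Type} [AddCommGroup V] [Module (ZMod 2) V] [Finite V] {q : ℝ}

private theorem OmUniv_equiv {A B : Type} [AddCommGroup A] [Module (ZMod 2) A] [Finite A]
    [AddCommGroup B] [Module (ZMod 2) B] [Finite B] (L : A ≃ₗ[ZMod 2] B) :
    Om B q (Set.univ : Set B) = Om A q (Set.univ : Set A) := by
  have h := Om_image (q := q) L.toLinearMap L.injective 0 (Set.univ : Set A)
  have h2 : (fun x => L.toLinearMap x + 0) '' (Set.univ : Set A) = (Set.univ : Set B) := by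
    ext y
    constructor
    · intro _
      exact Set.mem_univ y
    · intro _
      refine ⟨L.symm y, Set.mem_univ _, ?_⟩
      show L (L.symm y) + 0 = y
      rw [add_zero, L.apply_symm_apply]
  rw [h2] at h
  exact h

private theorem OmUniv_prod {A : Type} [AddCommGroup A] [Module (ZMod 2) A] [Finite A]
    (h0 : 0 ≤ q) (h1 : q < 1) :
    Om (A × ZMod 2) q (Set.univ : Set (A × ZMod 2)) = (1 + q) * Om A q (Set.univ : Set A) := by
  apply le_antisymm
  · have h := Om_prod (V := A) h0 h1 (Set.univ : Set A)
    have h2 : ({p : A × ZMod 2 | p.1 ∈ (Set.univ : Set A)}) = Set.univ := by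
      ext p
      constructor
      · intro _
        exact Set.mem_univ p
      · intro _
        exact Set.mem_univ p.1
    rw [h2] at h
    exact h
  · have h := Om_section (V := A) h0 h1 (Set.univ : Set (A × ZMod 2))
    have h2 : ({x : A | (x, (0 : ZMod 2)) ∈ (Set.univ : Set (A × ZMod 2))}) = Set.univ := by
      ext x
      exact ⟨fun _ => Set.mem_univ _, fun _ => Set.mem_univ _⟩
    have h3 : ({x : A | (x, (1 : ZMod 2)) ∈ (Set.univ : Set (A × ZMod 2))}) = Set.univ := by
      ext x
      exact ⟨fun _ => Set.mem_univ _, fun _ => Set.mem_univ _⟩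
    rw [h2, h3, Set.union_self, Set.inter_self] at h
    calc (1 + q) * Om A q (Set.univ : Set A) = Om A q (Set.univ : Set A) +
          q * Om A q (Set.univ : Set A) := by ring
      _ ≤ _ := h

private theorem OmUniv_fin (h0 : 0 ≤ q) (h1 : q < 1) (e : ℕ) :
    Om (Fin e → ZMod 2) q (Set.univ : Set (Fin e → ZMod 2)) = (1 + q) ^ e := by
  induction e with
  | zero =>
    have h : (Set.univ : Set (Fin 0 → ZMod 2)) = {0} := by
      ext x
      constructor
      · intro _
        exact Subsingleton.elim _ _
      · intro _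
        exact Set.mem_univ x
    rw [h, Om_singleton h0 h1, pow_zero]
  | succ e ih =>
    have hf : Module.finrank (ZMod 2) ((Fin e → ZMod 2) × ZMod 2) =
        Module.finrank (ZMod 2) (Fin (e + 1) → ZMod 2) := by
      rw [Module.finrank_prod, Module.finrank_fin_fun, Module.finrank_self, Module.finrank_fin_fun]
    rw [OmUniv_equiv (q := q) (LinearEquiv.ofFinrankEq ((Fin e → ZMod 2) × ZMod 2)
      (Fin (e + 1) → ZMod 2) hf), OmUniv_prod h0 h1, ih, pow_succ]
    ring

theorem Om_univ (h0 : 0 ≤ q) (h1 : q < 1) : Om V q (Set.univ : Set V) = (1 + q) ^ (Module.finrank (ZMod 2) V) := by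
  have : Module.Finite (ZMod 2) V := Module.Finite.of_finite
  have hf : Module.finrank (ZMod 2) (Fin (Module.finrank (ZMod 2) V) → ZMod 2) =
      Module.finrank (ZMod 2) V := by
    rw [Module.finrank_fin_fun]
  rw [OmUniv_equiv (q := q) (LinearEquiv.ofFinrankEq (Fin (Module.finrank (ZMod 2) V) → ZMod 2)
    V hf), OmUniv_fin h0 h1]

end H96RX
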