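import Pool.Agent.H96.RX.LinA

/-!
ROW Clos (closure of a subspace; about 90 lines).  Notation `S(J) = J.biUnion S`.  PROOF.  Call `J` admissible if `J.card ≤ B` and
`finrank W ≤ finrank (W ⊓ Z S(J)) + c0 * J.card`.  `J = ∅` is admissible (`Z ∅ = ⊤`).  Take an admissible `J` of maximal cardinality
(`Finset.exists_max_image` over the filter of `univ : Finset (Finset ι)`).
(a) `finrank (W ⊓ Z S(J)) ≤ finrank (Z S(J)) = n - S(J).card` (`Submodule.finrank_mono`, `finrank_Z`) and `S(J).card ≥ (c0+γ) J.card` (`hexp`), so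
`finrank W + γ * J.card ≤ n`.  With `hW` : `γ * J.card < γ * B`, so `J.card < B`.
(b) `j ∉ J`: `insert j J` has `≤ B` elements and is not admissible by maximality: `finrank W > finrank (W ⊓ Z S(insert j J)) + c0 (J.card + 1)`;
`W ⊓ Z S(insert j J) = W ⊓ Z S(J) ⊓ Z (S j)` (`Finset.biUnion_insert`, `Z (s ∪ t) = Z s ⊓ Z t`).  Together with admissibility of `J`:
`finrank (W ⊓ Z S(J)) + c0 J.card ≥ finrank W ≥ finrank (W ⊓ Z S(J) ⊓ Z (S j)) + c0 J.card + c0 + 1`.
-/

set_option autoImplicit false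
open scoped Classical

namespace H96RX

theorem clos_exists {n : ℕ} {ι : Type} [Fintype ι] (S : ι → Finset (Fin n)) {c0 γ B : ℕ}
    (hexp : ∀ J : Finset ι, J.card ≤ B → (c0 + γ) * J.card ≤ (J.biUnion S).card)
    (W : Submodule (ZMod 2) (Fin n → ZMod 2)) (hW : n < Module.finrank (ZMod 2) W + γ * B) :
    ∃ J : Finset ι, J.card < B ∧ Module.finrank (ZMod 2) W + γ * J.card ≤ n ∧
      ∀ j ∉ J, Module.finrank (ZMod 2) ↥(W ⊓ Z (J.biUnion S) ⊓ Z (S j)) + (c0 + 1) ≤
        Module.finrank (ZMod 2) ↥(W ⊓ Z (J.biUnion S)) := by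
  obtain ⟨adm, hadm⟩ : ∃ adm : Finset (Finset ι), adm = Finset.univ.filter fun J : Finset ι => J.card ≤ B ∧
      Module.finrank (ZMod 2) W ≤ Module.finrank (ZMod 2) ↥(W ⊓ Z (J.biUnion S)) + c0 * J.card := ⟨_, rfl⟩
  have hne : adm.Nonempty := by
    refine ⟨∅, ?_⟩
    rw [hadm, Finset.mem_filter]
    refine ⟨Finset.mem_univ _, by simp, ?_⟩
    have hZ : Z ((∅ : Finset ι).biUnion S) = ⊤ := by
      rw [Finset.biUnion_empty]
      exact eq_top_iff.mpr (fun x _ i hi => absurd hi (Finset.notMem_empty i))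
    rw [hZ, inf_top_eq]
    exact Nat.le_add_right _ _
  obtain ⟨J, hJ, hmax⟩ := Finset.exists_max_image adm Finset.card hne
  have hJ' := hJ
  rw [hadm, Finset.mem_filter] at hJ'
  obtain ⟨-, hJB, hJr⟩ := hJ'
  have h1 : Module.finrank (ZMod 2) ↥(W ⊓ Z (J.biUnion S)) ≤ Module.finrank (ZMod 2) (Z (J.biUnion S)) :=
    Submodule.finrank_mono inf_le_right
  have h2 := finrank_Z (J.biUnion S)
  have h3 := hexp J hJB
  have h4 : (c0 + γ) * J.card = c0 * J.card + γ * J.card := by ring
  have h5 : Module.finrank (ZMod 2) W + γ * J.card ≤ n := by omega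
  have h6 : J.card < B := by
    have h7 : γ * J.card < γ * B := by omega
    exact lt_of_mul_lt_mul_left h7 (Nat.zero_le _)
  refine ⟨J, h6, h5, ?_⟩
  intro j hj
  by_contra hcon
  have hins : insert j J ∈ adm := by
    rw [hadm, Finset.mem_filter]
    refine ⟨Finset.mem_univ _, ?_, ?_⟩
    · rw [Finset.card_insert_of_notMem hj]
      omega
    · rw [Finset.card_insert_of_notMem hj, Finset.biUnion_insert]
      have hZ : W ⊓ Z (S j ∪ J.biUnion S) = W ⊓ Z (J.biUnion S) ⊓ Z (S j) := by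
        ext x
        rw [Submodule.mem_inf, Submodule.mem_inf, Submodule.mem_inf]
        constructor
        · rintro ⟨ha, hb⟩
          exact ⟨⟨ha, fun i hi => hb i (Finset.mem_union_right _ hi)⟩,
            fun i hi => hb i (Finset.mem_union_left _ hi)⟩
        · rintro ⟨⟨ha, hb⟩, hc⟩
          refine ⟨ha, fun i hi => ?_⟩
          rcases Finset.mem_union.mp hi with h | h
          · exact hc i h
          · exact hb i h
      rw [hZ]
      have h8 : c0 * (J.card + 1) = c0 * J.card + c0 := by ring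
      omega
  have h9 := hmax _ hins
  rw [Finset.card_insert_of_notMem hj] at h9
  omega

end H96RX
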