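import Pool.Agent.H96.RX.Clos
import Pool.Agent.H96.RX.Dag

/-!
ROW CnfCore (Theorem G for CNFs with expansion; about 150 lines).  PROOF.  `F_j = {x | ∀ t ∈ S j, x t = σ j t}`.  `N ≥ 1` by `hlast`; if `mb = 0` the claim is
trivial, so `mb ≥ 1`.  Call `i < N` BASE if the first alternative of `hA i` holds.  If `A i = univ`, `i` is not base (`W = ⊤` would follow, as
`0 - x0 ∈ W` and `x - x0 ∈ W` give `x ∈ W`; `n + mb ≤ n`).  For nonbase `i` choose `W i` invariant, with `W i = ⊤` if `A i = univ`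
(`n < n + γ B` because `γ, B ≥ 1`); `clos_exists` gives `J i`; `Wb i = W i ⊓ Z S(J i)`; `U i = {x ∈ A i | ∀ j ∈ J i, x ∉ F_j}`.
Apply `dag` with `D i = A i` (base; `W`, `x0` from the alternative) or `U i` (nonbase; `W = ⊤`, `x0 = 0`), `V = Fin n → ZMod 2` (`finrank = n`).
Nonbase second alternative of `dag` with `Wb i ≤ ⊤`:
* `U i` is stable under `w ∈ Wb i`: `A i` is stable under `W i`, and `x t + w t = x t` for `t ∈ S j`, `j ∈ J i`.
* Let `x ∈ U i`.  Axiom line (`A i ⊆ F_j`): `Wb i` vanishes on `S j` (`x + w ∈ A i ⊆ F_j`, `x ∈ F_j`, so `w t = 0`), hence `Wb i ⊓ Z (S j) = Wb i` and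
  `j ∈ J i` by the last property of `clos_exists` (`c0 + 1 > 0`); but then `x ∈ F_j`, `j ∈ J i` contradicts `x ∈ U i`: `U i` is empty.
  Line with premises `K` (`K.card ≤ f`): if `x + w ∉ D j'` for all `j' < i`: `x + w ∈ A i`, so `x + w ∈ A j'` for some `j' ∈ K`; `j'` is nonbase (else
  `D j' = A j'`), `x + w ∉ U j'`, so `x + w ∈ F_j` for some `j ∈ J j'`; `j ∉ J i` as `x + w ∈ U i`.  `union_count` over the finset
  `K.sigma`/`K ×ˢ` of pairs `(j', j)`, `j' ∈ K`, `j ∈ J j' \ J i` (at most `f * B`), with `P = {w : Wb i | x + w ∈ F_j}`: by `coset_count` with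
  `K := Z (S j)`, `e = c0 + 1` (`clos_exists`), `2^(c0+1) * card P ≤ card (Wb i)`.  So `2^(c0+1) * card {w | …} ≤ f B card (Wb i)`, and
  `2^(c0+1) * (2^d * card {w | …}) ≤ f B 2^d card (Wb i) ≤ 2^(c0+1) card (Wb i)`; cancel.
* `hlast`: `A i = univ` gives `W i = ⊤`, `n + γ |J i| ≤ n`, `J i = ∅`, `U i = univ`.
-/

set_option autoImplicit false
open scoped Classical

namespace H96RX

/-- the points at which the clause with variables `S` and signs `s` is false -/
private def cfal {n : ℕ} (S : Finset (Fin n)) (s : Fin n → ZMod 2) : Set (Fin n → ZMod 2) := {x | ∀ i ∈ S, x i = s i}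

/-- a clause is rarely false on a coset of `Wb` if many of its variables are free there -/
private theorem cf_count_fal {n : ℕ} (Wb : Submodule (ZMod 2) (Fin n → ZMod 2)) (S : Finset (Fin n)) (s x : Fin n → ZMod 2)
    {c : ℕ} (h : Module.finrank (ZMod 2) ↥(Wb ⊓ Z S) + (c + 1) ≤ Module.finrank (ZMod 2) Wb) :
    Nat.card {w : Wb // x + (w : Fin n → ZMod 2) ∈ cfal S s} * 2 ^ (c + 1) ≤ Nat.card Wb := by
  have hW : Nat.card Wb = 2 ^ Module.finrank (ZMod 2) Wb := by
    have := Module.natCard_eq_pow_finrank (K := ZMod 2) (V := Wb)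
    rwa [Nat.card_zmod] at this
  have hI : Nat.card ↥(Wb ⊓ Z S) = 2 ^ Module.finrank (ZMod 2) ↥(Wb ⊓ Z S) := by
    have := Module.natCard_eq_pow_finrank (K := ZMod 2) (V := ↥(Wb ⊓ Z S))
    rwa [Nat.card_zmod] at this
  have key : Nat.card {w : Wb // x + (w : Fin n → ZMod 2) ∈ cfal S s} ≤ Nat.card ↥(Wb ⊓ Z S) := by
    by_cases hne : Nonempty {w : Wb // x + (w : Fin n → ZMod 2) ∈ cfal S s}
    · obtain ⟨w0⟩ := hne
      refine Nat.card_le_card_of_injective
        (fun w => (⟨(w.1 : Fin n → ZMod 2) - (w0.1 : Fin n → ZMod 2),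
          Wb.sub_mem w.1.2 w0.1.2, fun i hi => ?_⟩ : ↥(Wb ⊓ Z S))) ?_
      · have h1 := w.2 i hi
        have h2 := w0.2 i hi
        rw [Pi.add_apply] at h1 h2
        rw [Pi.sub_apply]
        have h3 : (w.1 : Fin n → ZMod 2) i = s i - x i := by rw [← h1]; ring
        have h4 : (w0.1 : Fin n → ZMod 2) i = s i - x i := by rw [← h2]; ring
        rw [h3, h4, sub_self]
      · intro w w' hww
        have h1 := congrArg Subtype.val hww
        have h2 : (w.1 : Fin n → ZMod 2) = (w'.1 : Fin n → ZMod 2) := sub_left_injective h1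
        exact Subtype.ext (Subtype.ext h2)
    · rw [not_nonempty_iff] at hne
      rw [Nat.card_of_isEmpty]
      exact Nat.zero_le _
  calc Nat.card {w : Wb // x + (w : Fin n → ZMod 2) ∈ cfal S s} * 2 ^ (c + 1)
      ≤ 2 ^ Module.finrank (ZMod 2) ↥(Wb ⊓ Z S) * 2 ^ (c + 1) := by
        rw [← hI]; exact Nat.mul_le_mul_right _ key
    _ = 2 ^ (Module.finrank (ZMod 2) ↥(Wb ⊓ Z S) + (c + 1)) := (pow_add _ _ _).symm
    _ ≤ 2 ^ Module.finrank (ZMod 2) Wb := Nat.pow_le_pow_right (by norm_num) h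
    _ = Nat.card Wb := hW.symm

theorem cnf_core {n N : ℕ} {ι : Type} [Fintype ι] (S : ι → Finset (Fin n)) (σ : ι → Fin n → ZMod 2)
    {c0 γ B f d α mb : ℕ} (hγ : 1 ≤ γ) (hB : 1 ≤ B) (hα : 2 ≤ α)
    (hexp : ∀ J : Finset ι, J.card ≤ B → (c0 + γ) * J.card ≤ (J.biUnion S).card)
    (hun : f * B * 2 ^ d ≤ 2 ^ (c0 + 1))
    (A : ℕ → Set (Fin n → ZMod 2))
    (hA : ∀ i < N, (∃ (W : Submodule (ZMod 2) (Fin n → ZMod 2)) (x0 : Fin n → ZMod 2),
        (∀ x ∈ A i, x - x0 ∈ W) ∧ Module.finrank (ZMod 2) W + mb ≤ n) ∨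
      (∃ W : Submodule (ZMod 2) (Fin n → ZMod 2),
        (∀ x ∈ A i, ∀ w ∈ W, x + w ∈ A i) ∧ n < Module.finrank (ZMod 2) W + γ * B))
    (hline : ∀ i < N, (∃ j, ∀ x ∈ A i, ∀ t ∈ S j, x t = σ j t) ∨
      ∃ K : Finset ℕ, K.card ≤ f ∧ (∀ j ∈ K, j < i) ∧ ∀ x ∈ A i, ∃ j ∈ K, x ∈ A j)
    (hlast : ∃ i < N, A i = Set.univ) :
    1 ≤ (N : ℝ) * ((1 - (1 / 2 : ℝ) ^ α) ^ mb + (1 / 2 : ℝ) ^ (d * α)) := by
  have hn : Module.finrank (ZMod 2) (Fin n → ZMod 2) = n := by
    rw [Module.finrank_fintype_fun_eq_card, Fintype.card_fin]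
  have hL' : ∀ i, ∃ (b : Prop) (W : Submodule (ZMod 2) (Fin n → ZMod 2)) (x0 : Fin n → ZMod 2), i < N →
      (((¬ b ∧ Module.finrank (ZMod 2) W + mb ≤ n ∧ ∀ x ∈ A i, x - x0 ∈ W) ∨
      (b ∧ n < Module.finrank (ZMod 2) W + γ * B ∧ ∀ x ∈ A i, ∀ w ∈ W, x + w ∈ A i)) ∧
      (A i = Set.univ → b ∧ W = ⊤)) := by
    intro i
    by_cases hi : i < N
    · by_cases hu : A i = Set.univ
      · refine ⟨True, ⊤, 0, fun _ => ⟨Or.inr ⟨trivial, ?_, fun x _ w _ => ?_⟩, fun _ => ⟨trivial, rfl⟩⟩⟩
        · rw [finrank_top, hn]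
          have : 1 * 1 ≤ γ * B := Nat.mul_le_mul hγ hB
          omega
        · rw [hu]
          exact Set.mem_univ _
      · rcases hA i hi with ⟨W, x0, h1, h2⟩ | ⟨W, h1, h2⟩
        · exact ⟨False, W, x0, fun _ => ⟨Or.inl ⟨id, h2, h1⟩, fun h' => absurd h' hu⟩⟩
        · exact ⟨True, W, 0, fun _ => ⟨Or.inr ⟨trivial, h2, h1⟩, fun h' => absurd h' hu⟩⟩
    · exact ⟨True, ⊤, 0, fun h => absurd h hi⟩
  choose b W x0 hW' using hL'
  have hW : ∀ i, i < N → ((¬ b i ∧ Module.finrank (ZMod 2) (W i) + mb ≤ n ∧ ∀ x ∈ A i, x - x0 i ∈ W i) ∨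
      (b i ∧ n < Module.finrank (ZMod 2) (W i) + γ * B ∧ ∀ x ∈ A i, ∀ w ∈ W i, x + w ∈ A i)) :=
    fun i hi => (hW' i hi).1
  have hbn : ∀ i, i < N → b i → n < Module.finrank (ZMod 2) (W i) + γ * B := by
    intro i hi hb
    rcases hW i hi with h | h
    · exact absurd hb h.1
    · exact h.2.1
  have hT' : ∀ i, ∃ T : Finset ι, n < Module.finrank (ZMod 2) (W i) + γ * B →
      (T.card < B ∧ Module.finrank (ZMod 2) (W i) + γ * T.card ≤ n ∧
      ∀ j, j ∉ T → Module.finrank (ZMod 2) ↥(W i ⊓ Z ((T.biUnion S)) ⊓ Z (S j)) + (c0 + 1) ≤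
        Module.finrank (ZMod 2) ↥(W i ⊓ Z ((T.biUnion S)))) := by
    intro i
    by_cases hi : n < Module.finrank (ZMod 2) (W i) + γ * B
    · obtain ⟨T, hT⟩ := clos_exists S hexp (W i) hi
      exact ⟨T, fun _ => hT⟩
    · exact ⟨∅, fun h => absurd h hi⟩
  choose T hT using hT'
  obtain ⟨D, hD⟩ : ∃ D : ℕ → Set (Fin n → ZMod 2), ∀ i x, x ∈ D i ↔
      (x ∈ A i ∧ (b i → ∀ j ∈ T i, x ∉ cfal (S j) (σ j))) :=
    ⟨fun i => {x | x ∈ A i ∧ (b i → ∀ j ∈ T i, x ∉ cfal (S j) (σ j))},
      fun _ _ => Iff.rfl⟩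
  refine dag (V := Fin n → ZMod 2) hα D
    (fun i => if b i then ⊤ else W i) x0 ?_ ?_ ?_
  · intro i hi x hx
    by_cases hb : b i
    · simp only [if_pos hb]
      exact Submodule.mem_top
    · simp only [if_neg hb]
      rcases hW i hi with h | h
      · exact h.2.2 x ((hD i x).1 hx).1
      · exact absurd h.1 hb
  · intro i hi
    by_cases hb : b i
    · right
      have hinv : ∀ x ∈ A i, ∀ w ∈ W i, x + w ∈ A i := by
        rcases hW i hi with h | h
        · exact absurd hb h.1
        · exact h.2.2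
      obtain ⟨hT1, hT2, hT3⟩ := hT i (hbn i hi hb)
      refine ⟨W i ⊓ Z ((T i).biUnion S), ?_, ?_, ?_⟩
      · simp only [if_pos hb]
        exact le_top
      · intro x hx w hw
        rw [hD] at hx ⊢
        refine ⟨hinv x hx.1 w hw.1, fun _ j hj hxw => hx.2 hb j hj fun k hk => ?_⟩
        have h1 := hxw k hk
        have h2 : w k = 0 := hw.2 k (Finset.mem_biUnion.2 ⟨j, hj, hk⟩)
        rw [Pi.add_apply, h2, add_zero] at h1
        exact h1
      · intro x hx
        have hx' := (hD i x).1 hx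
        rcases hline i hi with ⟨j, hj⟩ | ⟨P, hP, hPi, hcov⟩
        · exfalso
          by_cases hjT : j ∈ T i
          · exact hx'.2 hb j hjT (hj x hx'.1)
          · have h1 := hT3 j hjT
            have h2 : W i ⊓ Z ((T i).biUnion S) ⊓ Z (S j) = W i ⊓ Z ((T i).biUnion S) := by
              refine inf_eq_left.2 fun w hw k hk => ?_
              have h3 := hj _ (hinv x hx'.1 w hw.1) k hk
              have h4 := hj x hx'.1 k hk
              rw [Pi.add_apply, h4] at h3
              exact add_eq_left.1 h3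
            rw [h2] at h1
            omega
        · -- the counting
          let _ : Fintype ↥(W i ⊓ Z ((T i).biUnion S)) := Fintype.ofFinite _
          obtain ⟨C, hC⟩ : ∃ C : ℕ, C = Nat.card ↥(W i ⊓ Z ((T i).biUnion S)) := ⟨_, rfl⟩
          have hcnt : ∀ j, j ∉ T i → (Finset.univ.filter fun w : ↥(W i ⊓ Z ((T i).biUnion S)) =>
              x + (w : Fin n → ZMod 2) ∈ cfal (S j) (σ j)).card * 2 ^ (c0 + 1) ≤ C := by
            intro j hj
            have h1 := cf_count_fal (W i ⊓ Z ((T i).biUnion S)) (S j) (σ j) x (hT3 j hj)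
            rw [← hC, Nat.card_eq_fintype_card, Fintype.card_subtype] at h1
            exact h1
          have hsub : (Finset.univ.filter fun w : ↥(W i ⊓ Z ((T i).biUnion S)) =>
              ∀ k < i, x + (w : Fin n → ZMod 2) ∉ D k) ⊆
              (P.filter fun p => b p).biUnion fun p =>
                ((T p).filter fun j => j ∉ T i).biUnion fun j =>
                  Finset.univ.filter fun w : ↥(W i ⊓ Z ((T i).biUnion S)) =>
                    x + (w : Fin n → ZMod 2) ∈ cfal (S j) (σ j) := by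
            intro w hw
            rw [Finset.mem_filter] at hw
            have hxL : x + (w : Fin n → ZMod 2) ∈ A i := hinv x hx'.1 _ w.2.1
            obtain ⟨p, hp, hxp⟩ := hcov _ hxL
            have h1 := hw.2 p (hPi p hp)
            rw [hD] at h1
            push Not at h1
            obtain ⟨h2, j, hj, hj2⟩ := h1 hxp
            have hjT : j ∉ T i := by
              intro hjT
              refine hx'.2 hb j hjT fun k hk => ?_
              have h3 := hj2 k hk
              have h4 : (w : Fin n → ZMod 2) k = 0 := w.2.2 k (Finset.mem_biUnion.2 ⟨j, hjT, hk⟩)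
              rw [Pi.add_apply, h4, add_zero] at h3
              exact h3
            rw [Finset.mem_biUnion]
            refine ⟨p, Finset.mem_filter.2 ⟨hp, h2⟩, ?_⟩
            rw [Finset.mem_biUnion]
            exact ⟨j, Finset.mem_filter.2 ⟨hj, hjT⟩, Finset.mem_filter.2 ⟨Finset.mem_univ _, hj2⟩⟩
          have hinner : ∀ p ∈ P.filter (fun p => b p),
              (((T p).filter fun j => j ∉ T i).biUnion fun j =>
                  Finset.univ.filter fun w : ↥(W i ⊓ Z ((T i).biUnion S)) =>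
                    x + (w : Fin n → ZMod 2) ∈ cfal (S j) (σ j)).card * 2 ^ (c0 + 1) ≤ B * C := by
            intro p hp
            have hp' := hbn p ((hPi p (Finset.mem_filter.1 hp).1).trans hi) (Finset.mem_filter.1 hp).2
            have h1 : ((T p).filter fun j => j ∉ T i).card ≤ B :=
              (Finset.card_filter_le _ _).trans (hT p hp').1.le
            calc _ ≤ (∑ j ∈ (T p).filter (fun j => j ∉ T i),
                  (Finset.univ.filter fun w : ↥(W i ⊓ Z ((T i).biUnion S)) =>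
                    x + (w : Fin n → ZMod 2) ∈ cfal (S j) (σ j)).card) * 2 ^ (c0 + 1) :=
                  Nat.mul_le_mul_right _ Finset.card_biUnion_le
              _ = ∑ j ∈ (T p).filter (fun j => j ∉ T i),
                  (Finset.univ.filter fun w : ↥(W i ⊓ Z ((T i).biUnion S)) =>
                    x + (w : Fin n → ZMod 2) ∈ cfal (S j) (σ j)).card * 2 ^ (c0 + 1) :=
                  Finset.sum_mul _ _ _
              _ ≤ ∑ _j ∈ (T p).filter (fun j => j ∉ T i), C :=
                  Finset.sum_le_sum fun j hj => hcnt j (Finset.mem_filter.1 hj).2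
              _ = ((T p).filter fun j => j ∉ T i).card * C := by
                  rw [Finset.sum_const, smul_eq_mul]
              _ ≤ B * C := Nat.mul_le_mul_right _ h1
          have houter : (Finset.univ.filter fun w : ↥(W i ⊓ Z ((T i).biUnion S)) =>
              ∀ k < i, x + (w : Fin n → ZMod 2) ∉ D k).card * 2 ^ (c0 + 1) ≤ f * B * C := by
            calc _ ≤ ((P.filter fun p => b p).biUnion fun p =>
                ((T p).filter fun j => j ∉ T i).biUnion fun j =>
                  Finset.univ.filter fun w : ↥(W i ⊓ Z ((T i).biUnion S)) =>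
                    x + (w : Fin n → ZMod 2) ∈ cfal (S j) (σ j)).card * 2 ^ (c0 + 1) :=
                  Nat.mul_le_mul_right _ (Finset.card_le_card hsub)
              _ ≤ (∑ p ∈ P.filter (fun p => b p),
                (((T p).filter fun j => j ∉ T i).biUnion fun j =>
                  Finset.univ.filter fun w : ↥(W i ⊓ Z ((T i).biUnion S)) =>
                    x + (w : Fin n → ZMod 2) ∈ cfal (S j) (σ j)).card) * 2 ^ (c0 + 1) :=
                  Nat.mul_le_mul_right _ Finset.card_biUnion_le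
              _ = ∑ p ∈ P.filter (fun p => b p),
                (((T p).filter fun j => j ∉ T i).biUnion fun j =>
                  Finset.univ.filter fun w : ↥(W i ⊓ Z ((T i).biUnion S)) =>
                    x + (w : Fin n → ZMod 2) ∈ cfal (S j) (σ j)).card * 2 ^ (c0 + 1) :=
                  Finset.sum_mul _ _ _
              _ ≤ ∑ _p ∈ P.filter (fun p => b p), B * C :=
                  Finset.sum_le_sum hinner
              _ = (P.filter fun p => b p).card * (B * C) := by
                  rw [Finset.sum_const, smul_eq_mul]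
              _ ≤ f * (B * C) :=
                  Nat.mul_le_mul_right _ ((Finset.card_filter_le _ _).trans hP)
              _ = f * B * C := (mul_assoc _ _ _).symm
          rw [← hC, Nat.card_eq_fintype_card, Fintype.card_subtype]
          have h5 : 2 ^ (c0 + 1) * (2 ^ d * (Finset.univ.filter fun w : ↥(W i ⊓ Z ((T i).biUnion S)) =>
              ∀ k < i, x + (w : Fin n → ZMod 2) ∉ D k).card) ≤ 2 ^ (c0 + 1) * C := by
            calc _ = 2 ^ d * ((Finset.univ.filter fun w : ↥(W i ⊓ Z ((T i).biUnion S)) =>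
                  ∀ k < i, x + (w : Fin n → ZMod 2) ∉ D k).card * 2 ^ (c0 + 1)) := by ring
              _ ≤ 2 ^ d * (f * B * C) := Nat.mul_le_mul_left _ houter
              _ = f * B * 2 ^ d * C := by ring
              _ ≤ 2 ^ (c0 + 1) * C := Nat.mul_le_mul_right _ hun
          exact Nat.le_of_mul_le_mul_left h5 (by positivity)
    · left
      have h1 : (if b i then
          (⊤ : Submodule (ZMod 2) (Fin n → ZMod 2)) else W i) = W i := if_neg hb
      rw [h1, hn]
      rcases hW i hi with h | h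
      · exact h.2.1
      · exact absurd h.1 hb
  · obtain ⟨i, hi, hLi⟩ := hlast
    refine ⟨i, hi, ?_⟩
    rw [Set.eq_univ_iff_forall]
    intro x
    rw [hD]
    refine ⟨by rw [hLi]; exact Set.mem_univ x, fun hb j hj => ?_⟩
    exfalso
    obtain ⟨-, h1, -⟩ := hT i (hbn i hi hb)
    rw [((hW' i hi).2 hLi).2, finrank_top, hn] at h1
    have h2 : 1 ≤ (T i).card := Finset.card_pos.2 ⟨j, hj⟩
    have h3 : 1 * 1 ≤ γ * (T i).card := Nat.mul_le_mul hγ h2
    omega

end H96RX
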