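import Mathlib

/-!
Definitions for project MP_28250c_RX (helper96; no row).  `F = ZMod 2`, `V` a finite `F`-vector space.

* `Aff V` : affine functions `V → F`;  `RM V D = Aff V ^ D` : functions of degree at most `D` (Submodule power in the
  algebra `V → F`).
* `van T` : the functions vanishing on `T`;  `rk V D T = dim (RM V D restricted to T)`, written as
  `finrank (RM V D) - finrank (RM V D ⊓ van T)`.
* `Om V q T = (1 - q) ∑_{D ≥ 0} q ^ D rk V D T`.
* `Z S` : the vectors of `Fin n → F` vanishing on the set `S` of coordinates.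
-/

set_option autoImplicit false
open scoped Classical

namespace H96RX

section
variable (V : Type) [AddCommGroup V] [Module (ZMod 2) V]

/-- affine functions -/
def Aff : Submodule (ZMod 2) (V → ZMod 2) where
  carrier := {f | ∃ (φ : V →ₗ[ZMod 2] ZMod 2) (c : ZMod 2), ∀ x, f x = φ x + c}
  add_mem' := by
    rintro f g ⟨φ, c, h⟩ ⟨ψ, e, h'⟩
    exact ⟨φ + ψ, c + e, fun x => by rw [Pi.add_apply, h, h', LinearMap.add_apply]; ring⟩
  zero_mem' := ⟨0, 0, fun x => by simp⟩
  smul_mem' := by
    rintro a f ⟨φ, c, h⟩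
    exact ⟨a • φ, a * c, fun x => by rw [Pi.smul_apply, h, LinearMap.smul_apply, smul_eq_mul, smul_eq_mul]; ring⟩

/-- functions of degree at most `D` -/
def RM (D : ℕ) : Submodule (ZMod 2) (V → ZMod 2) := (Aff V) ^ D

/-- functions vanishing on `T` -/
def van {V : Type} (T : Set V) : Submodule (ZMod 2) (V → ZMod 2) where
  carrier := {g | ∀ x ∈ T, g x = 0}
  add_mem' := by
    intro f g hf hg x hx
    rw [Pi.add_apply, hf x hx, hg x hx, add_zero]
  zero_mem' := fun x _ => rfl
  smul_mem' := by
    intro a f hf x hx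
    rw [Pi.smul_apply, hf x hx, smul_zero]

/-- dimension of the restriction of `RM V D` to `T` -/
noncomputable def rk (D : ℕ) (T : Set V) : ℕ :=
  Module.finrank (ZMod 2) (RM V D) - Module.finrank (ZMod 2) ↥(RM V D ⊓ van T)

/-- the measure -/
noncomputable def Om (q : ℝ) (T : Set V) : ℝ := (1 - q) * ∑' D : ℕ, q ^ D * (rk V D T : ℝ)

end

/-- `1 / (2 ^ α - 1)` -/
noncomputable def qa (α : ℕ) : ℝ := 1 / (2 ^ α - 1)

/-- vectors vanishing on the coordinates `S` -/
def Z {n : ℕ} (S : Finset (Fin n)) : Submodule (ZMod 2) (Fin n → ZMod 2) where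
  carrier := {x | ∀ i ∈ S, x i = 0}
  add_mem' := by
    intro f g hf hg x hx
    rw [Pi.add_apply, hf x hx, hg x hx, add_zero]
  zero_mem' := fun x _ => rfl
  smul_mem' := by
    intro a f hf x hx
    rw [Pi.smul_apply, hf x hx, smul_zero]

end H96RX
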