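import Pool.Agent.H96.RX.Rk

/-!
ROW Img (affine invariance of `rk`; about 80 lines).  PROOF.  `L : V → V'` linear injective, `h x = L x + b`.  There is a linear left inverse
`M : V' → V`, `M ∘ L = id` (`LinearMap.exists_leftInverse_of_injective L (LinearMap.ker_eq_bot.2 hL)`).  Let `c : (V' → F) →ₐ[F] (V → F)` be
`g ↦ g ∘ h` (build it as an AlgHom; e.g. `Pi.algHom`/`AlgHom.funLeft`-like or by hand: `map_mul`, `map_one`, … are all `rfl`).
`(Aff V').map c = Aff V`: if `g y = φ y + e` then `g (h x) = (φ ∘ L) x + (φ b + e)`; conversely `f x = φ x + e` is `c` of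
`y ↦ (φ ∘ M) (y - b) + e` (`= (φ∘M) y + (e - φ (M b))`).  So `(RM V' D).map c = RM V D` (`Submodule.map_pow`).
Let `h '' S = T`.  `c.toLinearMap` with `rank_map` on `P = RM V' D`: `finrank (RM V' D) = finrank (RM V D) + finrank (RM V' D ⊓ ker c)`;
on `P = RM V' D ⊓ van T`: `(RM V' D ⊓ van T).map c = RM V D ⊓ van S` (`g` vanishes on `T` iff `g ∘ h` vanishes on `S`) and
`(RM V' D ⊓ van T) ⊓ ker c = RM V' D ⊓ ker c` (if `g ∘ h = 0` then `g` vanishes on `h '' S`).  Subtract: `rk V' D T = rk V D S`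
(unfold `rk` or `rk_add`; omega).
-/

set_option autoImplicit false
open scoped Classical

namespace H96RX

variable {V V' : Type} [AddCommGroup V] [Module (ZMod 2) V] [Finite V]
  [AddCommGroup V'] [Module (ZMod 2) V'] [Finite V']

/-- composition with `h` -/
private def Img_c (h : V → V') : (V' → ZMod 2) →ₐ[ZMod 2] (V → ZMod 2) where
  toFun g := fun x => g (h x)
  map_one' := rfl
  map_mul' _ _ := rfl
  map_zero' := rfl
  map_add' _ _ := rfl
  commutes' _ := rfl

private theorem Img_aff (L : V →ₗ[ZMod 2] V') (hL : Function.Injective L) (b : V') :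
    (Aff V').map (Img_c (fun x => L x + b)).toLinearMap = Aff V := by
  obtain ⟨M, hM⟩ := LinearMap.exists_leftInverse_of_injective L (LinearMap.ker_eq_bot.2 hL)
  have hM' : ∀ x, M (L x) = x := fun x => by
    have := LinearMap.congr_fun hM x
    simpa using this
  ext f
  rw [Submodule.mem_map]
  constructor
  · rintro ⟨g, ⟨φ, e, hg⟩, rfl⟩
    refine ⟨φ.comp L, φ b + e, fun x => ?_⟩
    change g (L x + b) = _
    rw [hg, map_add, LinearMap.comp_apply]
    ring
  · rintro ⟨φ, e, hf⟩
    refine ⟨fun y => (φ.comp M) y + (e - φ (M b)), ⟨φ.comp M, e - φ (M b), fun y => rfl⟩, ?_⟩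
    funext x
    change (φ.comp M) (L x + b) + (e - φ (M b)) = f x
    rw [hf, map_add, LinearMap.comp_apply, LinearMap.comp_apply, hM']
    ring

private theorem Img_rm (D : ℕ) (L : V →ₗ[ZMod 2] V') (hL : Function.Injective L) (b : V') :
    (RM V' D).map (Img_c (fun x => L x + b)).toLinearMap = RM V D := by
  unfold RM
  rw [Submodule.map_pow, Img_aff L hL b]

theorem rk_image (D : ℕ) (L : V →ₗ[ZMod 2] V') (hL : Function.Injective L) (b : V') (S : Set V) :
    rk V' D ((fun x => L x + b) '' S) = rk V D S := by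
  set h : V → V' := fun x => L x + b with hh
  have h1 := rank_map (Img_c h).toLinearMap (RM V' D)
  have h2 := rank_map (Img_c h).toLinearMap (RM V' D ⊓ van (h '' S))
  rw [Img_rm D L hL b] at h1
  have h3 : (RM V' D ⊓ van (h '' S)).map (Img_c h).toLinearMap = RM V D ⊓ van S := by
    ext f
    rw [Submodule.mem_map]
    constructor
    · rintro ⟨g, ⟨hg, hv⟩, rfl⟩
      refine ⟨?_, ?_⟩
      · rw [← Img_rm D L hL b]
        exact Submodule.mem_map_of_mem hg
      · intro x hx
        exact hv (h x) ⟨x, hx, rfl⟩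
    · rintro ⟨hf, hv⟩
      have hf' : f ∈ RM V D := hf
      rw [← Img_rm D L hL b, Submodule.mem_map] at hf'
      obtain ⟨g, hg, rfl⟩ := hf'
      refine ⟨g, ⟨hg, ?_⟩, rfl⟩
      rintro y ⟨x, hx, rfl⟩
      exact hv x hx
  have h4 : (RM V' D ⊓ van (h '' S)) ⊓ LinearMap.ker (Img_c h).toLinearMap =
      RM V' D ⊓ LinearMap.ker (Img_c h).toLinearMap := by
    ext g
    simp only [Submodule.mem_inf]
    constructor
    · rintro ⟨⟨a, _⟩, c⟩
      exact ⟨a, c⟩
    · rintro ⟨a, c⟩
      refine ⟨⟨a, ?_⟩, c⟩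
      rintro y ⟨x, _, rfl⟩
      rw [LinearMap.mem_ker] at c
      exact congrFun c x
  rw [h3, h4] at h2
  have h5 := rk_add (V := V') D (h '' S)
  have h6 := rk_add (V := V) D S
  omega

end H96RX
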