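import Pool.Agent.H96.RX.Defs

/-!
ROW LinA (counting in cosets; about 90 lines).  PROOF.
`finrank_Z`: `Z S` is the kernel of the restriction `(Fin n → F) →ₗ (S → F)` (`LinearMap.funLeft F F Subtype.val`), which is surjective
(`LinearMap.funLeft_surjective_of_injective`); `LinearMap.finrank_range_add_finrank_ker`; `finrank (S → F) = S.card`.
`coset_count`: if the set is empty trivial; otherwise fix `w0` in it; `w ↦ w - w0` injects it into `Wb ⊓ K`; so its cardinality is at most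
`Nat.card (Wb ⊓ K) = 2 ^ finrank (Wb ⊓ K)`, and `Nat.card Wb = 2 ^ finrank Wb` (`Module.card_eq_pow_finrank`/`Module.natCard_eq_pow_finrank`,
`Nat.card (ZMod 2) = 2`); `2^e * 2^(finrank (Wb ⊓ K)) ≤ 2^(finrank Wb)`.
`union_count`: `Nat.card Q ≤ ∑_{k ∈ K} Nat.card (P k)`; multiply by `2^e` and use `K.card ≤ R`.
-/

set_option autoImplicit false
open scoped Classical

namespace H96RX

theorem finrank_Z {n : ℕ} (S : Finset (Fin n)) : Module.finrank (ZMod 2) (Z S) + S.card = n := by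
  obtain ⟨L, hL⟩ : ∃ L : (Fin n → ZMod 2) →ₗ[ZMod 2] (↥S → ZMod 2),
    L = LinearMap.funLeft (ZMod 2) (ZMod 2) (Subtype.val : ↥S → Fin n) := ⟨_, rfl⟩
  have hsurj : Function.Surjective L := by
    rw [hL]
    exact LinearMap.funLeft_surjective_of_injective (ZMod 2) (ZMod 2) _ Subtype.val_injective
  have hker : LinearMap.ker L = Z S := by
    ext x
    rw [LinearMap.mem_ker, hL]
    constructor
    · intro h i hi
      have := congrFun h ⟨i, hi⟩
      rwa [LinearMap.funLeft_apply] at this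
    · intro h
      funext i
      rw [LinearMap.funLeft_apply]
      exact h i.1 i.2
  have h1 := LinearMap.finrank_range_add_finrank_ker L
  rw [LinearMap.range_eq_top.mpr hsurj, finrank_top, hker, Module.finrank_pi, Module.finrank_pi,
    Fintype.card_coe, Fintype.card_fin] at h1
  omega

private theorem LinA_card {V : Type} [AddCommGroup V] [Module (ZMod 2) V] [Finite V] :
    Nat.card V = 2 ^ Module.finrank (ZMod 2) V := by
  have h := Module.natCard_eq_pow_finrank (K := ZMod 2) (V := V)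
  rw [Nat.card_zmod] at h
  exact h

theorem coset_count {V : Type} [AddCommGroup V] [Module (ZMod 2) V] [Finite V] (Wb K : Submodule (ZMod 2) V)
    (P : Set V) (hP : ∀ w ∈ Wb, ∀ w' ∈ Wb, w ∈ P → w' ∈ P → w - w' ∈ K) (e : ℕ)
    (he : Module.finrank (ZMod 2) ↥(Wb ⊓ K) + e ≤ Module.finrank (ZMod 2) Wb) :
    2 ^ e * Nat.card {w : Wb // (w : V) ∈ P} ≤ Nat.card Wb := by
  have hWb : Nat.card Wb = 2 ^ Module.finrank (ZMod 2) Wb := LinA_card
  have hK : Nat.card ↥(Wb ⊓ K) = 2 ^ Module.finrank (ZMod 2) ↥(Wb ⊓ K) := LinA_card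
  have hle : Nat.card {w : Wb // (w : V) ∈ P} ≤ Nat.card ↥(Wb ⊓ K) := by
    rcases isEmpty_or_nonempty {w : Wb // (w : V) ∈ P} with hE | hN
    · rw [Nat.card_of_isEmpty]
      exact Nat.zero_le _
    · obtain ⟨w0⟩ := hN
      refine Nat.card_le_card_of_injective
        (fun w : {w : Wb // (w : V) ∈ P} =>
          (⟨(w.1 : V) - (w0.1 : V),
            Submodule.mem_inf.mpr ⟨Wb.sub_mem w.1.2 w0.1.2, hP _ w.1.2 _ w0.1.2 w.2 w0.2⟩⟩ : ↥(Wb ⊓ K))) ?_
      intro w w' h
      have h2 : (w.1 : V) - (w0.1 : V) = (w'.1 : V) - (w0.1 : V) := Subtype.mk.inj h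
      exact Subtype.ext (Subtype.ext (sub_left_injective h2))
  rw [hWb]
  calc 2 ^ e * Nat.card {w : Wb // (w : V) ∈ P} ≤ 2 ^ e * 2 ^ Module.finrank (ZMod 2) ↥(Wb ⊓ K) := by
        rw [← hK]
        exact Nat.mul_le_mul_left _ hle
    _ = 2 ^ (Module.finrank (ZMod 2) ↥(Wb ⊓ K) + e) := by
        rw [pow_add, mul_comm]
    _ ≤ 2 ^ Module.finrank (ZMod 2) Wb := Nat.pow_le_pow_right (by norm_num) he

theorem union_count {T κ : Type} [Finite T] (K : Finset κ) (P : κ → Set T) (Q : Set T) (e R : ℕ)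
    (hQ : ∀ t ∈ Q, ∃ k ∈ K, t ∈ P k) (hK : K.card ≤ R) (hP : ∀ k ∈ K, 2 ^ e * Nat.card (P k) ≤ Nat.card T) :
    2 ^ e * Nat.card Q ≤ R * Nat.card T := by
  have h1 : Nat.card Q ≤ ∑ k ∈ K, Nat.card (P k) := by
    have hfin : ∀ k, Nat.card (P k) = (P k).ncard := fun k => Nat.card_coe_set_eq (P k)
    rw [Nat.card_coe_set_eq]
    have hsub : Q ⊆ ⋃ k ∈ K, P k := by
      intro t ht
      obtain ⟨k, hk, htk⟩ := hQ t ht
      exact Set.mem_biUnion hk htk
    refine (Set.ncard_le_ncard hsub (Set.toFinite _)).trans ?_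
    refine (Finset.set_ncard_biUnion_le K P).trans ?_
    exact (Finset.sum_congr rfl fun k _ => (hfin k).symm).le
  calc 2 ^ e * Nat.card Q ≤ 2 ^ e * ∑ k ∈ K, Nat.card (P k) := Nat.mul_le_mul_left _ h1
    _ = ∑ k ∈ K, 2 ^ e * Nat.card (P k) := Finset.mul_sum _ _ _
    _ ≤ ∑ k ∈ K, Nat.card T := Finset.sum_le_sum hP
    _ = K.card * Nat.card T := by rw [Finset.sum_const, smul_eq_mul]
    _ ≤ R * Nat.card T := Nat.mul_le_mul_right _ hK

end H96RX
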