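import Pool.Agent.H96.RX.Star
import Pool.Agent.H96.RX.OmUniv

/-!
ROW LineStep (the increment of one line; about 130 lines).  PROOF.  `q = qa α`.  Let `C` be a complement of `Wb` inside `W`:
apply `Submodule.exists_isCompl` to `Wb.comap W.subtype` and map back, or take any `C : Submodule F V` with `C ≤ W`, `C ⊓ Wb = ⊥`, `C ⊔ Wb = W`.
`v = finrank Wb`, `β : (Fin v → F) ≃ₗ Wb` (`(Module.finBasis _ _).equivFun.symm` or `LinearEquiv.ofFinrankEq`).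
`L : C × (Fin v → F) → V`, `(c, y) ↦ c + β y`: linear, injective (`C ⊓ Wb = ⊥`), range `W`.  `h z = L z + x0`.
`T = {c : C | x0 + c ∈ U}` (a finset, `C` is finite).  `S c = {y | h (c,y) ∉ E}`.
(a) `h '' {p | p.1 ∈ T} = U`: `⊆`: `U` is stable under `Wb` (`hU'`).  `⊇`: `x ∈ U`, `x - x0 ∈ W` is `c + β y`; `x0 + c = x - β y = x + β y ∈ U`
(char 2; or `x + (-β y)`).
(b) `h '' {p | p.1 ∈ T ∧ p.2 ∉ S p.1} = U ∩ E`.
(c) for `t ∈ T`: `2^d |S t| ≤ 2^v`: `hE (x0 + t)`, the bijection `β` and `Nat.card Wb = 2^v`; so `(|S t| / 2^v)^α ≤ ((1/2)^d)^α = (1/2)^(d α)`.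
`marg` for `T` in `C` and `star`: `Om U ≤ Om (U ∩ E) + ∑_t c t (1+q)^v (1/2)^(dα) = Om (U ∩ E) + (1/2)^(dα) (1+q)^v Om_C(T)` (through
`Om_image`), and `Om_C(T) ≤ Om_C(univ) = (1+q)^(finrank C)` (`Om_mono`, `Om_univ`), `finrank C + v = finrank W`.
Finally `Om_submod`: `Om (E ∪ U) + Om (E ∩ U) ≤ Om E + Om U`.
`Om_affine`: `U ⊆ (fun w : W => W.subtype w + x0) '' univ`; `Om_mono`, `Om_image`, `Om_univ`.
-/

set_option autoImplicit false
open scoped Classical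

namespace H96RX

variable {V : Type} [AddCommGroup V] [Module (ZMod 2) V] [Finite V]

private theorem LineStep_compl (W Wb : Submodule (ZMod 2) V) (hW : Wb ≤ W) :
    ∃ C : Submodule (ZMod 2) V, C ≤ W ∧ (∀ x ∈ C, x ∈ Wb → x = 0) ∧
      (∀ x ∈ W, ∃ c ∈ C, ∃ w ∈ Wb, c + w = x) ∧
      Module.finrank (ZMod 2) C + Module.finrank (ZMod 2) Wb = Module.finrank (ZMod 2) W := by
  have hfin : Module.Finite (ZMod 2) V := Module.Finite.of_finite
  obtain ⟨D, hD⟩ := Submodule.exists_isCompl Wb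
  have h1 : Wb ⊔ D ⊓ W = W := by
    rw [← sup_inf_assoc_of_le D hW, hD.sup_eq_top, top_inf_eq]
  have h2 : Wb ⊓ (D ⊓ W) = ⊥ := by
    rw [← inf_assoc, hD.inf_eq_bot, bot_inf_eq]
  refine ⟨D ⊓ W, inf_le_right, ?_, ?_, ?_⟩
  · intro x hx hx'
    have h3 : x ∈ Wb ⊓ (D ⊓ W) := ⟨hx', hx⟩
    rw [h2, Submodule.mem_bot] at h3
    exact h3
  · intro x hx
    rw [← h1, Submodule.mem_sup] at hx
    obtain ⟨w, hw, c, hc, h⟩ := hx
    exact ⟨c, hc, w, hw, by rw [add_comm]; exact h⟩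
  · have h3 := Submodule.finrank_sup_add_finrank_inf_eq Wb (D ⊓ W)
    rw [h1, h2, finrank_bot] at h3
    omega

omit [Finite V] in
private theorem LineStep_card (v : ℕ) (Wb : Submodule (ZMod 2) V)
    (β : (Fin v → ZMod 2) ≃ₗ[ZMod 2] Wb) : Nat.card Wb = 2 ^ v := by
  rw [← Nat.card_congr β.toEquiv, Nat.card_eq_fintype_card, Fintype.card_fun, ZMod.card, Fintype.card_fin]

private theorem LineStep_pow {s v d α : ℕ} (h : 2 ^ d * s ≤ 2 ^ v) :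
    ((s : ℝ) / 2 ^ v) ^ α ≤ (1 / 2 : ℝ) ^ (d * α) := by
  have h1 : (2 : ℝ) ^ d * (s : ℝ) ≤ 2 ^ v := by exact_mod_cast h
  have h2 : (0 : ℝ) < 2 ^ v := by positivity
  have h3 : (0 : ℝ) < 2 ^ d := by positivity
  have h4 : (s : ℝ) / 2 ^ v ≤ (1 / 2 : ℝ) ^ d := by
    rw [div_pow, one_pow, div_le_div_iff₀ h2 h3]
    linarith
  rw [pow_mul]
  exact pow_le_pow_left₀ (by positivity) h4 α

private theorem LineStep_main {α d : ℕ} (hα : 2 ≤ α) (W Wb : Submodule (ZMod 2) V) (hW : Wb ≤ W) (x0 : V)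
    (U E : Set V) (hU : ∀ x ∈ U, x - x0 ∈ W) (hU' : ∀ x ∈ U, ∀ w ∈ Wb, x + w ∈ U)
    (hE : ∀ x ∈ U, 2 ^ d * Nat.card {w : Wb // x + (w : V) ∉ E} ≤ Nat.card Wb) :
    Om V (qa α) U ≤ Om V (qa α) (U ∩ E) +
      (1 / 2 : ℝ) ^ (d * α) * (1 + qa α) ^ (Module.finrank (ZMod 2) W) := by
  obtain ⟨hq0, hq1⟩ := qa_bounds hα
  obtain ⟨C, hCW, hC0, hCs, hCf⟩ := LineStep_compl W Wb hW
  have hfin : Module.Finite (ZMod 2) V := Module.Finite.of_finite
  obtain ⟨v, hv⟩ : ∃ v, v = Module.finrank (ZMod 2) Wb := ⟨_, rfl⟩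
  have hβ : Module.finrank (ZMod 2) (Fin v → ZMod 2) = Module.finrank (ZMod 2) Wb := by
    rw [Module.finrank_fin_fun, hv]
  obtain ⟨β, -⟩ : ∃ β : (Fin v → ZMod 2) ≃ₗ[ZMod 2] Wb, True :=
    ⟨LinearEquiv.ofFinrankEq (Fin v → ZMod 2) Wb hβ, trivial⟩
  obtain ⟨L, hL⟩ : ∃ L : (C × (Fin v → ZMod 2)) →ₗ[ZMod 2] V,
      ∀ c y, L (c, y) = (c : V) + (β y : V) :=
    ⟨LinearMap.coprod C.subtype (Wb.subtype.comp β.toLinearMap), fun _ _ => rfl⟩
  have hLi : Function.Injective L := by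
    rw [← LinearMap.ker_eq_bot, LinearMap.ker_eq_bot']
    rintro ⟨c, y⟩ h
    rw [hL] at h
    have h1 : (c : V) = - (β y : V) := eq_neg_of_add_eq_zero_left h
    have h2 : (c : V) = 0 := hC0 _ c.2 (by rw [h1]; exact Wb.neg_mem (β y).2)
    have h3 : (β y : V) = 0 := by
      rw [h2, zero_add] at h
      exact h
    have h4 : β y = 0 := Subtype.ext h3
    have h5 : y = 0 := by
      have h6 := congrArg β.symm h4
      rw [LinearEquiv.symm_apply_apply, map_zero] at h6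
      exact h6
    rw [h5, show c = 0 from Subtype.ext h2]
    rfl
  have hCF : Fintype C := Fintype.ofFinite C
  obtain ⟨T, hT⟩ : ∃ T : Finset C, ∀ c : C, c ∈ T ↔ x0 + (c : V) ∈ U :=
    ⟨Finset.univ.filter fun c : C => x0 + (c : V) ∈ U, fun c => by
      rw [Finset.mem_filter]
      exact ⟨fun h => h.2, fun h => ⟨Finset.mem_univ _, h⟩⟩⟩
  obtain ⟨S, hS⟩ : ∃ S : C → Finset (Fin v → ZMod 2), ∀ c : C, S c =
      Finset.univ.filter fun y : Fin v → ZMod 2 => x0 + (c : V) + (β y : V) ∉ E := ⟨_, fun _ => rfl⟩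
  have hS' : ∀ (c : C) (y : Fin v → ZMod 2), y ∈ S c ↔ x0 + (c : V) + (β y : V) ∉ E := by
    intro c y
    rw [hS, Finset.mem_filter]
    exact ⟨fun h => h.2, fun h => ⟨Finset.mem_univ _, h⟩⟩
  have hLx : ∀ (c : C) (y : Fin v → ZMod 2), L (c, y) + x0 = x0 + (c : V) + (β y : V) := by
    intro c y
    rw [hL]
    abel
  have hfib : ∀ x ∈ U, ∃ (c : C) (y : Fin v → ZMod 2), c ∈ T ∧ L (c, y) + x0 = x := by
    intro x hx
    obtain ⟨c, hc, w, hw, h⟩ := hCs _ (hU x hx)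
    refine ⟨⟨c, hc⟩, β.symm ⟨w, hw⟩, ?_, ?_⟩
    · rw [hT]
      have h1 := hU' x hx (-w) (Wb.neg_mem hw)
      have h2 : x0 + c = x + -w := by
        rw [eq_sub_iff_add_eq] at h
        rw [← h]
        abel
      rw [← h2] at h1
      exact h1
    · rw [hL, LinearEquiv.apply_symm_apply]
      rw [eq_sub_iff_add_eq] at h
      exact h
  have ha : (fun z => L z + x0) '' {p : C × (Fin v → ZMod 2) | p.1 ∈ T} = U := by
    ext x
    constructor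
    · rintro ⟨⟨c, y⟩, hc, rfl⟩
      have h1 : x0 + (c : V) ∈ U := (hT c).1 hc
      show L (c, y) + x0 ∈ U
      rw [hLx]
      exact hU' _ h1 _ (β y).2
    · intro hx
      obtain ⟨c, y, hc, h⟩ := hfib x hx
      exact ⟨(c, y), hc, h⟩
  have hb : (fun z => L z + x0) '' {p : C × (Fin v → ZMod 2) | p.1 ∈ T ∧ p.2 ∉ S p.1} = U ∩ E := by
    ext x
    constructor
    · rintro ⟨⟨c, y⟩, ⟨hc, hy⟩, rfl⟩
      have h1 : x0 + (c : V) ∈ U := (hT c).1 hc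
      show L (c, y) + x0 ∈ U ∩ E
      rw [hLx]
      refine ⟨hU' _ h1 _ (β y).2, ?_⟩
      by_contra h2
      exact hy ((hS' c y).2 h2)
    · rintro ⟨hx, hxE⟩
      obtain ⟨c, y, hc, h⟩ := hfib x hx
      refine ⟨(c, y), ⟨hc, ?_⟩, h⟩
      intro h2
      have h3 := (hS' c y).1 h2
      rw [← hLx, h] at h3
      exact h3 hxE
  have hcard : Nat.card Wb = 2 ^ v := LineStep_card v Wb β
  have hSc : ∀ c ∈ T, 2 ^ d * (S c).card ≤ 2 ^ v := by
    intro c hc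
    have h1 := hE _ ((hT c).1 hc)
    rw [hcard] at h1
    have h2 : (S c).card = Nat.card {w : Wb // x0 + (c : V) + (w : V) ∉ E} := by
      rw [hS, ← Fintype.card_subtype, ← Nat.card_eq_fintype_card]
      exact Nat.card_congr (β.toEquiv.subtypeEquiv fun y => Iff.rfl)
    rw [h2]
    exact h1
  obtain ⟨c, hc0, hc1, hc2⟩ := marg (V := C) hq0.le hq1 T
  have hst := star hα T c hc0 hc1 v S
  rw [← Om_image L hLi x0, ← Om_image L hLi x0 {p : C × (Fin v → ZMod 2) | p.1 ∈ T ∧ p.2 ∉ S p.1},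
    ha, hb] at hst
  have h1q : (0 : ℝ) ≤ 1 + qa α := by linarith
  have hsum : ∑ t ∈ T, c t * (1 + qa α) ^ v * (((S t).card : ℝ) / 2 ^ v) ^ α ≤
      ∑ t ∈ T, c t * ((1 + qa α) ^ v * (1 / 2 : ℝ) ^ (d * α)) := by
    refine Finset.sum_le_sum fun t ht => ?_
    rw [← mul_assoc]
    exact mul_le_mul_of_nonneg_left (LineStep_pow (hSc t ht))
      (mul_nonneg (hc0 t) (pow_nonneg h1q v))
  rw [← Finset.sum_mul, hc2] at hsum
  have hT1 : Om C (qa α) (T : Set C) ≤ (1 + qa α) ^ (Module.finrank (ZMod 2) C) := by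
    rw [← Om_univ hq0.le hq1]
    exact Om_mono hq0.le hq1 (Set.subset_univ _)
  have hfinal : Om C (qa α) (T : Set C) * ((1 + qa α) ^ v * (1 / 2 : ℝ) ^ (d * α)) ≤
      (1 / 2 : ℝ) ^ (d * α) * (1 + qa α) ^ (Module.finrank (ZMod 2) W) := by
    rw [← hCf, ← hv, pow_add]
    have h5 : (0 : ℝ) ≤ (1 + qa α) ^ v * (1 / 2 : ℝ) ^ (d * α) :=
      mul_nonneg (pow_nonneg h1q v) (by positivity)
    have h6 := mul_le_mul_of_nonneg_right hT1 h5
    calc Om C (qa α) (T : Set C) * ((1 + qa α) ^ v * (1 / 2 : ℝ) ^ (d * α)) ≤ _ := h6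
      _ = _ := by ring
  linarith

theorem line_step {α d : ℕ} (hα : 2 ≤ α) (W Wb : Submodule (ZMod 2) V) (hW : Wb ≤ W) (x0 : V) (U E : Set V)
    (hU : ∀ x ∈ U, x - x0 ∈ W) (hU' : ∀ x ∈ U, ∀ w ∈ Wb, x + w ∈ U)
    (hE : ∀ x ∈ U, 2 ^ d * Nat.card {w : Wb // x + (w : V) ∉ E} ≤ Nat.card Wb) :
    Om V (qa α) (E ∪ U) ≤ Om V (qa α) E +
      (1 / 2 : ℝ) ^ (d * α) * (1 + qa α) ^ (Module.finrank (ZMod 2) W) := by
  obtain ⟨hq0, hq1⟩ := qa_bounds hα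
  have h1 := LineStep_main hα W Wb hW x0 U E hU hU' hE
  have h2 := Om_submod hq0.le hq1 E U
  rw [Set.inter_comm E U] at h2
  linarith

theorem Om_affine {α : ℕ} (hα : 2 ≤ α) (W : Submodule (ZMod 2) V) (x0 : V) (U : Set V)
    (hU : ∀ x ∈ U, x - x0 ∈ W) : Om V (qa α) U ≤ (1 + qa α) ^ (Module.finrank (ZMod 2) W) := by
  obtain ⟨hq0, hq1⟩ := qa_bounds hα
  have h1 : U ⊆ (fun w : W => W.subtype w + x0) '' (Set.univ : Set W) := by
    intro x hx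
    exact ⟨⟨x - x0, hU x hx⟩, Set.mem_univ _, sub_add_cancel x x0⟩
  have h2 := Om_mono hq0.le hq1 h1
  rw [Om_image W.subtype W.injective_subtype x0, Om_univ hq0.le hq1] at h2
  exact h2

end H96RX
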