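import Pool.Agent.H96.RX.Omega

/-!
ROW Marg (marginals and the numerical inequality; about 110 lines).  PROOF.
`marg`: induction on the finset `T` (`Finset.induction_on`).  `T = ∅`: `c = 0`, `Om_empty`.  `insert a T`, `a ∉ T`, `c` for `T`:
`c' = Function.update c a (Om (insert a T) - Om T)` (nonnegative by `Om_mono`).  Sum: `∑_(insert a T) c' = Om (insert a T) - Om T + Om T`.
Let `T' ⊆ insert a T`.  If `a ∈ T'`, `T' = insert a T''`, `T'' = T'.erase a ⊆ T`, `insert a T \ T' = T \ T''`, and
`Om (insert a T) = Om T + c' a ≤ Om (T \ T'') + ∑_T'' c + c' a`.  If `a ∉ T'`: `T' ⊆ T`; with `X = T`, `Y = insert a T \ T'`: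
`X ∪ Y = insert a T`, `X ∩ Y = T \ T'`; `Om_submod`: `Om (insert a T) + Om (T \ T') ≤ Om T + Om (insert a T \ T')`; and
`Om T ≤ Om (T \ T') + ∑_T' c`; so `Om (insert a T) ≤ Om (insert a T \ T') + ∑_T' c`; `∑_T' c' = ∑_T' c`.
`qa_bounds`: `2^α ≥ 4`.
`num_ineq` (`(2^α - 1) x^α + y^α ≤ (x+y)^α`, `0 ≤ x ≤ y`, `α ≥ 1`): induction on `α`:
`(x+y)^(α+1) ≥ (x+y) ((2^α-1) x^α + y^α) = (2^α-1) x^(α+1) + (2^α-1) x^α y + x y^α + y^(α+1)
≥ (2^α-1) x^(α+1) + (2^α-1) x^(α+1) + x^(α+1) + y^(α+1)` as `y ≥ x`.
`num_step`: `q = qa α`, `1 + q = 2^α q`; `(1+q) ((x+y)/2)^α = q (x+y)^α ≥ q ((2^α-1) x^α + y^α) = x^α + q y^α`.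
`one_add_qa`: `(1 + qa α) * (1 - (1/2)^α) = 1`.
-/

set_option autoImplicit false
open scoped Classical

namespace H96RX

theorem qa_bounds {α : ℕ} (hα : 2 ≤ α) : 0 < qa α ∧ qa α < 1 := by
  have h : (4 : ℝ) ≤ 2 ^ α := by
    calc (4 : ℝ) = 2 ^ 2 := by norm_num
      _ ≤ 2 ^ α := pow_le_pow_right₀ (by norm_num) hα
  unfold qa
  have h3 : (0 : ℝ) < 2 ^ α - 1 := by linarith
  refine ⟨div_pos one_pos h3, ?_⟩
  rw [div_lt_one h3]
  linarith

private theorem Marg_two_pow {α : ℕ} (hα : 1 ≤ α) : (2 : ℝ) ≤ 2 ^ α := by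
  calc (2 : ℝ) = 2 ^ 1 := by norm_num
    _ ≤ 2 ^ α := pow_le_pow_right₀ (by norm_num) hα

private theorem Marg_qa {α : ℕ} (hα : 1 ≤ α) : 1 + qa α = 2 ^ α * qa α := by
  have h := Marg_two_pow hα
  have h3 : (2 : ℝ) ^ α - 1 ≠ 0 := by
    intro h0
    linarith
  unfold qa
  field_simp
  ring

theorem one_add_qa {α : ℕ} (hα : 1 ≤ α) : (1 + qa α) * (1 - (1 / 2 : ℝ) ^ α) = 1 := by
  have h := Marg_two_pow hα
  have h3 : (2 : ℝ) ^ α - 1 ≠ 0 := by
    intro h0
    linarith
  have h4 : (2 : ℝ) ^ α ≠ 0 := by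
    intro h0
    linarith
  have h5 : (1 / 2 : ℝ) ^ α = 1 / 2 ^ α := by
    rw [div_pow, one_pow]
  rw [h5]
  unfold qa
  field_simp
  ring

theorem num_ineq {α : ℕ} (hα : 1 ≤ α) {x y : ℝ} (hx : 0 ≤ x) (hxy : x ≤ y) :
    (2 ^ α - 1) * x ^ α + y ^ α ≤ (x + y) ^ α := by
  induction α, hα using Nat.le_induction with
  | base => norm_num
  | succ n hn ih =>
    have hy : 0 ≤ y := hx.trans hxy
    have h2 : (1 : ℝ) ≤ 2 ^ n := one_le_pow₀ (by norm_num)
    have h2n : (2 : ℝ) ≤ 2 ^ n := Marg_two_pow hn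
    have hxn : 0 ≤ x ^ n := pow_nonneg hx n
    have hyn : x ^ n ≤ y ^ n := pow_le_pow_left₀ hx hxy n
    have h3 : (x + y) * ((2 ^ n - 1) * x ^ n + y ^ n) ≤ (x + y) * (x + y) ^ n :=
      mul_le_mul_of_nonneg_left ih (add_nonneg hx hy)
    have h4 : 0 ≤ (2 ^ n - 1) * x ^ n * (y - x) :=
      mul_nonneg (mul_nonneg (by linarith) hxn) (by linarith)
    have h5 : 0 ≤ x * (y ^ n - x ^ n) := mul_nonneg hx (by linarith)
    have e1 : (x + y) * (x + y) ^ n = (x + y) ^ (n + 1) := by ring
    have e2 : (x + y) * ((2 ^ n - 1) * x ^ n + y ^ n) - ((2 ^ (n + 1) - 1) * x ^ (n + 1) + y ^ (n + 1)) =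
        (2 ^ n - 1) * x ^ n * (y - x) + x * (y ^ n - x ^ n) := by ring
    linarith

theorem num_step {α : ℕ} (hα : 1 ≤ α) {x y : ℝ} (hx : 0 ≤ x) (hxy : x ≤ y) :
    x ^ α + qa α * y ^ α ≤ (1 + qa α) * ((x + y) / 2) ^ α := by
  have h := Marg_two_pow hα
  have h3 : (0 : ℝ) < 2 ^ α - 1 := by linarith
  have h4 : (2 : ℝ) ^ α ≠ 0 := by
    intro h0
    linarith
  have hq : qa α * (2 ^ α - 1) = 1 := by
    unfold qa
    rw [one_div, inv_mul_cancel₀ h3.ne']
  have hq0 : 0 ≤ qa α := by
    unfold qa
    exact (div_pos one_pos h3).le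
  have e1 : (1 + qa α) * ((x + y) / 2) ^ α = qa α * (x + y) ^ α := by
    rw [Marg_qa hα, div_pow]
    field_simp
  have e2 := mul_le_mul_of_nonneg_left (num_ineq hα hx hxy) hq0
  have e3 : qa α * ((2 ^ α - 1) * x ^ α + y ^ α) = (qa α * (2 ^ α - 1)) * x ^ α + qa α * y ^ α := by ring
  rw [e1]
  rw [e3, hq, one_mul] at e2
  exact e2

variable {V : Type} [AddCommGroup V] [Module (ZMod 2) V] [Finite V] {q : ℝ}

theorem marg (h0 : 0 ≤ q) (h1 : q < 1) (T : Finset V) :
    ∃ c : V → ℝ, (∀ t, 0 ≤ c t) ∧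
      (∀ T' ⊆ T, Om V q (T : Set V) ≤ Om V q ((T \ T' : Finset V) : Set V) + ∑ t ∈ T', c t) ∧
      ∑ t ∈ T, c t = Om V q (T : Set V) := by
  induction T using Finset.induction_on with
  | empty =>
    refine ⟨fun _ => 0, fun _ => le_rfl, ?_, ?_⟩
    · intro T' hT'
      rw [Finset.subset_empty.mp hT']
      simp
    · rw [Finset.sum_empty, Finset.coe_empty, Om_empty]
  | insert a T ha ih =>
    obtain ⟨c, hc0, hc1, hc2⟩ := ih
    have hmono : Om V q (T : Set V) ≤ Om V q ((insert a T : Finset V) : Set V) :=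
      Om_mono h0 h1 (by
        intro x hx
        exact Finset.mem_coe.mpr (Finset.mem_insert_of_mem (Finset.mem_coe.mp hx)))
    have hsum : ∀ S : Finset V, S ⊆ T →
        ∑ t ∈ S, Function.update c a (Om V q ((insert a T : Finset V) : Set V) - Om V q (T : Set V)) t =
          ∑ t ∈ S, c t := by
      intro S hS
      refine Finset.sum_congr rfl fun t ht => ?_
      have hta : t ≠ a := by
        rintro rfl
        exact ha (hS ht)
      rw [Function.update_of_ne hta]
    refine ⟨Function.update c a (Om V q ((insert a T : Finset V) : Set V) - Om V q (T : Set V)),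
      ?_, ?_, ?_⟩
    · intro t
      by_cases hta : t = a
      · subst hta
        rw [Function.update_self]
        linarith
      · rw [Function.update_of_ne hta]
        exact hc0 t
    · intro T' hT'
      by_cases haT : a ∈ T'
      · have hsub : T'.erase a ⊆ T := by
          intro x hx
          have hx' := Finset.mem_erase.mp hx
          rcases Finset.mem_insert.mp (hT' hx'.2) with h | h
          · exact absurd h hx'.1
          · exact h
        have hdiff : insert a T \ T' = T \ T'.erase a := by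
          ext x
          simp only [Finset.mem_sdiff, Finset.mem_insert, Finset.mem_erase]
          constructor
          · rintro ⟨h | h, h'⟩
            · subst h
              exact absurd haT h'
            · exact ⟨h, fun h'' => h' h''.2⟩
          · rintro ⟨h, h'⟩
            refine ⟨Or.inr h, fun h'' => h' ⟨?_, h''⟩⟩
            rintro rfl
            exact ha h
        rw [hdiff, ← Finset.add_sum_erase T' _ haT, hsum _ hsub, Function.update_self]
        have := hc1 _ hsub
        linarith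
      · have hsub : T' ⊆ T := by
          intro x hx
          rcases Finset.mem_insert.mp (hT' hx) with h | h
          · subst h
            exact absurd hx haT
          · exact h
        rw [hsum _ hsub]
        have hU : (T : Set V) ∪ ((insert a T \ T' : Finset V) : Set V) =
            ((insert a T : Finset V) : Set V) := by
          rw [← Finset.coe_union]
          congr 1
          ext x
          simp only [Finset.mem_union, Finset.mem_sdiff, Finset.mem_insert]
          constructor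
          · rintro (h | h)
            · exact Or.inr h
            · exact h.1
          · rintro (h | h)
            · subst h
              exact Or.inr ⟨Or.inl rfl, haT⟩
            · exact Or.inl h
        have hI : (T : Set V) ∩ ((insert a T \ T' : Finset V) : Set V) =
            ((T \ T' : Finset V) : Set V) := by
          rw [← Finset.coe_inter]
          congr 1
          ext x
          simp only [Finset.mem_inter, Finset.mem_sdiff, Finset.mem_insert]
          constructor
          · rintro ⟨h, _, h'⟩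
            exact ⟨h, h'⟩
          · rintro ⟨h, h'⟩
            exact ⟨h, Or.inr h, h'⟩
        have hs := Om_submod (V := V) h0 h1 (T : Set V) ((insert a T \ T' : Finset V) : Set V)
        rw [hU, hI] at hs
        have := hc1 T' hsub
        linarith
    · rw [Finset.sum_insert ha, hsum T (Finset.Subset.refl T), Function.update_self, hc2]
      ring

end H96RX
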