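import Mathlib

/-!
ROW Num (numerics; about 110 lines).  PROOF.
`num_G`: `(1 - (1/2)^α)^m ≤ (exp (-(1/2)^α))^m = exp (-(m (1/2)^α)) ≤ exp (-(d α)) ≤ (1/2)^(d α)` (`Real.one_sub_le_exp_neg`; `m ≥ 2^α d α`;
`exp (-1) ≤ 1/2` since `exp 1 ≥ 2`: `Real.add_one_le_exp 1`).  So `1 ≤ N * (2 (1/2)^(dα))`, `2^(dα) ≤ 2 N`.
`num_bp` (`l ≥ 512`): take `d = 7 * l / 16`, `α = l / 5`, `r = 2 ^ (l/4) - s` (natural division).  `s ≤ 2^(l/5) ≤ 2^(l/4 - 1)` so `s ≤ r`, `r + s = 2^(l/4)`, `r ≥ 2^(l/4 - 1)`.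
`f (r+s)^2 2^d ≤ 2^(l/16 + 2 (l/4) + 7l/16) ≤ 2^l` (omega for the exponents).  `2^α (d α) ≤ 2^(l/4 - 1)`: `d α ≤ l^2`, and `l^2 ≤ 2^(l/4 - 1 - l/5)`: put `u = l/20` (natural division),
`l/4 - 1 - l/5 ≥ u - 2` (omega), `l ≤ 20 u + 19`, `u ≥ 25`, and `(20 u + 19)^2 ≤ 2^(u-2)` for `u ≥ 25` by induction (`Nat.le_induction`; base `519^2 = 269361 ≤ 2^23`).
`l^2 + 12 ≤ 12 d α`: `16 d ≥ 7 l - 15`, `5 α ≥ l - 4`; `960 d α ≥ 12 (7l-15)(l-4)·…` i.e. `12 d α = 12 (16 d)(5 α)/80 ≥ 12 (7 l - 15)(l - 4)/80 ≥ l^2 + 12` for `l ≥ 512`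
(`12*7/80 = 1.05`; nlinarith).
-/

set_option autoImplicit false
open scoped Classical

namespace H96RX

theorem num_G {N m d α : ℕ} (h : 1 ≤ (N : ℝ) * ((1 - (1 / 2 : ℝ) ^ α) ^ m + (1 / 2 : ℝ) ^ (d * α)))
    (hm : 2 ^ α * (d * α) ≤ m) : 2 ^ (d * α) ≤ 2 * N := by
  have hp : (0 : ℝ) < (1 / 2 : ℝ) ^ α := by positivity
  have hp1 : (1 / 2 : ℝ) ^ α ≤ 1 := pow_le_one₀ (by norm_num) (by norm_num)
  have h1 : (1 - (1 / 2 : ℝ) ^ α) ^ m ≤ (Real.exp (-((1 / 2 : ℝ) ^ α))) ^ m := by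
    apply pow_le_pow_left₀
    · linarith
    · have := Real.one_sub_le_exp_neg ((1 / 2 : ℝ) ^ α)
      exact this
  have h2 : (Real.exp (-((1 / 2 : ℝ) ^ α))) ^ m = Real.exp (-((m : ℝ) * (1 / 2 : ℝ) ^ α)) := by
    rw [← Real.exp_nat_mul]
    congr 1
    ring
  have hmR : (2 : ℝ) ^ α * ((d * α : ℕ) : ℝ) ≤ (m : ℝ) := by exact_mod_cast hm
  have h3 : ((d * α : ℕ) : ℝ) ≤ (m : ℝ) * (1 / 2 : ℝ) ^ α := by
    have e : (2 : ℝ) ^ α * (1 / 2 : ℝ) ^ α = 1 := by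
      rw [← mul_pow]
      norm_num
    calc ((d * α : ℕ) : ℝ) = ((2 : ℝ) ^ α * ((d * α : ℕ) : ℝ)) * (1 / 2 : ℝ) ^ α := by
          rw [mul_right_comm, e, one_mul]
      _ ≤ (m : ℝ) * (1 / 2 : ℝ) ^ α := mul_le_mul_of_nonneg_right hmR hp.le
  have h4 : Real.exp (-((m : ℝ) * (1 / 2 : ℝ) ^ α)) ≤ Real.exp (-((d * α : ℕ) : ℝ)) := by
    apply Real.exp_le_exp.mpr
    linarith
  have h5 : Real.exp (-((d * α : ℕ) : ℝ)) ≤ (1 / 2 : ℝ) ^ (d * α) := by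
    have e1 : Real.exp (-((d * α : ℕ) : ℝ)) = (Real.exp (-1)) ^ (d * α) := by
      rw [← Real.exp_nat_mul]
      congr 1
      ring
    rw [e1]
    apply pow_le_pow_left₀ (Real.exp_pos _).le
    have e2 : (2 : ℝ) ≤ Real.exp 1 := by
      have := Real.add_one_le_exp (1 : ℝ)
      linarith
    rw [Real.exp_neg, one_div]
    exact inv_anti₀ (by norm_num) e2
  have h6 : (1 - (1 / 2 : ℝ) ^ α) ^ m ≤ (1 / 2 : ℝ) ^ (d * α) := by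
    calc (1 - (1 / 2 : ℝ) ^ α) ^ m ≤ _ := h1
      _ = _ := h2
      _ ≤ _ := h4
      _ ≤ _ := h5
  have hN : (0 : ℝ) ≤ (N : ℝ) := Nat.cast_nonneg N
  have h7 : 1 ≤ (N : ℝ) * (2 * (1 / 2 : ℝ) ^ (d * α)) := by
    refine h.trans (mul_le_mul_of_nonneg_left ?_ hN)
    linarith
  have e3 : (1 / 2 : ℝ) ^ (d * α) * (2 : ℝ) ^ (d * α) = 1 := by
    rw [← mul_pow]
    norm_num
  have h8 : (2 : ℝ) ^ (d * α) ≤ 2 * (N : ℝ) := by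
    have h9 := mul_le_mul_of_nonneg_right h7 (show (0 : ℝ) ≤ (2 : ℝ) ^ (d * α) by positivity)
    calc (2 : ℝ) ^ (d * α) = 1 * (2 : ℝ) ^ (d * α) := (one_mul _).symm
      _ ≤ (N : ℝ) * (2 * (1 / 2 : ℝ) ^ (d * α)) * (2 : ℝ) ^ (d * α) := h9
      _ = 2 * (N : ℝ) * ((1 / 2 : ℝ) ^ (d * α) * (2 : ℝ) ^ (d * α)) := by ring
      _ = 2 * (N : ℝ) := by rw [e3, mul_one]
  exact_mod_cast h8

private theorem Num_pow_aux (u : ℕ) (hu : 25 ≤ u) : (20 * u + 19) ^ 2 ≤ 2 ^ (u - 2) := by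
  induction u, hu using Nat.le_induction with
  | base => norm_num
  | succ u hu ih =>
    have e : u + 1 - 2 = (u - 2) + 1 := by omega
    rw [e, pow_succ]
    have h1 : (20 * (u + 1) + 19) ^ 2 ≤ 2 * (20 * u + 19) ^ 2 := by nlinarith
    calc (20 * (u + 1) + 19) ^ 2 ≤ 2 * (20 * u + 19) ^ 2 := h1
      _ ≤ 2 * 2 ^ (u - 2) := Nat.mul_le_mul_left 2 ih
      _ = 2 ^ (u - 2) * 2 := Nat.mul_comm _ _

theorem num_bp {l f s : ℕ} (hl : 512 ≤ l) (hf : f ≤ 2 ^ (l / 16)) (hs : s ≤ 2 ^ (l / 5)) :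
    ∃ r d α : ℕ, 1 ≤ r ∧ 2 ≤ α ∧ f * (r + s) ^ 2 * 2 ^ d ≤ 2 ^ l ∧ 2 ^ α * (d * α) ≤ r ∧ l ^ 2 + 12 ≤ 12 * (d * α) := by
  have hs1 : s ≤ 2 ^ (l / 4 - 1) := hs.trans (Nat.pow_le_pow_right (by norm_num) (by omega))
  have hdbl : 2 ^ (l / 4) = 2 ^ (l / 4 - 1) + 2 ^ (l / 4 - 1) := by
    have e : l / 4 = (l / 4 - 1) + 1 := by omega
    calc 2 ^ (l / 4) = 2 ^ ((l / 4 - 1) + 1) := by rw [← e]
      _ = 2 ^ (l / 4 - 1) + 2 ^ (l / 4 - 1) := by rw [pow_succ]; ring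
  have hr : 2 ^ (l / 4 - 1) ≤ 2 ^ (l / 4) - s := by omega
  have hrs : 2 ^ (l / 4) - s + s = 2 ^ (l / 4) := by omega
  have hpos : 1 ≤ 2 ^ (l / 4 - 1) := Nat.one_le_two_pow
  refine ⟨2 ^ (l / 4) - s, 7 * l / 16, l / 5, by omega, by omega, ?_, ?_, ?_⟩
  · rw [hrs]
    calc f * (2 ^ (l / 4)) ^ 2 * 2 ^ (7 * l / 16)
        ≤ 2 ^ (l / 16) * (2 ^ (l / 4)) ^ 2 * 2 ^ (7 * l / 16) :=
          Nat.mul_le_mul_right _ (Nat.mul_le_mul_right _ hf)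
      _ = 2 ^ (l / 16 + l / 4 * 2 + 7 * l / 16) := by rw [← pow_mul, ← pow_add, ← pow_add]
      _ ≤ 2 ^ l := Nat.pow_le_pow_right (by norm_num) (by omega)
  · have h1 : 7 * l / 16 * (l / 5) ≤ l ^ 2 := by
      have a1 : 7 * l / 16 ≤ l := by omega
      have a2 : l / 5 ≤ l := by omega
      calc 7 * l / 16 * (l / 5) ≤ l * l := Nat.mul_le_mul a1 a2
        _ = l ^ 2 := by ring
    have h2 : l ^ 2 ≤ 2 ^ (l / 4 - 1 - l / 5) := by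
      have hu : 25 ≤ l / 20 := by omega
      have a1 : l ≤ 20 * (l / 20) + 19 := by omega
      calc l ^ 2 ≤ (20 * (l / 20) + 19) ^ 2 := Nat.pow_le_pow_left a1 2
        _ ≤ 2 ^ (l / 20 - 2) := Num_pow_aux _ hu
        _ ≤ 2 ^ (l / 4 - 1 - l / 5) := Nat.pow_le_pow_right (by norm_num) (by omega)
    calc 2 ^ (l / 5) * (7 * l / 16 * (l / 5)) ≤ 2 ^ (l / 5) * 2 ^ (l / 4 - 1 - l / 5) :=
          Nat.mul_le_mul_left _ (h1.trans h2)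
      _ = 2 ^ (l / 5 + (l / 4 - 1 - l / 5)) := by rw [← pow_add]
      _ = 2 ^ (l / 4 - 1) := by
          congr 1
          omega
      _ ≤ 2 ^ (l / 4) - s := hr
  · generalize hd : 7 * l / 16 = d
    generalize ha : l / 5 = a
    have h1 : 7 * l ≤ 16 * d + 15 := by omega
    have h2 : l ≤ 5 * a + 4 := by omega
    obtain ⟨t, ht⟩ := Nat.exists_eq_add_of_le hl
    have h3 : 7 * t + 3569 ≤ 16 * d := by omega
    have h4 : t + 508 ≤ 5 * a := by omega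
    have h5 : (7 * t + 3569) * (t + 508) ≤ 16 * d * (5 * a) := Nat.mul_le_mul h3 h4
    have h6 : l ^ 2 = t * t + 1024 * t + 262144 := by rw [ht]; ring
    have h7 : (7 * t + 3569) * (t + 508) = 7 * (t * t) + 7125 * t + 1813052 := by ring
    have h8 : 16 * d * (5 * a) = 80 * (d * a) := by ring
    omega

end H96RX
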