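import Pool.Agent.H96.RX.Sec
import Pool.Agent.H96.RX.Img

/-!
ROW Omega (properties of `Om`; about 150 lines).  PROOF.  For `0 ≤ q < 1` the series `∑ q^D rk V D T` is summable: `rk ≤ Nat.card V` (`rk_le`),
`Summable.of_nonneg_of_le` with `(summable_geometric_of_lt_one h0 h1).mul_right _`  (`om_summable`).
`Om_submod`, `Om_mono`, `Om_nonneg`, `Om_empty`: termwise from `rk_submod`, `rk_mono`, `rk_empty`
(`Summable.tsum_add`, `Summable.tsum_le_tsum`, `mul_le_mul_of_nonneg_left`, `1 - q ≥ 0`).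
`Om_section`: `∑' D, q^D r_D = r_0 + q ∑' D, q^D r_(D+1)` (`Summable.tsum_eq_zero_add`, `pow_succ`, `tsum_mul_left`); with
`r_0(E) ≥ r_0(E₀∪E₁)` (`rk_section_zero`) and `r_(D+1)(E) ≥ r_(D+1)(E₀∪E₁) + r_D(E₀∩E₁)` (`rk_section`):
`∑ q^D r_D(E) ≥ ∑ q^D r_D(E₀∪E₁) + q ∑ q^D r_D(E₀∩E₁)`; multiply by `1 - q`.
`Om_prod`: the same with `rk_prod_zero`, `rk_prod`.
`Om_image`: termwise `rk_image`.
`Om_singleton`: `(1 - q) ∑ q^D = 1` (`tsum_geometric_of_lt_one`), `rk_singleton`.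
-/

set_option autoImplicit false
open scoped Classical

namespace H96RX

variable {V V' : Type} [AddCommGroup V] [Module (ZMod 2) V] [Finite V]
  [AddCommGroup V'] [Module (ZMod 2) V'] [Finite V'] {q : ℝ}

theorem om_summable (h0 : 0 ≤ q) (h1 : q < 1) (T : Set V) : Summable (fun D : ℕ => q ^ D * (rk V D T : ℝ)) := by
  refine Summable.of_nonneg_of_le
    (fun D => mul_nonneg (pow_nonneg h0 D) (Nat.cast_nonneg _)) (fun D => ?_)
    ((summable_geometric_of_lt_one h0 h1).mul_right (Nat.card V : ℝ))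
  exact mul_le_mul_of_nonneg_left (by exact_mod_cast rk_le D T) (pow_nonneg h0 D)

private theorem Omega_summable' (h0 : 0 ≤ q) (h1 : q < 1) (T : Set V) :
    Summable (fun D : ℕ => q ^ D * (rk V (D + 1) T : ℝ)) := by
  refine Summable.of_nonneg_of_le
    (fun D => mul_nonneg (pow_nonneg h0 D) (Nat.cast_nonneg _)) (fun D => ?_)
    ((summable_geometric_of_lt_one h0 h1).mul_right (Nat.card V : ℝ))
  exact mul_le_mul_of_nonneg_left (by exact_mod_cast rk_le (D + 1) T) (pow_nonneg h0 D)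

private theorem Omega_split (h0 : 0 ≤ q) (h1 : q < 1) (T : Set V) :
    ∑' D : ℕ, q ^ D * (rk V D T : ℝ) =
      rk V 0 T + q * ∑' D : ℕ, q ^ D * (rk V (D + 1) T : ℝ) := by
  rw [(om_summable h0 h1 T).tsum_eq_zero_add, pow_zero, one_mul, ← tsum_mul_left]
  congr 1
  refine tsum_congr fun D => ?_
  rw [pow_succ]
  ring

theorem Om_submod (h0 : 0 ≤ q) (h1 : q < 1) (S T : Set V) :
    Om V q (S ∪ T) + Om V q (S ∩ T) ≤ Om V q S + Om V q T := by
  have hS := om_summable h0 h1 S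
  have hT := om_summable h0 h1 T
  have hU := om_summable h0 h1 (S ∪ T)
  have hI := om_summable h0 h1 (S ∩ T)
  unfold Om
  rw [← mul_add, ← mul_add]
  refine mul_le_mul_of_nonneg_left ?_ (by linarith)
  rw [← hU.tsum_add hI, ← hS.tsum_add hT]
  refine Summable.tsum_le_tsum (fun D => ?_) (hU.add hI) (hS.add hT)
  have h := rk_submod D S T
  have h' : (rk V D (S ∪ T) : ℝ) + rk V D (S ∩ T) ≤ rk V D S + rk V D T := by exact_mod_cast h
  rw [← mul_add, ← mul_add]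
  exact mul_le_mul_of_nonneg_left h' (pow_nonneg h0 D)

theorem Om_mono (h0 : 0 ≤ q) (h1 : q < 1) {S T : Set V} (h : S ⊆ T) : Om V q S ≤ Om V q T := by
  unfold Om
  refine mul_le_mul_of_nonneg_left ?_ (by linarith)
  refine Summable.tsum_le_tsum (fun D => ?_) (om_summable h0 h1 S) (om_summable h0 h1 T)
  have h' : (rk V D S : ℝ) ≤ rk V D T := by exact_mod_cast rk_mono D h
  exact mul_le_mul_of_nonneg_left h' (pow_nonneg h0 D)

theorem Om_nonneg (h0 : 0 ≤ q) (h1 : q < 1) (T : Set V) : 0 ≤ Om V q T := by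
  unfold Om
  refine mul_nonneg (by linarith) (tsum_nonneg fun D => ?_)
  exact mul_nonneg (pow_nonneg h0 D) (Nat.cast_nonneg _)

theorem Om_empty : Om V q (∅ : Set V) = 0 := by
  unfold Om
  have h : ∀ D : ℕ, q ^ D * (rk V D (∅ : Set V) : ℝ) = 0 := fun D => by
    rw [rk_empty, Nat.cast_zero, mul_zero]
  rw [tsum_congr h, tsum_zero, mul_zero]

theorem Om_section (h0 : 0 ≤ q) (h1 : q < 1) (E : Set (V × ZMod 2)) :
    Om V q ({x | (x, (0 : ZMod 2)) ∈ E} ∪ {x | (x, (1 : ZMod 2)) ∈ E}) +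
      q * Om V q ({x | (x, (0 : ZMod 2)) ∈ E} ∩ {x | (x, (1 : ZMod 2)) ∈ E}) ≤ Om (V × ZMod 2) q E := by
  obtain ⟨A, hA⟩ : ∃ A : Set V,
    A = {x | (x, (0 : ZMod 2)) ∈ E} ∪ {x | (x, (1 : ZMod 2)) ∈ E} := ⟨_, rfl⟩
  obtain ⟨B, hB⟩ : ∃ B : Set V,
    B = {x | (x, (0 : ZMod 2)) ∈ E} ∩ {x | (x, (1 : ZMod 2)) ∈ E} := ⟨_, rfl⟩
  rw [← hA, ← hB]
  have hs : ∀ D : ℕ, (rk V (D + 1) A : ℝ) + rk V D B ≤ rk (V × ZMod 2) (D + 1) E := by
    intro D
    have h := rk_section D E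
    rw [← hA, ← hB] at h
    exact_mod_cast h
  have h00 : (rk V 0 A : ℝ) ≤ rk (V × ZMod 2) 0 E := by
    have h := rk_section_zero E
    rw [← hA] at h
    exact_mod_cast h
  have sA := Omega_summable' h0 h1 A
  have sB := om_summable h0 h1 B
  have sE := Omega_summable' h0 h1 E
  have key : ∑' D : ℕ, q ^ D * (rk V (D + 1) A : ℝ) + ∑' D : ℕ, q ^ D * (rk V D B : ℝ) ≤
      ∑' D : ℕ, q ^ D * (rk (V × ZMod 2) (D + 1) E : ℝ) := by
    rw [← sA.tsum_add sB]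
    refine Summable.tsum_le_tsum (fun D => ?_) (sA.add sB) sE
    rw [← mul_add]
    exact mul_le_mul_of_nonneg_left (hs D) (pow_nonneg h0 D)
  unfold Om
  rw [Omega_split h0 h1 A, Omega_split h0 h1 E]
  have h2 := mul_le_mul_of_nonneg_left key h0
  have h3 : (0 : ℝ) ≤ 1 - q := by linarith
  rw [show (1 - q) * (rk V 0 A + q * ∑' D : ℕ, q ^ D * (rk V (D + 1) A : ℝ)) +
      q * ((1 - q) * ∑' D : ℕ, q ^ D * (rk V D B : ℝ)) =
      (1 - q) * (rk V 0 A + q * (∑' D : ℕ, q ^ D * (rk V (D + 1) A : ℝ) +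
        ∑' D : ℕ, q ^ D * (rk V D B : ℝ))) by ring]
  refine mul_le_mul_of_nonneg_left ?_ h3
  linarith

theorem Om_prod (h0 : 0 ≤ q) (h1 : q < 1) (T : Set V) :
    Om (V × ZMod 2) q {p | p.1 ∈ T} ≤ (1 + q) * Om V q T := by
  obtain ⟨E, hE⟩ : ∃ E : Set (V × ZMod 2), E = {p | p.1 ∈ T} := ⟨_, rfl⟩
  have hs : ∀ D : ℕ, (rk (V × ZMod 2) (D + 1) E : ℝ) ≤ rk V (D + 1) T + rk V D T := by
    intro D
    have h := rk_prod D T
    rw [← hE] at h
    exact_mod_cast h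
  have h00 : (rk (V × ZMod 2) 0 E : ℝ) ≤ rk V 0 T := by
    have h := rk_prod_zero T
    rw [← hE] at h
    exact_mod_cast h
  rw [← hE]
  have sA := Omega_summable' h0 h1 T
  have sB := om_summable h0 h1 T
  have sE := Omega_summable' h0 h1 E
  have key : ∑' D : ℕ, q ^ D * (rk (V × ZMod 2) (D + 1) E : ℝ) ≤
      ∑' D : ℕ, q ^ D * (rk V (D + 1) T : ℝ) + ∑' D : ℕ, q ^ D * (rk V D T : ℝ) := by
    rw [← sA.tsum_add sB]
    refine Summable.tsum_le_tsum (fun D => ?_) sE (sA.add sB)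
    rw [← mul_add]
    exact mul_le_mul_of_nonneg_left (hs D) (pow_nonneg h0 D)
  unfold Om
  rw [Omega_split h0 h1 E]
  have h2 := mul_le_mul_of_nonneg_left key h0
  have h3 : (0 : ℝ) ≤ 1 - q := by linarith
  have h4 := Omega_split h0 h1 T
  rw [show (1 + q) * ((1 - q) * ∑' D : ℕ, q ^ D * (rk V D T : ℝ)) =
      (1 - q) * (∑' D : ℕ, q ^ D * (rk V D T : ℝ) + q * ∑' D : ℕ, q ^ D * (rk V D T : ℝ)) by ring]
  refine mul_le_mul_of_nonneg_left ?_ h3
  linarith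

theorem Om_image (L : V →ₗ[ZMod 2] V') (hL : Function.Injective L) (b : V') (S : Set V) :
    Om V' q ((fun x => L x + b) '' S) = Om V q S := by
  unfold Om
  congr 1
  refine tsum_congr fun D => ?_
  rw [rk_image D L hL b S]

theorem Om_singleton (h0 : 0 ≤ q) (h1 : q < 1) (x : V) : Om V q {x} = 1 := by
  unfold Om
  have h : ∀ D : ℕ, q ^ D * (rk V D ({x} : Set V) : ℝ) = q ^ D := fun D => by
    rw [rk_singleton, Nat.cast_one, mul_one]
  rw [tsum_congr h, tsum_geometric_of_lt_one h0 h1]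
  have : (1 - q) ≠ 0 := by linarith
  exact mul_inv_cancel₀ this

end H96RX
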