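import Pool.Agent.H96.RX.CnfCore
import Pool.Agent.H96.RX.Dich
import Pool.Agent.H62.RC.Prp

/-!
ROW RandDet (from a refutation of an expanding `k`-CNF to `cnf_core`; about 90 lines).  PROOF.  Apply `cnf_core` with `ι = Fin M`, `S j = univ.image (Φ j).1`,
`σ j t = if ∃ i, (Φ j).1 i = t ∧ (Φ j).2 i = false then 1 else 0`, `c0 = 30 κ`, `γ = κ`, `B = W`, `mb = r`, `A i = {x | ¬ (l i).Holds (toB x)}`.
* `hexp`: `31 (k |J|) ≤ 32 |vars Φ J|` (`ExpOK`), `vars Φ J = J.biUnion S` by definition; `(30κ + κ) |J| * 32 ≤ 31 k |J|`.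
* `hA`: `dichotomy (m := r)`; `Fintype.card (Fin n) = n`; `r + s ≤ κ W`.
* `hline`: if the line is implied by `C = (Φ j).toClause`: for `x ∈ A i`, `C` is false at `toB x`: for every `i'`, `decide (x ((Φ j).1 i') = 1) ≠ (Φ j).2 i'`; so for
  `t = (Φ j).1 i'`: if `(Φ j).2 i' = false` then `x t = 1 = σ j t`; if `true` then `x t ≠ 1`, `x t = 0`, and `σ j t = 0` because `(Φ j).1` is injective.
  If it is implied by the lines in `J`: a false line `i` at `toB x` makes some line `j ∈ J` false at `toB x`.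
* `hlast`: `i = N - 1`.
-/

set_option autoImplicit false
open scoped Classical

namespace H96RX

open ParityResolution

theorem rand_det {n k M W : ℕ} (Φ : Fin M → LovaszSchrijver.KClause n k) (hE : H62RC.ExpOK Φ W)
    {κ s f N r d α : ℕ} (h32 : 32 * κ ≤ k) (hκ : 1 ≤ κ) (hW : 1 ≤ W) (hr : 1 ≤ r) (hrs : r + s ≤ κ * W) (hα : 2 ≤ α)
    (hun : f * W * 2 ^ d ≤ 2 ^ (30 * κ + 1)) (h : Refutes s f (LovaszSchrijver.clauses Φ) N) :
    1 ≤ (N : ℝ) * ((1 - (1 / 2 : ℝ) ^ α) ^ r + (1 / 2 : ℝ) ^ (d * α)) := by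
  obtain ⟨l, hN, hlast, hl⟩ := h
  refine cnf_core (ι := Fin M) (fun j => Finset.univ.image (Φ j).1)
    (fun j t => if ∃ i, (Φ j).1 i = t ∧ (Φ j).2 i = false then 1 else 0)
    (c0 := 30 * κ) (γ := κ) (B := W) (mb := r) hκ hW hα ?_ hun
    (fun i => {x | ¬ (l i).Holds (toB x)}) ?_ ?_ ?_
  · intro J hJ
    have h1 := hE J hJ
    have h2 : H62RC.vars Φ J = J.biUnion (fun j => Finset.univ.image (Φ j).1) := rfl
    rw [h2] at h1
    have h3 : 32 * κ * J.card ≤ k * J.card := Nat.mul_le_mul_right _ h32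
    have h4 : 32 * ((30 * κ + κ) * J.card) = 31 * (32 * κ * J.card) := by ring
    omega
  · intro i hi
    rcases dichotomy (m := r) hr (l i) with ⟨V, x0, h1, h2⟩ | ⟨V, h1, h2⟩
    · left
      rw [Fintype.card_fin] at h2
      exact ⟨V, x0, h1, h2⟩
    · right
      rw [Fintype.card_fin] at h2
      exact ⟨V, fun x hx w hw => h1 x hx w hw, lt_of_lt_of_le h2 (Nat.add_le_add_left hrs _)⟩
  · intro i hi
    rcases hl i hi with ⟨C, hC, h1⟩ | ⟨J, hJ, hJi, h1⟩
    · left
      obtain ⟨j, rfl⟩ := hC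
      refine ⟨j, fun x hx t ht => ?_⟩
      have h2 : ¬ ParityResolution.Clause.Holds (Φ j).toClause (toB x) := fun h' => hx (h1 _ h')
      obtain ⟨i', -, rfl⟩ := Finset.mem_image.1 ht
      have h3 : toB x ((Φ j).1 i') ≠ (Φ j).2 i' := fun h' => h2 ⟨((Φ j).1 i', (Φ j).2 i'), ⟨i', rfl⟩, h'⟩
      unfold toB at h3
      by_cases h4 : (Φ j).2 i' = false
      · rw [if_pos ⟨i', rfl, h4⟩]
        rw [h4] at h3
        by_contra h5
        exact h3 (decide_eq_false h5)
      · have h5 : (Φ j).2 i' = true := by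
          cases h6 : (Φ j).2 i'
          · exact absurd h6 h4
          · rfl
        rw [if_neg]
        · rw [h5] at h3
          have h6 : x ((Φ j).1 i') ≠ 1 := fun h' => h3 (decide_eq_true h')
          rcases RXDich_zmod (x ((Φ j).1 i')) with h7 | h7
          · exact h7
          · exact absurd h7 h6
        · rintro ⟨i'', h6, h7⟩
          have h8 : i'' = i' := (Φ j).1.injective h6
          rw [h8] at h7
          exact h4 h7
    · right
      refine ⟨J, hJ, hJi, fun x hx => ?_⟩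
      by_contra h2
      push Not at h2
      refine hx (h1 _ fun j hj => ?_)
      by_contra h3
      exact h2 j hj h3
  · refine ⟨N - 1, by omega, Set.eq_univ_of_forall fun x => hlast (toB x)⟩

end H96RX
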