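import Mathlib

/-!
ROW RandNum (parameters for random `k`-CNFs; about 130 lines).  PROOF.  `κ = k / 32`, `W = n / (2^128 k)`, `d = 28 κ`, `L = Nat.log 2 n`, `α = 5 * L / 8`,
`r = κ W - s`.  Facts: `n ≥ k^128 ≥ 1`, so `2^128 ≤ (n+1)^128 ≤ 2^k`, `k ≥ 128`; so `n ≥ 128^128 = 2^896`, `L ≥ 896`; `2^(128 L) ≤ (n+1)^128 ≤ 2^k` gives
`128 L ≤ k` (so `k ≥ 114688`, `κ ≥ 3584`, `κ ≥ k / 64` and `33 κ ≥ k`); `k^128 < 2^(L+1)`: `k ≤ 2^(L/128 + 1)`-type bounds: `k^64 ≤ 2^((L+1)/2 + 1)`; all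
we need is `k^4 ≤ 2^(L/16)` (from `k^128 < 2^(L+1)`, take `32`-nd powers).
(1) `W ≥ 1`, `2^128 (k W) ≤ n`: division.  `κ W ≥ 2^(L - 140)`: `W ≥ n/(2^129 k)` and `κ ≥ k/64`, so `κ W ≥ n/2^135 - …`.
(2) `s^2 ≤ n < 2^(L+1)`: `s ≤ 2^((L+1)/2 + 1)`, so `r = κ W - s ≥ 2^(L-141) ≥ 1`.
(3) `f^64 ≤ 2^k` gives `f ≤ 2^κ` (`64 κ ≥ k`); `W ≤ n < 2^(L+1) ≤ 2^κ` (`L + 1 ≤ k/128 + 1 ≤ κ`); so `f W 2^(28κ) ≤ 2^(30κ)`.
(4) `2^α (d α) ≤ 2^(5L/8) * k * L ≤ 2^(5L/8) k^2 ≤ 2^(5L/8 + L/16) ≤ 2^(L - 141) ≤ r` as `L ≥ 896`: `L - 5L/8 - L/16 = 5L/16 ≥ 280`.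
(5) `n^k ≤ (2^(d α - 1))^2`: `n < 2^(L+1)`, so it suffices `(L+1) k ≤ 2 d α - 2`: `d = 28 κ ≥ 28 k/33`, `α ≥ (5L - 7)/8`: `2 d α ≥ 2 (28/33) k (5L-7)/8
= (7/33) k (5 L - 7) = (35/33) k L - (49/33) k`, and `(2/33) L ≥ 49/33 + 1 + small` as `L ≥ 896` (`2*896/33 = 54`).
-/

set_option autoImplicit false
open scoped Classical

namespace H96RX

theorem rand_num {n k s f : ℕ} (hk : 1 ≤ k) (h1 : (n + 1) ^ 128 ≤ 2 ^ k) (h2 : k ^ 128 ≤ n) (hs : s ^ 2 ≤ n)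
    (hf : f ^ 64 ≤ 2 ^ k) :
    2 ^ 128 * (k * (n / (2 ^ 128 * k))) ≤ n ∧ 8 * n ^ 3 ≤ 2 ^ k ∧ 1 ≤ n / (2 ^ 128 * k) ∧
    ∃ κ r d α : ℕ, 32 * κ ≤ k ∧ 1 ≤ κ ∧ 1 ≤ r ∧ r + s ≤ κ * (n / (2 ^ 128 * k)) ∧ 2 ≤ α ∧
      f * (n / (2 ^ 128 * k)) * 2 ^ d ≤ 2 ^ (30 * κ + 1) ∧ 2 ^ α * (d * α) ≤ r ∧ n ^ k ≤ (2 ^ (d * α - 1)) ^ 2 := by
  have hp : ∀ {a b : ℕ}, 2 ^ a ≤ 2 ^ b → a ≤ b := fun {a b} h =>
    (Nat.pow_le_pow_iff_right one_lt_two).1 h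
  have hpl : ∀ {a b : ℕ}, 2 ^ a < 2 ^ b → a < b := fun {a b} h =>
    (Nat.pow_lt_pow_iff_right one_lt_two).1 h
  have hpm : ∀ {a b : ℕ}, a ≤ b → 2 ^ a ≤ 2 ^ b := fun {a b} h =>
    Nat.pow_le_pow_right (by norm_num) h
  have hn1 : 1 ≤ n := le_trans (Nat.one_le_pow _ _ hk) h2
  have hk128 : 128 ≤ k := by
    apply hp
    refine le_trans ?_ h1
    exact Nat.pow_le_pow_left (by omega) 128
  have hn896 : 2 ^ 896 ≤ n := by
    refine le_trans ?_ h2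
    have e1 : (2 : ℕ) ^ 896 = (2 ^ 7) ^ 128 := by rw [← pow_mul]
    rw [e1]
    exact Nat.pow_le_pow_left (by omega) 128
  obtain ⟨L, hL⟩ : ∃ L : ℕ, L = Nat.log 2 n := ⟨_, rfl⟩
  have l1 : 2 ^ L ≤ n := by
    rw [hL]
    exact Nat.pow_log_le_self 2 (by omega)
  have l2 : n < 2 ^ (L + 1) := by
    rw [hL]
    exact Nat.lt_pow_succ_log_self one_lt_two n
  clear hL
  have l3 : 896 ≤ L := by
    have := hpl (lt_of_le_of_lt hn896 l2)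
    omega
  have l4 : 128 * L ≤ k := by
    apply hp
    refine le_trans ?_ h1
    have e1 : (2 : ℕ) ^ (128 * L) = (2 ^ L) ^ 128 := by
      rw [← pow_mul, mul_comm]
    rw [e1]
    exact Nat.pow_le_pow_left (by omega) 128
  have l5 : k ^ 4 ≤ 2 ^ (L / 16) := by
    by_contra hcon
    rw [not_le] at hcon
    have g1 : (2 ^ (L / 16)) ^ 32 ≤ (k ^ 4) ^ 32 := Nat.pow_le_pow_left hcon.le 32
    rw [← pow_mul, ← pow_mul] at g1
    have g2 : 2 ^ (L / 16 * 32) < 2 ^ (L + 1) := lt_of_le_of_lt (g1.trans h2) l2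
    have := hpl g2
    omega
  obtain ⟨κ, hκ⟩ : ∃ κ : ℕ, κ = k / 32 := ⟨_, rfl⟩
  have k1 : 32 * κ ≤ k := by omega
  have k2 : k ≤ 32 * κ + 31 := by omega
  have k3 : 3584 ≤ κ := by omega
  clear hκ
  obtain ⟨W, hW⟩ : ∃ W : ℕ, W = n / (2 ^ 128 * k) := ⟨_, rfl⟩
  have w1 : 2 ^ 128 * (k * W) ≤ n := by
    rw [hW, ← mul_assoc]
    exact Nat.mul_div_le n (2 ^ 128 * k)
  have w2 : 2 ^ 128 * k ≤ n := by
    refine le_trans ?_ h2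
    have e1 : k ^ 128 = k ^ 127 * k := pow_succ k 127
    rw [e1]
    refine Nat.mul_le_mul_right k ?_
    have e2 : (2 : ℕ) ^ 128 ≤ (2 ^ 7) ^ 127 := by
      rw [← pow_mul]
      exact hpm (by norm_num)
    exact e2.trans (Nat.pow_le_pow_left (by omega) 127)
  have w3 : 1 ≤ W := by
    rw [hW]
    exact Nat.div_pos w2 (Nat.mul_pos (pow_pos (by norm_num) 128) (by omega))
  have w4 : n < 2 ^ 128 * k * (W + 1) := by
    rw [hW]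
    exact Nat.lt_mul_div_succ n (Nat.mul_pos (pow_pos (by norm_num) 128) (by omega))
  have w5 : 2 ^ (L - 135) ≤ κ * W := by
    have g1 : 2 ^ L ≤ κ * W * 2 ^ 135 := by
      have g2 : 2 ^ 128 * k * (W + 1) ≤ 2 ^ 128 * (64 * κ) * (2 * W) :=
        Nat.mul_le_mul (Nat.mul_le_mul_left _ (by omega)) (by omega)
      have g3 : 2 ^ 128 * (64 * κ) * (2 * W) = κ * W * 2 ^ 135 := by
        have g4 : (2 : ℕ) ^ 135 = 2 ^ 128 * 128 := by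
          rw [show (135 : ℕ) = 128 + 7 by norm_num, pow_add]
          norm_num
        rw [g4]
        ring
      rw [← g3]
      exact le_of_lt (lt_of_le_of_lt l1 (lt_of_lt_of_le w4 g2))
    have g2 : 2 ^ (L - 135) * 2 ^ 135 = 2 ^ L := by
      rw [← pow_add]
      congr 1
      omega
    rw [← g2] at g1
    exact Nat.le_of_mul_le_mul_right g1 (pow_pos (by norm_num) 135)
  have w6 : W ≤ 2 ^ κ := by
    have g1 : W ≤ n := by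
      rw [hW]
      exact Nat.div_le_self _ _
    exact (g1.trans l2.le).trans (hpm (by omega))
  rw [← hW]
  clear hW
  have s1 : s < 2 ^ (L - 136) := by
    by_contra hcon
    rw [not_lt] at hcon
    have g1 : (2 ^ (L - 136)) ^ 2 ≤ s ^ 2 := Nat.pow_le_pow_left hcon 2
    rw [← pow_mul] at g1
    have := hpl (lt_of_le_of_lt (g1.trans hs) l2)
    omega
  have s2 : 2 ^ (L - 135) = 2 ^ (L - 136) + 2 ^ (L - 136) := by
    have e1 : L - 135 = L - 136 + 1 := by omega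
    rw [e1, pow_succ, mul_two]
  have s3 : 1 ≤ 2 ^ (L - 136) := Nat.one_le_pow _ _ (by norm_num)
  have f1 : f ≤ 2 ^ κ := by
    have g1 : f ^ 64 ≤ (2 ^ κ) ^ 64 := by
      rw [← pow_mul]
      exact hf.trans (hpm (by omega))
    exact (Nat.pow_le_pow_iff_left (by norm_num)).1 g1
  obtain ⟨α, hα⟩ : ∃ α : ℕ, α = 5 * L / 8 := ⟨_, rfl⟩
  have a1 : 8 * α ≤ 5 * L := by omega
  have a2 : 5 * L ≤ 8 * α + 7 := by omega
  clear hα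
  refine ⟨w1, ?_⟩
  clear w1 w2 w4 hn896
  have r1 : 1 ≤ κ * W - s := by
    clear l1 l2 l5 hs hf f1 w6 h1 h2
    omega
  have r2 : κ * W - s + s ≤ κ * W := by
    clear l1 l2 l5 hs hf f1 w6 h1 h2
    omega
  have r3 : 2 ^ (L - 136) ≤ κ * W - s := by
    clear l1 l2 l5 hs hf f1 w6 h1 h2
    omega
  refine ⟨?_, w3, κ, κ * W - s, 28 * κ, α, k1, le_trans (by norm_num) k3, r1, r2, ?_,
    ?_, ?_, ?_⟩
  · have g1 : 8 * n ^ 3 ≤ (n + 1) ^ 128 := by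
      have g2 : 8 ≤ (n + 1) ^ 3 := by
        have := Nat.pow_le_pow_left (show 2 ≤ n + 1 by omega) 3
        omega
      have g3 : n ^ 3 ≤ (n + 1) ^ 3 := Nat.pow_le_pow_left (by omega) 3
      calc 8 * n ^ 3 ≤ (n + 1) ^ 3 * (n + 1) ^ 3 := Nat.mul_le_mul g2 g3
        _ = (n + 1) ^ 6 := by rw [← pow_add]
        _ ≤ (n + 1) ^ 128 := Nat.pow_le_pow_right (by omega) (by norm_num)
    exact g1.trans h1
  · clear l1 l2 l5 hs hf f1 w6 h1 h2 w5 s1 s2 s3 r1 r2 r3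
    omega
  · calc f * W * 2 ^ (28 * κ) ≤ 2 ^ κ * 2 ^ κ * 2 ^ (28 * κ) :=
          Nat.mul_le_mul_right _ (Nat.mul_le_mul f1 w6)
      _ = 2 ^ (30 * κ) := by
          rw [← pow_add, ← pow_add, show κ + κ + 28 * κ = 30 * κ by ring]
      _ ≤ 2 ^ (30 * κ + 1) := hpm (by omega)
  · have g1 : 28 * κ * α ≤ k * k := Nat.mul_le_mul (by omega) (by omega)
    have g2 : k * k ≤ 2 ^ (L / 16) := by
      refine le_trans ?_ l5
      rw [← pow_two]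
      exact Nat.pow_le_pow_right (by omega) (by norm_num)
    have g3 : 2 ^ α * (28 * κ * α) ≤ 2 ^ (L - 136) := by
      calc 2 ^ α * (28 * κ * α) ≤ 2 ^ α * 2 ^ (L / 16) := Nat.mul_le_mul_left _ (g1.trans g2)
        _ = 2 ^ (α + L / 16) := by rw [← pow_add]
        _ ≤ 2 ^ (L - 136) := hpm (by omega)
    exact g3.trans r3
  · have g1 : n ^ k ≤ 2 ^ ((L + 1) * k) := by
      rw [pow_mul]
      exact Nat.pow_le_pow_left l2.le k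
    refine g1.trans ?_
    rw [← pow_mul]
    apply hpm
    have g2 : (L + 1) * k ≤ (L + 1) * (32 * κ + 31) := Nat.mul_le_mul_left _ k2
    have g3 : 7 * κ * (5 * L) ≤ 7 * κ * (8 * α + 7) := Nat.mul_le_mul_left _ a2
    have g4 : 3584 * L ≤ κ * L := Nat.mul_le_mul_right _ k3
    have g5 : κ * 896 ≤ κ * L := Nat.mul_le_mul_left _ l3
    have g6 : (L + 1) * k + 2 ≤ 28 * κ * α * 2 := by nlinarith
    omega

end H96RX
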