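import Pool.Agent.H96.RX.Defs

/-!
ROW Rk (basic properties of `rk`; about 100 lines).  PROOF.
`rank_map`: rank-nullity for the linear map `L` restricted to `P`: `LinearMap.finrank_range_add_finrank_ker (L.domRestrict P)`;
`range (L.domRestrict P) = P.map L` and `ker (L.domRestrict P)` has the same finrank as `P ⊓ ker L` (it is
`(P ⊓ ker L).comap P.subtype`; use `Submodule.comapSubtypeEquivOfLe` or map `P.subtype` injective).
`rk_add`: `Nat.sub_add_cancel` with `Submodule.finrank_mono inf_le_left`.  (`V → ZMod 2` is a finite module: `Module.Finite.pi`.)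
`rk_submod`: write `R = RM V D`, `K T = R ⊓ van T`.  `van (S ∪ T) = van S ⊓ van T`, so `K (S ∪ T) = K S ⊓ K T`; and
`K S ⊔ K T ≤ K (S ∩ T)`.  `Submodule.finrank_sup_add_finrank_inf_eq (K S) (K T)` gives
`finrank (K S) + finrank (K T) ≤ finrank (K (S ∩ T)) + finrank (K (S ∪ T))`; with `rk_add` four times: omega.
`rk_mono`: `van T ≤ van S` if `S ⊆ T`.  `rk_empty`: `van ∅ = ⊤`.  `rk_le`: `rk ≤ finrank (RM V D) ≤ finrank (V → ZMod 2)
= Nat.card V` (`Module.finrank_pi`/`Module.finrank_fintype_fun_eq_card`).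
-/

set_option autoImplicit false
open scoped Classical

namespace H96RX

theorem rank_map {M M' : Type} [AddCommGroup M] [Module (ZMod 2) M] [Module.Finite (ZMod 2) M]
    [AddCommGroup M'] [Module (ZMod 2) M'] (L : M →ₗ[ZMod 2] M') (P : Submodule (ZMod 2) M) :
    Module.finrank (ZMod 2) ↥(P.map L) + Module.finrank (ZMod 2) ↥(P ⊓ LinearMap.ker L) =
      Module.finrank (ZMod 2) P := by
  have h1 := LinearMap.finrank_range_add_finrank_ker (L.domRestrict P)
  have h2 : LinearMap.range (L.domRestrict P) = P.map L := LinearMap.range_domRestrict P L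
  have h3 : LinearMap.ker (L.domRestrict P) = (P ⊓ LinearMap.ker L).comap P.subtype := by
    ext x
    rw [LinearMap.mem_ker, LinearMap.domRestrict_apply, Submodule.mem_comap, Submodule.mem_inf,
      LinearMap.mem_ker]
    exact ⟨fun h => ⟨x.2, h⟩, fun h => h.2⟩
  have h4 : Module.finrank (ZMod 2) ↥((P ⊓ LinearMap.ker L).comap P.subtype) =
      Module.finrank (ZMod 2) ↥(P ⊓ LinearMap.ker L) :=
    (Submodule.comapSubtypeEquivOfLe (inf_le_left : P ⊓ LinearMap.ker L ≤ P)).finrank_eq
  rw [h2, h3, h4] at h1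
  exact h1

variable {V : Type} [AddCommGroup V] [Module (ZMod 2) V] [Finite V]

theorem rk_add (D : ℕ) (T : Set V) :
    rk V D T + Module.finrank (ZMod 2) ↥(RM V D ⊓ van T) = Module.finrank (ZMod 2) (RM V D) := by
  unfold rk
  exact Nat.sub_add_cancel (Submodule.finrank_mono inf_le_left)

private theorem Rk_anti {X : Type} {S T : Set X} (h : S ⊆ T) :
    (van T : Submodule (ZMod 2) (X → ZMod 2)) ≤ van S :=
  fun _ hg x hx => hg x (h hx)

theorem rk_submod (D : ℕ) (S T : Set V) : rk V D (S ∪ T) + rk V D (S ∩ T) ≤ rk V D S + rk V D T := by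
  have h1 := rk_add (V := V) D S
  have h2 := rk_add (V := V) D T
  have h3 := rk_add (V := V) D (S ∪ T)
  have h4 := rk_add (V := V) D (S ∩ T)
  have h5 := Submodule.finrank_sup_add_finrank_inf_eq (RM V D ⊓ van S) (RM V D ⊓ van T)
  have h6 : (RM V D ⊓ van S) ⊓ (RM V D ⊓ van T) = RM V D ⊓ van (S ∪ T) := by
    ext g
    simp only [Submodule.mem_inf]
    constructor
    · rintro ⟨⟨a, b⟩, _, c⟩
      exact ⟨a, fun x hx => hx.elim (b x) (c x)⟩
    · rintro ⟨a, b⟩
      exact ⟨⟨a, fun x hx => b x (Or.inl hx)⟩, a, fun x hx => b x (Or.inr hx)⟩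
  have h7 : (RM V D ⊓ van S) ⊔ (RM V D ⊓ van T) ≤ RM V D ⊓ van (S ∩ T) :=
    sup_le (inf_le_inf_left _ (Rk_anti Set.inter_subset_left))
      (inf_le_inf_left _ (Rk_anti Set.inter_subset_right))
  have h8 := Submodule.finrank_mono h7
  rw [h6] at h5
  omega

theorem rk_mono (D : ℕ) {S T : Set V} (h : S ⊆ T) : rk V D S ≤ rk V D T := by
  have h1 := rk_add (V := V) D S
  have h2 := rk_add (V := V) D T
  have h3 := Submodule.finrank_mono (inf_le_inf_left (RM V D) (Rk_anti h))
  omega

theorem rk_empty (D : ℕ) : rk V D (∅ : Set V) = 0 := by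
  have h1 := rk_add (V := V) D (∅ : Set V)
  have h2 : RM V D ⊓ van (∅ : Set V) = RM V D := by
    apply inf_eq_left.mpr
    intro g _ x hx
    exact absurd hx (Set.notMem_empty x)
  rw [h2] at h1
  omega

theorem rk_le (D : ℕ) (T : Set V) : rk V D T ≤ Nat.card V := by
  have h1 : rk V D T ≤ Module.finrank (ZMod 2) (RM V D) := by
    unfold rk
    exact Nat.sub_le _ _
  refine h1.trans ((Submodule.finrank_le (RM V D)).trans (le_of_eq ?_))
  have := Fintype.ofFinite V
  rw [Module.finrank_fintype_fun_eq_card, Nat.card_eq_fintype_card]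

end H96RX
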