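import Pool.Agent.H96.RX.Rk
import Pool.Agent.H96.RX.Prod

/-!
ROW Sec (sections; about 120 lines).  For `E ⊆ V × F` put `E₀ = {x | (x,0) ∈ E}`, `E₁ = {x | (x,1) ∈ E}`.  PROOF.
`rk_section`.  `R = RM (V × F) (D+1) = phi (RM V (D+1) × RM V D)` (`RM_prod`), `phi` injective (`phi_inj`), so
`finrank R = finrank (RM V (D+1)) + finrank (RM V D)` (`LinearMap.finrank_map_eq`-type: `LinearEquiv.finrank_eq
(Submodule.equivMapOfInjective ..)`, finrank of `Submodule.prod`: `Submodule.prodEquivOfProd..` / `Submodule.finrank_prod`-like; if no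
such lemma use `rank_map` with `L = LinearMap.snd` on `P = (RM V (D+1)).prod (RM V D)`: image `RM V D`, kernel part `≅ RM V (D+1)`).
Let `P = (RM V (D+1)).prod (RM V D) ⊓ {p | phi p ∈ van E}` (a submodule: `(van E).comap (phi V)`).  `R ⊓ van E = P.map phi`.
`rank_map` with `L = LinearMap.snd`: `finrank P = finrank (P.map snd) + finrank (P ⊓ ker snd)`.
If `(a,b) ∈ P` then `a = 0` on `E₀` and `a + b = 0` on `E₁`, so `b = 0` on `E₀ ∩ E₁`: `P.map snd ≤ RM V D ⊓ van (E₀ ∩ E₁)`.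
`P ⊓ ker snd = {(a,0) : a ∈ RM V (D+1), a = 0 on E₀ ∪ E₁}` is the image under `LinearMap.inl` of
`RM V (D+1) ⊓ van (E₀ ∪ E₁)`.  So `finrank (R ⊓ van E) ≤ finrank (RM V D ⊓ van (E₀∩E₁)) + finrank (RM V (D+1) ⊓ van (E₀∪E₁))`;
conclude with `rk_add` three times.
`rk_prod` (`E = {p | p.1 ∈ T}`, `E₀ = E₁ = T`): here `P = {(a,b) : a, b vanish on T} ⊇ (RM V (D+1) ⊓ van T).prod (RM V D ⊓ van T)`, so
`finrank (R ⊓ van E) ≥` the sum; conclude.
`rk_section_zero`, `rk_prod_zero`, `rk_zero_le_one`: `RM _ 0` = constants (`mem_RM_zero`): `rk 0 T = 0` if `T = ∅` and `= 1` otherwise (prove this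
as a lemma: `finrank (RM V 0) = 1` as span of `1`; `RM V 0 ⊓ van T = ⊥` if `T` nonempty).
`rk_singleton`: `rk V D {x} = 1`: with `L` = evaluation at `x`, `rank_map`: the image of `RM V D` is all of `F` because `1 ∈ RM V D`, and
`RM ⊓ ker L = RM ⊓ van {x}`.
-/

set_option autoImplicit false
set_option linter.unusedSectionVars false
open scoped Classical

namespace H96RX

variable {V : Type} [AddCommGroup V] [Module (ZMod 2) V] [Finite V]

private theorem Sec_finrank_map {M M' : Type} [AddCommGroup M] [Module (ZMod 2) M]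
    [AddCommGroup M'] [Module (ZMod 2) M'] (L : M →ₗ[ZMod 2] M') (hL : Function.Injective L)
    (P : Submodule (ZMod 2) M) : Module.finrank (ZMod 2) ↥(P.map L) = Module.finrank (ZMod 2) P :=
  (Submodule.equivMapOfInjective L hL P).finrank_eq.symm

private theorem Sec_fin_prod {M M' : Type} [AddCommGroup M] [Module (ZMod 2) M] [Module.Finite (ZMod 2) M]
    [AddCommGroup M'] [Module (ZMod 2) M'] [Module.Finite (ZMod 2) M'] (P : Submodule (ZMod 2) (M × M')) :
    Module.finrank (ZMod 2) P =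
      Module.finrank (ZMod 2) ↥(P.map (LinearMap.snd (ZMod 2) M M')) +
        Module.finrank (ZMod 2) ↥(P.comap (LinearMap.inl (ZMod 2) M M')) := by
  have h := rank_map (LinearMap.snd (ZMod 2) M M') P
  have h2 : P ⊓ LinearMap.ker (LinearMap.snd (ZMod 2) M M') =
      (P.comap (LinearMap.inl (ZMod 2) M M')).map (LinearMap.inl (ZMod 2) M M') := by
    rw [Submodule.map_comap_eq, LinearMap.range_inl, inf_comm]
  rw [h2, Sec_finrank_map (LinearMap.inl (ZMod 2) M M') LinearMap.inl_injective] at h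
  exact h.symm

private theorem Sec_finrank_RM (D : ℕ) :
    Module.finrank (ZMod 2) (RM (V × ZMod 2) (D + 1)) =
      Module.finrank (ZMod 2) (RM V (D + 1)) + Module.finrank (ZMod 2) (RM V D) := by
  rw [RM_prod, Sec_finrank_map _ (phi_inj V), Sec_fin_prod]
  have h1 : ((RM V (D + 1)).prod (RM V D)).map (LinearMap.snd (ZMod 2) _ _) = RM V D := by
    ext b
    constructor
    · rintro ⟨p, hp, rfl⟩
      exact hp.2
    · intro hb
      exact ⟨(0, b), ⟨Submodule.zero_mem _, hb⟩, rfl⟩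
  have h2 : ((RM V (D + 1)).prod (RM V D)).comap (LinearMap.inl (ZMod 2) _ _) = RM V (D + 1) := by
    ext a
    constructor
    · intro ha
      exact ha.1
    · intro ha
      exact ⟨ha, Submodule.zero_mem _⟩
  rw [h1, h2, add_comm]

private theorem Sec_inf_van (D : ℕ) (E : Set (V × ZMod 2)) :
    RM (V × ZMod 2) (D + 1) ⊓ van E =
      ((RM V (D + 1)).prod (RM V D) ⊓ (van E).comap (phi V)).map (phi V) := by
  rw [RM_prod]
  ext f
  constructor
  · rintro ⟨⟨p, hp, rfl⟩, h2⟩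
    exact ⟨p, ⟨hp, h2⟩, rfl⟩
  · rintro ⟨p, ⟨hp, h2⟩, rfl⟩
    exact ⟨⟨p, hp, rfl⟩, h2⟩

private theorem Sec_phi_zero (a b : V → ZMod 2) (x : V) : phi V (a, b) (x, 0) = a x := by
  change a x + 0 * b x = a x
  rw [zero_mul, add_zero]

private theorem Sec_phi_one (a b : V → ZMod 2) (x : V) : phi V (a, b) (x, 1) = a x + b x := by
  change a x + 1 * b x = a x + b x
  rw [one_mul]

theorem rk_section (D : ℕ) (E : Set (V × ZMod 2)) :
    rk V (D + 1) ({x | (x, (0 : ZMod 2)) ∈ E} ∪ {x | (x, (1 : ZMod 2)) ∈ E}) +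
      rk V D ({x | (x, (0 : ZMod 2)) ∈ E} ∩ {x | (x, (1 : ZMod 2)) ∈ E}) ≤ rk (V × ZMod 2) (D + 1) E := by
  have e1 := rk_add (V := V) (D + 1) ({x | (x, (0 : ZMod 2)) ∈ E} ∪ {x | (x, (1 : ZMod 2)) ∈ E})
  have e2 := rk_add (V := V) D ({x | (x, (0 : ZMod 2)) ∈ E} ∩ {x | (x, (1 : ZMod 2)) ∈ E})
  have e3 := rk_add (V := V × ZMod 2) (D + 1) E
  have e4 := Sec_finrank_RM (V := V) D
  have e5 : Module.finrank (ZMod 2) ↥(RM (V × ZMod 2) (D + 1) ⊓ van E) ≤
      Module.finrank (ZMod 2)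
        ↥(RM V D ⊓ van ({x | (x, (0 : ZMod 2)) ∈ E} ∩ {x | (x, (1 : ZMod 2)) ∈ E})) +
      Module.finrank (ZMod 2)
        ↥(RM V (D + 1) ⊓ van ({x | (x, (0 : ZMod 2)) ∈ E} ∪ {x | (x, (1 : ZMod 2)) ∈ E})) := by
    rw [Sec_inf_van, Sec_finrank_map _ (phi_inj V), Sec_fin_prod]
    refine Nat.add_le_add (Submodule.finrank_mono ?_) (Submodule.finrank_mono ?_)
    · rintro b ⟨⟨a, b'⟩, ⟨hp, hv⟩, rfl⟩
      refine ⟨hp.2, ?_⟩
      rintro x ⟨hx0, hx1⟩
      have h0 := hv (x, 0) hx0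
      have h1 := hv (x, 1) hx1
      rw [Sec_phi_zero] at h0
      rw [Sec_phi_one, h0, zero_add] at h1
      exact h1
    · rintro a ⟨hp, hv⟩
      refine ⟨hp.1, ?_⟩
      rintro x (hx0 | hx1)
      · have h0 := hv (x, 0) hx0
        exact (Sec_phi_zero a 0 x).symm.trans h0
      · have h1 := hv (x, 1) hx1
        have h2 := (Sec_phi_one a 0 x).symm.trans h1
        rw [Pi.zero_apply, add_zero] at h2
        exact h2
  omega

theorem rk_prod (D : ℕ) (T : Set V) :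
    rk (V × ZMod 2) (D + 1) {p | p.1 ∈ T} ≤ rk V (D + 1) T + rk V D T := by
  have e1 := rk_add (V := V) (D + 1) T
  have e2 := rk_add (V := V) D T
  have e3 := rk_add (V := V × ZMod 2) (D + 1) {p | p.1 ∈ T}
  have e4 := Sec_finrank_RM (V := V) D
  have e5 : Module.finrank (ZMod 2) ↥(RM V D ⊓ van T) + Module.finrank (ZMod 2) ↥(RM V (D + 1) ⊓ van T) ≤
      Module.finrank (ZMod 2) ↥(RM (V × ZMod 2) (D + 1) ⊓ van {p : V × ZMod 2 | p.1 ∈ T}) := by
    rw [Sec_inf_van, Sec_finrank_map _ (phi_inj V), Sec_fin_prod]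
    refine Nat.add_le_add (Submodule.finrank_mono ?_) (Submodule.finrank_mono ?_)
    · rintro b ⟨hb, hv⟩
      refine ⟨(0, b), ⟨⟨Submodule.zero_mem _, hb⟩, ?_⟩, rfl⟩
      rintro ⟨x, t⟩ hx
      change (0 : V → ZMod 2) x + t * b x = 0
      rw [hv x hx, Pi.zero_apply, mul_zero, add_zero]
    · rintro a ⟨ha, hv⟩
      refine ⟨⟨ha, Submodule.zero_mem _⟩, ?_⟩
      rintro ⟨x, t⟩ hx
      change a x + t * (0 : V → ZMod 2) x = 0
      rw [hv x hx, Pi.zero_apply, mul_zero, add_zero]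
  omega

private theorem Sec_RM_zero (V : Type) [AddCommGroup V] [Module (ZMod 2) V] [Finite V] :
    RM V 0 = Submodule.span (ZMod 2) {(1 : V → ZMod 2)} := by
  ext f
  rw [mem_RM_zero, Submodule.mem_span_singleton]
  constructor
  · rintro ⟨c, hc⟩
    refine ⟨c, ?_⟩
    funext x
    rw [Pi.smul_apply, Pi.one_apply, smul_eq_mul, mul_one, hc x]
  · rintro ⟨c, rfl⟩
    exact ⟨c, fun x => by rw [Pi.smul_apply, Pi.one_apply, smul_eq_mul, mul_one]⟩

private theorem Sec_fin_RM_zero (V : Type) [AddCommGroup V] [Module (ZMod 2) V] [Finite V] :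
    Module.finrank (ZMod 2) (RM V 0) = 1 := by
  rw [Sec_RM_zero]
  apply finrank_span_singleton
  intro h
  have := congrFun h (0 : V)
  rw [Pi.one_apply, Pi.zero_apply] at this
  exact one_ne_zero this

private theorem Sec_rk_zero (T : Set V) (h : T.Nonempty) : rk V 0 T = 1 := by
  have e := rk_add (V := V) 0 T
  rw [Sec_fin_RM_zero] at e
  have h2 : RM V 0 ⊓ van T = ⊥ := by
    rw [eq_bot_iff]
    rintro f ⟨hf, hv⟩
    obtain ⟨c, hc⟩ := (mem_RM_zero f).1 hf
    obtain ⟨x, hx⟩ := h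
    have : c = 0 := by rw [← hc x]; exact hv x hx
    rw [Submodule.mem_bot]
    funext y
    rw [hc y, this, Pi.zero_apply]
  rw [h2, finrank_bot] at e
  omega

theorem rk_section_zero (E : Set (V × ZMod 2)) :
    rk V 0 ({x | (x, (0 : ZMod 2)) ∈ E} ∪ {x | (x, (1 : ZMod 2)) ∈ E}) ≤ rk (V × ZMod 2) 0 E := by
  rcases Set.eq_empty_or_nonempty ({x | (x, (0 : ZMod 2)) ∈ E} ∪ {x | (x, (1 : ZMod 2)) ∈ E}) with h | h
  · rw [h, rk_empty]
    exact Nat.zero_le _
  · have hE : E.Nonempty := by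
      obtain ⟨x, hx | hx⟩ := h
      · exact ⟨(x, 0), hx⟩
      · exact ⟨(x, 1), hx⟩
    rw [Sec_rk_zero _ h, Sec_rk_zero _ hE]

theorem rk_prod_zero (T : Set V) : rk (V × ZMod 2) 0 {p | p.1 ∈ T} ≤ rk V 0 T := by
  rcases Set.eq_empty_or_nonempty T with h | h
  · have : {p : V × ZMod 2 | p.1 ∈ T} = ∅ := by
      ext p
      rw [h]
      simp
    rw [this, rk_empty]
    exact Nat.zero_le _
  · have hE : {p : V × ZMod 2 | p.1 ∈ T}.Nonempty := by
      obtain ⟨x, hx⟩ := h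
      exact ⟨(x, 0), hx⟩
    rw [Sec_rk_zero _ h, Sec_rk_zero _ hE]

theorem rk_singleton (D : ℕ) (x : V) : rk V D {x} = 1 := by
  have e := rk_add (V := V) D {x}
  have h := rank_map (LinearMap.proj (R := ZMod 2) (φ := fun _ : V => ZMod 2) x) (RM V D)
  have h1 : (RM V D).map (LinearMap.proj (R := ZMod 2) (φ := fun _ : V => ZMod 2) x) = ⊤ := by
    rw [eq_top_iff]
    rintro c -
    refine ⟨c • (1 : V → ZMod 2), (RM V D).smul_mem c (one_mem_RM D), ?_⟩
    change c * 1 = c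
    exact mul_one c
  have h2 : RM V D ⊓ LinearMap.ker (LinearMap.proj (R := ZMod 2) (φ := fun _ : V => ZMod 2) x) =
      RM V D ⊓ van {x} := by
    ext f
    constructor
    · rintro ⟨hf, hk⟩
      refine ⟨hf, ?_⟩
      intro y hy
      rw [Set.mem_singleton_iff] at hy
      rw [hy]
      exact hk
    · rintro ⟨hf, hk⟩
      exact ⟨hf, hk x rfl⟩
  rw [h1, h2, finrank_top, Module.finrank_self] at h
  omega

end H96RX
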