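import Pool.Agent.H96.RX.Marg

/-!
ROW Star (the key induction; about 130 lines).  PROOF.  `q = qa α`, induction on `v`.
`v = 0`: `L : V → V × (Fin 0 → F)`, `x ↦ (x, 0)` (`LinearMap.inl`) is injective and `L '' T = {p | p.1 ∈ T}`; let
`T' = T.filter (fun t => (S t).Nonempty)`; `L '' (T \ T') = {p | p.1 ∈ T ∧ p.2 ∉ S p.1}` (`Fin 0 → F` is a subsingleton).  `Om_image` twice and
`hc T'`: `Om T ≤ Om (T \ T') + ∑_(T') c`; for `t ∈ T'`, `(S t).card = 1` so its term is `c t * 1 * (1/1)^α = c t`; for the others it is `≥ 0`.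
`v + 1`: `L : (V × (Fin v → F)) × F → V × (Fin (v+1) → F)`, `((x,y),b) ↦ (x, Fin.cons b y)`, a linear bijection.  Put
`S0 x = {y | cons 0 y ∈ S x}`, `S1 x = {y | cons 1 y ∈ S x}` (finsets, `Finset.univ.filter`); `E = {p | p.1.1 ∈ T ∧ cons p.2 p.1.2 ∉ S p.1.1}`; its
sections at `0`, `1` are `{(x,y) | x ∈ T, y ∉ S0 x}`, `{(x,y) | x ∈ T, y ∉ S1 x}`; the union is `{x ∈ T, y ∉ S0 x ∩ S1 x}`, the intersection
`{x ∈ T, y ∉ S0 x ∪ S1 x}`.  `L '' E` is the set on the right, `L '' {p | p.1 ∈ {p | p.1 ∈ T}}` the set on the left.  So (with `Om_image`, `Om_prod`,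
`Om_section`, the induction hypothesis for `S0 ∩ S1` and `S0 ∪ S1`; `q ≥ 0`), `U' = {p | p.1 ∈ T}`:
`Om U ≤ (1+q) Om U' = Om U' + q Om U' ≤ Om E + ∑_t c t (1+q)^v (x_t^α + q y_t^α)`, `x_t = |S0 ∩ S1|/2^v ≤ y_t = |S0 ∪ S1|/2^v`, and
`|S t| = |S0 t| + |S1 t| = |S0 ∩ S1| + |S0 ∪ S1|` (`Finset.card_union_add_card_inter`; the first by the bijection `(b,y) ↦ cons b y`), so
`(x_t + y_t)/2 = |S t|/2^(v+1)` and `num_step` gives `x_t^α + q y_t^α ≤ (1+q) (|S t|/2^(v+1))^α`.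
-/

set_option autoImplicit false
open scoped Classical

namespace H96RX

variable {V : Type} [AddCommGroup V] [Module (ZMod 2) V] [Finite V]

private theorem Star_img {V' : Type} [AddCommGroup V'] [Module (ZMod 2) V'] [Finite V'] (q : ℝ)
    (L : V →ₗ[ZMod 2] V') (hL : Function.Injective L) (S : Set V) (S' : Set V')
    (h : ∀ y, y ∈ S' ↔ ∃ x ∈ S, L x = y) : Om V' q S' = Om V q S := by
  have h1 : S' = (fun x => L x + 0) '' S := by
    ext y
    rw [h, Set.mem_image]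
    simp only [add_zero]
  rw [h1, Om_image L hL 0 S]

/-- add a coordinate -/
private def Star_L (V : Type) [AddCommGroup V] [Module (ZMod 2) V] (v : ℕ) :
    ((V × (Fin v → ZMod 2)) × ZMod 2) →ₗ[ZMod 2] V × (Fin (v + 1) → ZMod 2) where
  toFun p := (p.1.1, Fin.cons p.2 p.1.2)
  map_add' := by
    intro p r
    refine Prod.ext rfl ?_
    funext i
    refine Fin.cases ?_ (fun i => ?_) i
    · rfl
    · rfl
  map_smul' := by
    intro a p
    refine Prod.ext rfl ?_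
    funext i
    refine Fin.cases ?_ (fun i => ?_) i
    · rfl
    · rfl

private theorem Star_L_inj (V : Type) [AddCommGroup V] [Module (ZMod 2) V] (v : ℕ) :
    Function.Injective (Star_L V v) := by
  rintro ⟨⟨x, y⟩, b⟩ ⟨⟨x', y'⟩, b'⟩ h
  have h1 : (x, (Fin.cons b y : Fin (v + 1) → ZMod 2)) = (x', Fin.cons b' y') := h
  rw [Prod.mk.injEq, Fin.cons_inj] at h1
  obtain ⟨rfl, rfl, rfl⟩ := h1
  rfl

private theorem Star_card {v : ℕ} (S : Finset (Fin (v + 1) → ZMod 2)) :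
    S.card = (Finset.univ.filter fun y : Fin v → ZMod 2 => Fin.cons 0 y ∈ S).card +
      (Finset.univ.filter fun y : Fin v → ZMod 2 => Fin.cons 1 y ∈ S).card := by
  have hz : ∀ a : ZMod 2, a ≠ 0 → a = 1 := by decide
  have h1 : ((Finset.univ.filter fun y : Fin v → ZMod 2 => Fin.cons 0 y ∈ S).image
      (fun y => (Fin.cons 0 y : Fin (v + 1) → ZMod 2))) = S.filter fun z => z 0 = 0 := by
    ext z
    simp only [Finset.mem_image, Finset.mem_filter, Finset.mem_univ, true_and]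
    constructor
    · rintro ⟨y, hy, rfl⟩
      exact ⟨hy, rfl⟩
    · rintro ⟨hz1, hz2⟩
      have h2 : (Fin.cons 0 (Fin.tail z) : Fin (v + 1) → ZMod 2) = z := by
        rw [← hz2]
        exact Fin.cons_self_tail z
      exact ⟨Fin.tail z, by rw [h2]; exact hz1, h2⟩
  have h2 : ((Finset.univ.filter fun y : Fin v → ZMod 2 => Fin.cons 1 y ∈ S).image
      (fun y => (Fin.cons 1 y : Fin (v + 1) → ZMod 2))) = S.filter fun z => ¬ z 0 = 0 := by
    ext z
    simp only [Finset.mem_image, Finset.mem_filter, Finset.mem_univ, true_and]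
    constructor
    · rintro ⟨y, hy, rfl⟩
      exact ⟨hy, one_ne_zero⟩
    · rintro ⟨hz1, hz2⟩
      have h3 : (Fin.cons 1 (Fin.tail z) : Fin (v + 1) → ZMod 2) = z := by
        rw [← hz (z 0) hz2]
        exact Fin.cons_self_tail z
      exact ⟨Fin.tail z, by rw [h3]; exact hz1, h3⟩
  have h3 := Finset.card_image_of_injective
    (Finset.univ.filter fun y : Fin v → ZMod 2 => Fin.cons 0 y ∈ S)
    (Fin.cons_right_injective (α := fun _ : Fin (v + 1) => ZMod 2) 0)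
  have h4 := Finset.card_image_of_injective
    (Finset.univ.filter fun y : Fin v → ZMod 2 => Fin.cons 1 y ∈ S)
    (Fin.cons_right_injective (α := fun _ : Fin (v + 1) => ZMod 2) 1)
  rw [← h3, ← h4, h1, h2]
  exact (Finset.card_filter_add_card_filter_not (fun z : Fin (v + 1) → ZMod 2 => z 0 = 0)).symm

theorem star {α : ℕ} (hα : 2 ≤ α) (T : Finset V) (c : V → ℝ) (hc0 : ∀ t, 0 ≤ c t)
    (hc : ∀ T' ⊆ T, Om V (qa α) (T : Set V) ≤ Om V (qa α) ((T \ T' : Finset V) : Set V) + ∑ t ∈ T', c t) :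
    ∀ (v : ℕ) (S : V → Finset (Fin v → ZMod 2)),
      Om (V × (Fin v → ZMod 2)) (qa α) {p | p.1 ∈ T} ≤
        Om (V × (Fin v → ZMod 2)) (qa α) {p | p.1 ∈ T ∧ p.2 ∉ S p.1} +
          ∑ t ∈ T, c t * (1 + qa α) ^ v * (((S t).card : ℝ) / 2 ^ v) ^ α := by
  obtain ⟨hq0, hq1⟩ := qa_bounds hα
  intro v
  induction v with
  | zero =>
    intro S
    obtain ⟨T', hT'⟩ : ∃ T' : Finset V, T' = T.filter (fun t => (S t).Nonempty) := ⟨_, rfl⟩
    have hL : Function.Injective (LinearMap.inl (ZMod 2) V (Fin 0 → ZMod 2)) :=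
      LinearMap.inl_injective
    have h1 := Star_img (qa α) (LinearMap.inl (ZMod 2) V (Fin 0 → ZMod 2)) hL (T : Set V)
      {p | p.1 ∈ T} (by
        rintro ⟨x, y⟩
        constructor
        · intro h
          refine ⟨x, h, ?_⟩
          exact Prod.ext rfl (Subsingleton.elim _ _)
        · rintro ⟨x', hx', h⟩
          have h2 : x' = x := congrArg Prod.fst h
          rw [← h2]
          exact hx')
    have h2 := Star_img (qa α) (LinearMap.inl (ZMod 2) V (Fin 0 → ZMod 2)) hL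
      ((T \ T' : Finset V) : Set V) {p | p.1 ∈ T ∧ p.2 ∉ S p.1} (by
        rintro ⟨x, y⟩
        have h3 : y ∉ S x ↔ ¬ (S x).Nonempty := by
          constructor
          · rintro h ⟨z, hz⟩
            rw [Subsingleton.elim z y] at hz
            exact h hz
          · intro h h4
            exact h ⟨y, h4⟩
        constructor
        · rintro ⟨ha, hb⟩
          refine ⟨x, ?_, ?_⟩
          · rw [Finset.mem_coe, Finset.mem_sdiff, hT', Finset.mem_filter]
            exact ⟨ha, fun h4 => (h3.1 hb) h4.2⟩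
          · exact Prod.ext rfl (Subsingleton.elim _ _)
        · rintro ⟨x', hx', h⟩
          have h2 : x' = x := congrArg Prod.fst h
          rw [h2, Finset.mem_coe, Finset.mem_sdiff, hT', Finset.mem_filter] at hx'
          exact ⟨hx'.1, h3.2 fun h4 => hx'.2 ⟨hx'.1, h4⟩⟩)
    rw [h1, h2]
    have h3 := hc T' (by rw [hT']; exact Finset.filter_subset _ _)
    have h4 : ∑ t ∈ T', c t ≤
        ∑ t ∈ T, c t * (1 + qa α) ^ 0 * (((S t).card : ℝ) / 2 ^ 0) ^ α := by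
      rw [hT', Finset.sum_filter]
      refine Finset.sum_le_sum fun t _ => ?_
      rw [pow_zero, pow_zero, mul_one, div_one]
      split_ifs with h5
      · have h6 : (1 : ℝ) ≤ ((S t).card : ℝ) := by
          exact_mod_cast Finset.card_pos.2 h5
        have h7 : (1 : ℝ) ≤ ((S t).card : ℝ) ^ α := one_le_pow₀ h6
        exact le_mul_of_one_le_right (hc0 t) h7
      · exact mul_nonneg (hc0 t) (pow_nonneg (Nat.cast_nonneg _) _)
    linarith
  | succ v ih =>
    intro S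
    obtain ⟨S0, hS0⟩ : ∃ S0 : V → Finset (Fin v → ZMod 2), ∀ x, S0 x =
        Finset.univ.filter fun y : Fin v → ZMod 2 => Fin.cons 0 y ∈ S x := ⟨_, fun _ => rfl⟩
    obtain ⟨S1, hS1⟩ : ∃ S1 : V → Finset (Fin v → ZMod 2), ∀ x, S1 x =
        Finset.univ.filter fun y : Fin v → ZMod 2 => Fin.cons 1 y ∈ S x := ⟨_, fun _ => rfl⟩
    have m0 : ∀ x y, y ∈ S0 x ↔ (Fin.cons 0 y : Fin (v + 1) → ZMod 2) ∈ S x := by
      intro x y
      rw [hS0, Finset.mem_filter]
      exact ⟨fun h => h.2, fun h => ⟨Finset.mem_univ _, h⟩⟩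
    have m1 : ∀ x y, y ∈ S1 x ↔ (Fin.cons 1 y : Fin (v + 1) → ZMod 2) ∈ S x := by
      intro x y
      rw [hS1, Finset.mem_filter]
      exact ⟨fun h => h.2, fun h => ⟨Finset.mem_univ _, h⟩⟩
    obtain ⟨E, hE⟩ : ∃ E : Set ((V × (Fin v → ZMod 2)) × ZMod 2), E =
        {p | p.1.1 ∈ T ∧ (Fin.cons p.2 p.1.2 : Fin (v + 1) → ZMod 2) ∉ S p.1.1} := ⟨_, rfl⟩
    have h1 := Star_img (qa α) (Star_L V v) (Star_L_inj V v)
      {p | p.1 ∈ {p' : V × (Fin v → ZMod 2) | p'.1 ∈ T}} {p | p.1 ∈ T} (by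
        rintro ⟨x, y⟩
        constructor
        · intro h
          refine ⟨((x, Fin.tail y), y 0), h, ?_⟩
          exact Prod.ext rfl (Fin.cons_self_tail y)
        · rintro ⟨⟨⟨x', y'⟩, b'⟩, hx', h⟩
          have h2 : x' = x := congrArg Prod.fst h
          rw [← h2]
          exact hx')
    have h2 := Star_img (qa α) (Star_L V v) (Star_L_inj V v) E {p | p.1 ∈ T ∧ p.2 ∉ S p.1} (by
        rw [hE]
        rintro ⟨x, y⟩
        constructor
        · rintro ⟨ha, hb⟩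
          refine ⟨((x, Fin.tail y), y 0), ⟨ha, ?_⟩, ?_⟩
          · have h3 : (Fin.cons (y 0) (Fin.tail y) : Fin (v + 1) → ZMod 2) = y :=
              Fin.cons_self_tail y
            show (Fin.cons (y 0) (Fin.tail y) : Fin (v + 1) → ZMod 2) ∉ S x
            rw [h3]
            exact hb
          · exact Prod.ext rfl (Fin.cons_self_tail y)
        · rintro ⟨⟨⟨x', y'⟩, b'⟩, ⟨ha, hb⟩, h⟩
          have h2 : (x', (Fin.cons b' y' : Fin (v + 1) → ZMod 2)) = (x, y) := h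
          rw [Prod.mk.injEq] at h2
          obtain ⟨rfl, rfl⟩ := h2
          exact ⟨ha, hb⟩)
    rw [h1, h2]
    have h3 := Om_prod hq0.le hq1 {p' : V × (Fin v → ZMod 2) | p'.1 ∈ T}
    have h4 := Om_section hq0.le hq1 E
    have hA : {x | (x, (0 : ZMod 2)) ∈ E} ∪ {x | (x, (1 : ZMod 2)) ∈ E} =
        {p : V × (Fin v → ZMod 2) | p.1 ∈ T ∧ p.2 ∉ (fun x => S0 x ∩ S1 x) p.1} := by
      rw [hE]
      ext ⟨x, y⟩
      show (x ∈ T ∧ (Fin.cons 0 y : Fin (v + 1) → ZMod 2) ∉ S x) ∨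
        (x ∈ T ∧ (Fin.cons 1 y : Fin (v + 1) → ZMod 2) ∉ S x) ↔ x ∈ T ∧ y ∉ S0 x ∩ S1 x
      rw [Finset.mem_inter, m0, m1]
      tauto
    have hB : {x | (x, (0 : ZMod 2)) ∈ E} ∩ {x | (x, (1 : ZMod 2)) ∈ E} =
        {p : V × (Fin v → ZMod 2) | p.1 ∈ T ∧ p.2 ∉ (fun x => S0 x ∪ S1 x) p.1} := by
      rw [hE]
      ext ⟨x, y⟩
      show (x ∈ T ∧ (Fin.cons 0 y : Fin (v + 1) → ZMod 2) ∉ S x) ∧
        (x ∈ T ∧ (Fin.cons 1 y : Fin (v + 1) → ZMod 2) ∉ S x) ↔ x ∈ T ∧ y ∉ S0 x ∪ S1 x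
      rw [Finset.mem_union, m0, m1]
      tauto
    rw [hA, hB] at h4
    have i1 := ih (fun x => S0 x ∩ S1 x)
    have i2 := ih (fun x => S0 x ∪ S1 x)
    have h5 : ∑ t ∈ T, c t * (1 + qa α) ^ v * (((S0 t ∩ S1 t).card : ℝ) / 2 ^ v) ^ α +
        qa α * ∑ t ∈ T, c t * (1 + qa α) ^ v * (((S0 t ∪ S1 t).card : ℝ) / 2 ^ v) ^ α ≤
        ∑ t ∈ T, c t * (1 + qa α) ^ (v + 1) * (((S t).card : ℝ) / 2 ^ (v + 1)) ^ α := by
      rw [Finset.mul_sum, ← Finset.sum_add_distrib]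
      refine Finset.sum_le_sum fun t _ => ?_
      have g1 : ((S0 t ∩ S1 t).card : ℝ) / 2 ^ v ≤ ((S0 t ∪ S1 t).card : ℝ) / 2 ^ v := by
        refine div_le_div_of_nonneg_right ?_ (by positivity)
        exact_mod_cast Finset.card_le_card
          (Finset.inter_subset_left.trans Finset.subset_union_left)
      have g2 := num_step (α := α) (by omega)
        (x := ((S0 t ∩ S1 t).card : ℝ) / 2 ^ v) (y := ((S0 t ∪ S1 t).card : ℝ) / 2 ^ v)
        (by positivity) g1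
      have g3 : (((S0 t ∩ S1 t).card : ℝ) / 2 ^ v + ((S0 t ∪ S1 t).card : ℝ) / 2 ^ v) / 2 =
          ((S t).card : ℝ) / 2 ^ (v + 1) := by
        have g4 : (S t).card = (S0 t ∪ S1 t).card + (S0 t ∩ S1 t).card := by
          rw [Finset.card_union_add_card_inter, Star_card (S t), hS0, hS1]
        rw [g4]
        push_cast
        rw [pow_succ]
        field_simp
        ring
      rw [g3] at g2
      have g5 : 0 ≤ c t * (1 + qa α) ^ v := mul_nonneg (hc0 t) (pow_nonneg (by linarith) _)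
      have g6 := mul_le_mul_of_nonneg_left g2 g5
      rw [pow_succ]
      linarith
    have h6 := mul_le_mul_of_nonneg_left i2 hq0.le
    linarith

end H96RX
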