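import Mathlib

/-!
Definitions used in the hand-in statement (helper96): parities, proof lines, refutations, the binary pigeonhole principle.
-/

set_option autoImplicit false
open scoped Classical

namespace ParityResolution

/-- The value at the 0/1 point `v` of the parity `⊕ x` over the variables `x ∈ S`. -/
noncomputable def par {X : Type} (S : Finset X) (v : X → Bool) : Bool :=
  decide (Odd (S.filter (fun x => v x = true)).card)

/-- A proof line over the variables `X`: the disjunction of a set `eqs` of linear equations over `F_2` (the pair `(S, b)`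
is the equation `par S = b`) and of an arbitrary Boolean function of the `s` parities `par (T j)`, `j < s` (true exactly
on `g`). For `s = 0` this is a line of resolution over parities. -/
structure Line (X : Type) (s : ℕ) where
  eqs : Set (Finset X × Bool)
  T : Fin s → Finset X
  g : Set (Fin s → Bool)

/-- The line is true at the 0/1 point `v`. -/
def Line.Holds {X : Type} {s : ℕ} (L : Line X s) (v : X → Bool) : Prop :=
  (∃ e ∈ L.eqs, par e.1 v = e.2) ∨ (fun j => par (L.T j) v) ∈ L.g

/-- A clause: a set of literals; the literal `(x, b)` says `x = b`. -/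
abbrev Clause (X : Type) := Set (X × Bool)

/-- The clause is true at the 0/1 point `v`. -/
def Clause.Holds {X : Type} (C : Clause X) (v : X → Bool) : Prop := ∃ l ∈ C, v l.1 = l.2

/-- The set `𝒞` of clauses has a refutation with `N` lines: every line is implied by a clause of `𝒞` or by at most `f`
earlier lines; the last line is false everywhere. -/
def Refutes {X : Type} (s f : ℕ) (𝒞 : Set (Clause X)) (N : ℕ) : Prop :=
  ∃ l : ℕ → Line X s, 1 ≤ N ∧ (∀ v, ¬ (l (N - 1)).Holds v) ∧
    ∀ i < N, (∃ C ∈ 𝒞, ∀ v, C.Holds v → (l i).Holds v) ∨
      ∃ J : Finset ℕ, J.card ≤ f ∧ (∀ j ∈ J, j < i) ∧ ∀ v, (∀ j ∈ J, (l j).Holds v) → (l i).Holds v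

/-- The clauses of the binary pigeonhole principle with `m` pigeons and `2 ^ l` holes. The variable `(i, t)` is bit `t` of
the hole of pigeon `i`; the clause for `i ≠ j` and the hole `h` says that `i` and `j` are not both in the hole `h`. -/
def BPHP (m l : ℕ) : Set (Clause (Fin m × Fin l)) :=
  {C | ∃ (i j : Fin m) (h : Fin l → Bool), i ≠ j ∧ C = {p | (p.1.1 = i ∨ p.1.1 = j) ∧ p.2 = !(h p.1.2)}}

end ParityResolution
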